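import Mathlib

/-!
Definitions for the hyperconnectivity matroid and the maximality question for the family of
iterated cones over complete bipartite graphs.
-/

namespace Pool.Agent.helper49.Hyp

open Set

/-- The cone over a graph: one new vertex `none`, joined to every old vertex. -/
def cone {V : Type} (G : SimpleGraph V) : SimpleGraph (Option V) where
  Adj x y := match x, y with
    | none, none => False
    | none, some _ => True
    | some _, none => True
    | some a, some b => G.Adj a b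
  symm := ⟨by
    rintro (_ | a) (_ | b) h
    · exact h
    · exact trivial
    · exact trivial
    · exact G.adj_symm h⟩
  loopless := ⟨by
    rintro (_ | a) h
    · exact h
    · exact G.loopless.irrefl a h⟩

/-- A graph bundled with its vertex type. -/
abbrev Graph := Σ V : Type, SimpleGraph V

/-- The cone as an operation on bundled graphs. -/
def coneStep (G : Graph) : Graph := ⟨Option G.1, cone G.2⟩

/-- `cone^k (K_{m,m})`. -/
def coneBip (k m : ℕ) : Graph :=
  coneStep^[k] ⟨Fin m ⊕ Fin m, completeBipartiteGraph (Fin m) (Fin m)⟩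

/-- The edge set of `K_n`. -/
abbrev En (n : ℕ) : Set (Sym2 (Fin n)) := (⊤ : SimpleGraph (Fin n)).edgeSet

/-- The edge sets of all subgraphs of `K_n` isomorphic to `G`. -/
def copies (n : ℕ) (G : Graph) : Set (Set (Sym2 (Fin n))) :=
  {X | ∃ φ : G.1 ↪ Fin n, X = (G.2.map φ).edgeSet}

/-- The family of all copies in `K_n` of the graphs `cone^k (K_{d+1-k,d+1-k})`, `0 ≤ k ≤ d`. -/
def family (n d : ℕ) : Set (Set (Sym2 (Fin n))) :=
  {X | ∃ k ≤ d, X ∈ copies n (coneBip k (d + 1 - k))}

/-- The vector in `(ℝ^d)^n` of an edge `ij`, `i < j`: its `i`-th block is `p_j`, its `j`-th block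
is `-p_i`, all other blocks are `0`. -/
def vec {n d : ℕ} (p : Fin n → Fin d → ℝ) (e : Sym2 (Fin n)) : Fin n → Fin d → ℝ :=
  fun i => if i = e.inf then p e.sup else if i = e.sup then - p e.inf else 0

/-- augmentation for linearly independent subfamilies -/
theorem linear_aug {α V : Type*} [Finite α] [AddCommGroup V] [Module ℝ V] (v : α → V)
    {I J : Set α} (hI : LinearIndepOn ℝ v I) (hJ : LinearIndepOn ℝ v J)
    (h : I.ncard < J.ncard) : ∃ e ∈ J, e ∉ I ∧ LinearIndepOn ℝ v (insert e I) := by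
  classical
  by_contra hcon
  push Not at hcon
  have hfI : I.Finite := toFinite I
  have hfJ : J.Finite := toFinite J
  have hsub : Submodule.span ℝ (v '' J) ≤ Submodule.span ℝ (v '' I) := by
    rw [Submodule.span_le]
    rintro _ ⟨e, he, rfl⟩
    by_cases heI : e ∈ I
    · exact Submodule.subset_span ⟨e, heI, rfl⟩
    · by_contra hns
      exact hcon e he heI (hI.insert hns)
  have : FiniteDimensional ℝ (Submodule.span ℝ (v '' I)) :=
    FiniteDimensional.span_of_finite ℝ (hfI.image v)
  have h1 := Submodule.finrank_mono hsub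
  have cI : Module.finrank ℝ (Submodule.span ℝ (v '' I)) = I.ncard := by
    have := hfI.fintype
    have := finrank_span_eq_card (R := ℝ) (b := fun i : I => v i) hI
    rw [Set.image_eq_range]
    rw [this, Set.ncard_eq_toFinset_card', Set.toFinset_card]
  have cJ : Module.finrank ℝ (Submodule.span ℝ (v '' J)) = J.ncard := by
    have := hfJ.fintype
    have := finrank_span_eq_card (R := ℝ) (b := fun i : J => v i) hJ
    rw [Set.image_eq_range]
    rw [this, Set.ncard_eq_toFinset_card', Set.toFinset_card]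
  omega

/-- Kalai's `d`-hyperconnectivity matroid on `E(K_n)` for the vectors `p_1, …, p_n ∈ ℝ^d`:
a set of edges is independent iff its vectors are linearly independent. -/
def hyper {n d : ℕ} (p : Fin n → Fin d → ℝ) : Matroid (Sym2 (Fin n)) :=
  (IndepMatroid.ofFinite (E := En n) (toFinite _)
    (fun I => I ⊆ En n ∧ LinearIndepOn ℝ (vec p) I)
    ⟨empty_subset _, linearIndepOn_empty ℝ _⟩
    (fun _ _ hJ hIJ => ⟨hIJ.trans hJ.1, hJ.2.mono hIJ⟩)
    (fun _ _ hI hJ h => by
      obtain ⟨e, heJ, heI, hi⟩ := linear_aug (vec p) hI.2 hJ.2 h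
      exact ⟨e, heJ, heI, insert_subset (hJ.1 heJ) hI.1, hi⟩)
    (fun _ hI => hI.1)).matroid

/-- `M` is an `𝒳`-matroid on `E(K_n)`: every member of `𝒳` is a circuit of `M`. -/
def IsXMatroid {n : ℕ} (𝒳 : Set (Set (Sym2 (Fin n)))) (M : Matroid (Sym2 (Fin n))) : Prop :=
  M.E = En n ∧ ∀ X ∈ 𝒳, M.IsCircuit X

/-- `M` is a maximal `𝒳`-matroid on `E(K_n)`, for the order by inclusion of the families of
independent sets. -/
def IsMaximalXMatroid {n : ℕ} (𝒳 : Set (Set (Sym2 (Fin n)))) (M : Matroid (Sym2 (Fin n))) :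
    Prop :=
  IsXMatroid 𝒳 M ∧ ∀ N, IsXMatroid 𝒳 N → (∀ I, M.Indep I → N.Indep I) → N = M

/-- Proper `𝒳`-sequences `S_0, …, S_{k-1}`: members of `𝒳`, none of which (from the second on) is
contained in the union of the previous ones. -/
def IsProper {n k : ℕ} (𝒳 : Set (Set (Sym2 (Fin n)))) (S : Fin k → Set (Sym2 (Fin n))) : Prop :=
  (∀ i, S i ∈ 𝒳) ∧ ∀ i : Fin k, 0 < (i : ℕ) → ¬ S i ⊆ ⋃ j : {j : Fin k // j < i}, S j

/-- `val_𝒳 (F)`: the minimum of `|F ∪ X_1 ∪ … ∪ X_k| - k` over all proper `𝒳`-sequences. -/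
noncomputable def val {n : ℕ} (𝒳 : Set (Set (Sym2 (Fin n)))) (F : Set (Sym2 (Fin n))) : ℤ :=
  sInf {v : ℤ | ∃ (k : ℕ) (S : Fin k → Set (Sym2 (Fin n))), IsProper 𝒳 S ∧
    v = ((F ∪ ⋃ i, S i).ncard : ℤ) - k}

end Pool.Agent.helper49.Hyp
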