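import Pool.Agent.helper49.HypM

namespace Pool.Agent.helper49.Hyp

open Set

variable {n d : ℕ}

/-- `F` has more than `(d+1)^2` edges -/
theorem F_card {A B K : Finset (Fin n)} (hc : Conf d A B K) :
    (d + 1) * (d + 1) < (FABK A B K).ncard := by
  classical
  have cA := hc.cA
  have cB := hc.cB
  have cAB := hc.cAB
  have nAB : ∀ z, z ∈ A → z ∉ B := fun z h1 h2 => Finset.disjoint_left.1 hc.dAB h1 h2
  have nAK : ∀ z, z ∈ A → z ∉ K := fun z h1 h2 => Finset.disjoint_left.1 hc.dAK h1 h2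
  have nBK : ∀ z, z ∈ B → z ∉ K := fun z h1 h2 => Finset.disjoint_left.1 hc.dBK h1 h2
  set G : Finset (Sym2 (Fin n)) := ((A ∪ B) ×ˢ K).image (fun x : Fin n × Fin n => s(x.1, x.2))
    with hG
  have hGc : G.card = (d + 2) * d := by
    rw [hG, Finset.card_image_of_injOn, Finset.card_product,
      Finset.card_union_of_disjoint hc.dAB, hc.cK, cAB]
    rintro ⟨x, k⟩ hxk ⟨y, l⟩ hyl h
    rw [Finset.mem_coe, Finset.mem_product, Finset.mem_union] at hxk hyl
    have h' : s(x, k) = s(y, l) := h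
    rw [Sym2.eq_iff] at h'
    rcases h' with ⟨rfl, rfl⟩ | ⟨h1, h2⟩
    · rfl
    · exfalso
      simp only at hxk hyl
      rw [← h2] at hyl
      rcases hyl.1 with h | h
      · exact nAK _ h hxk.2
      · exact nBK _ h hxk.2
  obtain ⟨x, y, z, hxy, hxz, hyz, hA⟩ : ∃ x y z, x ≠ y ∧ x ≠ z ∧ y ≠ z ∧
      ({x, y, z} : Finset (Fin n)) ⊆ A := by
    obtain ⟨t, ht, htc⟩ := Finset.exists_subset_card_eq cA
    obtain ⟨x, y, z, h1, h2, h3, rfl⟩ := Finset.card_eq_three.1 htc
    exact ⟨x, y, z, h1, h2, h3, ht⟩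
  have hx : x ∈ A := hA (by simp)
  have hy : y ∈ A := hA (by simp)
  have hz : z ∈ A := hA (by simp)
  have hG1 : ∀ a ∈ A, ∀ b ∈ A, s(a, b) ∉ G := by
    intro a ha b hb h
    rw [hG, Finset.mem_image] at h
    obtain ⟨⟨u, k⟩, huk, he⟩ := h
    rw [Finset.mem_product] at huk
    have he' : s(u, k) = s(a, b) := he
    rw [Sym2.eq_iff] at he'
    rcases he' with ⟨h1, h2⟩ | ⟨h1, h2⟩
    · apply nAK b hb; rw [← h2]; exact huk.2
    · apply nAK a ha; rw [← h2]; exact huk.2
  have hsub : ((insert s(x, y) (insert s(x, z) G) : Finset (Sym2 (Fin n))) :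
      Set (Sym2 (Fin n))) ⊆ FABK A B K := by
    intro e he
    rw [Finset.mem_coe, Finset.mem_insert, Finset.mem_insert] at he
    rcases he with rfl | rfl | he
    · rw [mem_FABK]; exact ⟨hxy, Or.inr (Or.inr (Or.inl ⟨hx, hy⟩))⟩
    · rw [mem_FABK]; exact ⟨hxz, Or.inr (Or.inr (Or.inl ⟨hx, hz⟩))⟩
    · rw [hG, Finset.mem_image] at he
      obtain ⟨⟨u, k⟩, huk, rfl⟩ := he
      rw [Finset.mem_product, Finset.mem_union] at huk
      rw [mem_FABK]
      refine ⟨?_, Or.inl ⟨huk.1, huk.2⟩⟩
      rintro h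
      simp only at h
      rcases huk.1 with h1 | h1
      · apply nAK _ h1; simp only; rw [h]; exact huk.2
      · apply nBK _ h1; simp only; rw [h]; exact huk.2
  have hcard : (insert s(x, y) (insert s(x, z) G)).card = (d + 2) * d + 2 := by
    rw [Finset.card_insert_of_notMem, Finset.card_insert_of_notMem, hGc]
    · exact hG1 x hx z hz
    · rw [Finset.mem_insert, not_or]
      refine ⟨?_, hG1 x hx y hy⟩
      rw [Sym2.eq_iff]
      rintro (⟨-, h⟩ | ⟨h, -⟩)
      · exact hyz h
      · exact hxz h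
  calc (d + 1) * (d + 1) < (d + 2) * d + 2 := by ring_nf; omega
    _ = (insert s(x, y) (insert s(x, z) G)).card := hcard.symm
    _ = ((insert s(x, y) (insert s(x, z) G) : Finset (Sym2 (Fin n))) :
          Set (Sym2 (Fin n))).ncard := (Set.ncard_coe_finset _).symm
    _ ≤ (FABK A B K).ncard := Set.ncard_le_ncard hsub (toFinite _)

theorem exists_conf (hd : 4 ≤ d) (hn : 2 * d + 2 ≤ n) :
    ∃ A B K : Finset (Fin n), Conf d A B K := by
  classical
  obtain ⟨K, -, hK⟩ := Finset.exists_subset_card_eq (s := (Finset.univ : Finset (Fin n))) (n := d)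
    (by rw [Finset.card_univ, Fintype.card_fin]; omega)
  have h1 : (Finset.univ \ K : Finset (Fin n)).card = n - d := by
    rw [Finset.card_sdiff_of_subset (Finset.subset_univ _), Finset.card_univ, Fintype.card_fin, hK]
  obtain ⟨A, hA, hAc⟩ := Finset.exists_subset_card_eq (s := Finset.univ \ K) (n := 3)
    (by rw [h1]; omega)
  have h2 : ((Finset.univ \ K) \ A : Finset (Fin n)).card = n - d - 3 := by
    rw [Finset.card_sdiff_of_subset hA, h1, hAc]
  obtain ⟨B, hB, hBc⟩ := Finset.exists_subset_card_eq (s := (Finset.univ \ K) \ A) (n := d - 1)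
    (by rw [h2]; omega)
  refine ⟨A, B, K, ?_, ?_, ?_, hK, by omega, by omega, by omega⟩
  · rw [Finset.disjoint_left]
    intro x hx hxB
    exact (Finset.mem_sdiff.1 (hB hxB)).2 hx
  · rw [Finset.disjoint_left]
    intro x hx hxK
    exact (Finset.mem_sdiff.1 (hA hx)).2 hxK
  · rw [Finset.disjoint_left]
    intro x hx hxK
    exact (Finset.mem_sdiff.1 (Finset.mem_sdiff.1 (hB hx)).1).2 hxK

section main

variable {p : Fin n → Fin d → ℝ} {A B K : Finset (Fin n)}

theorem F_notMem_family (hc : Conf d A B K) : FABK A B K ∉ family n d := by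
  intro h
  have h1 := family_card h
  have h2 := F_card hc
  omega

theorem F_cl (hp : Gen p) (hc : Conf d A B K) :
    ∀ I ⊆ FABK A B K, (hyper p).Indep I → ∀ e ∈ (hyper p).E, e ∉ FABK A B K →
      (hyper p).Indep (insert e I) :=
  fun _ hI hind _ he heF => F_closed' hp hc hI hind he heF

theorem hyper_isX (hp : Gen p) (hn : 2 * d + 2 ≤ n) : IsXMatroid (family n d) (hyper p) :=
  ⟨rfl, fun _ hX => family_circuit hp hn hX⟩

/-- an `𝒳_d`-matroid in which `F` is independent -/
theorem exists_relaxed (hp : Gen p) (hn : 2 * d + 2 ≤ n) (hc : Conf d A B K) :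
    ∃ M' : Matroid (Sym2 (Fin n)), IsXMatroid (family n d) M' ∧
      ∀ I, M'.Indep I ↔ ((hyper p).Indep I ∧ I.ncard ≤ (FABK A B K).ncard) ∨
        I = FABK A B K := by
  obtain ⟨M', hE, hM'⟩ := relax (hyper p) (F_circuit hp hc) (F_cl hp hc)
  refine ⟨M', ⟨hE, ?_⟩, hM'⟩
  intro X hX
  have hXc := family_circuit hp hn hX
  rw [Matroid.isCircuit_iff_dep_forall_sdiff_singleton_indep]
  refine ⟨⟨?_, ?_⟩, ?_⟩
  · rw [hM']
    rintro (h | h)
    · exact hXc.not_indep h.1
    · exact F_notMem_family hc (h ▸ hX)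
  · rw [hE]; exact hXc.subset_ground
  · intro e he
    rw [hM']
    left
    refine ⟨hXc.sdiff_singleton_indep he, ?_⟩
    have h1 := family_card hX
    have h2 := F_card hc
    have h3 := Set.ncard_le_ncard (sdiff_subset : X \ {e} ⊆ X) (toFinite _)
    omega

theorem main_maximal (hp : Gen p) (hd : 4 ≤ d) (hn : 2 * d + 2 ≤ n) :
    ∃ M, IsMaximalXMatroid (family n d) M ∧ M ≠ hyper p := by
  obtain ⟨A, B, K, hc⟩ := exists_conf hd hn
  obtain ⟨M', hX, hM'⟩ := exists_relaxed hp hn hc
  obtain ⟨M, hM, hle⟩ := exists_maximal _ M' hX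
  refine ⟨M, hM, ?_⟩
  rintro rfl
  have h1 := hle (FABK A B K) ((hM' _).2 (Or.inr rfl))
  exact (F_circuit hp hc).not_indep h1

theorem main_val (hp : Gen p) (hd : 4 ≤ d) (hn : 2 * d + 2 ≤ n) :
    ∃ F ⊆ En n, (((hyper p).eRk F).toNat : ℤ) < val (family n d) F := by
  obtain ⟨A, B, K, hc⟩ := exists_conf hd hn
  refine ⟨FABK A B K, FABK_subset A B K, ?_⟩
  have h1 := val_ge (hyper_isX hp hn) (F_circuit hp hc) (F_notMem_family hc) (F_cl hp hc)
  refine lt_of_lt_of_le ?_ h1
  have h2 := (F_circuit hp hc).eRk_add_one_eq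
  rw [← Set.Finite.cast_ncard_eq (toFinite (FABK A B K))] at h2
  have h3 : (hyper p).eRk (FABK A B K) ≠ ⊤ :=
    ne_top_of_le_ne_top (Set.encard_ne_top_iff.2 (toFinite _)) ((hyper p).eRk_le_encard _)
  lift (hyper p).eRk (FABK A B K) to ℕ using h3 with r hr
  have h4 : r + 1 = (FABK A B K).ncard := by exact_mod_cast h2
  simp only [ENat.toNat_natCast]
  omega

/-- the edges touching `K` span -/
theorem indep_card_le (hp : Gen p) (hn : 2 * d + 2 ≤ n) (hK : K.card = d)
    {B0 : Set (Sym2 (Fin n))} (hB0 : B0 ⊆ En n)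
    (hB : ∀ i j : Fin n, i ≠ j → i ∈ K → s(i, j) ∈ B0) {I : Set (Sym2 (Fin n))}
    (hI : (hyper p).Indep I) : I.ncard ≤ B0.ncard := by
  classical
  have hcl : En n ⊆ (hyper p).closure B0 := by
    intro e he
    by_cases heB : e ∈ B0
    · exact (hyper p).mem_closure_of_mem heB (by exact hB0)
    induction e with | _ x y =>
    have hxy : x ≠ y := mem_En.1 he
    have hx : x ∉ K := fun h => heB (hB x y hxy h)
    have hy : y ∉ K := fun h => heB (by rw [Sym2.eq_swap]; exact hB y x hxy.symm h)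
    have hne : insert x K ≠ insert y K := by
      intro h
      have : x ∈ insert y K := by rw [← h]; exact Finset.mem_insert_self _ _
      rw [Finset.mem_insert] at this
      rcases this with h | h
      · exact hxy h
      · exact hx h
    have hc := XST_circuit hp (S := insert x K) (T := insert y K)
      (by rw [Finset.card_insert_of_notMem hx, hK]) (by rw [Finset.card_insert_of_notMem hy, hK])
      hne hn
    have h1 := hc.mem_closure_sdiff_singleton_of_mem (e := s(x, y)) (by
      rw [mem_XST]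
      exact ⟨hxy, Or.inl ⟨Finset.mem_insert_self _ _, Finset.mem_insert_self _ _⟩⟩)
    refine (hyper p).closure_subset_closure ?_ h1
    intro f hf
    obtain ⟨hf1, hf2⟩ := hf
    induction f with | _ a b =>
    rw [mem_XST] at hf1
    obtain ⟨hab, h | h⟩ := hf1
    · rw [Finset.mem_insert, Finset.mem_insert] at h
      obtain ⟨rfl | ha, hb⟩ := h
      · rcases hb with rfl | hb
        · exact absurd rfl hf2
        · rw [Sym2.eq_swap]; exact hB b a hab.symm hb
      · exact hB a b hab ha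
    · rw [Finset.mem_insert, Finset.mem_insert] at h
      obtain ⟨rfl | hb, ha⟩ := h
      · rcases ha with rfl | ha
        · exact absurd Sym2.eq_swap hf2
        · exact hB a b hab ha
      · rw [Sym2.eq_swap]; exact hB b a hab.symm hb
  have h1 : I.encard ≤ B0.encard := by
    calc I.encard ≤ (hyper p).eRk ((hyper p).closure B0) :=
          hI.encard_le_eRk_of_subset (hI.subset_ground.trans hcl)
      _ = (hyper p).eRk B0 := (hyper p).eRk_closure_eq _
      _ ≤ B0.encard := (hyper p).eRk_le_encard _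
  rw [← Set.Finite.cast_ncard_eq (toFinite I), ← Set.Finite.cast_ncard_eq (toFinite B0)] at h1
  exact_mod_cast h1

end main

/-- for `d = 4`, `n = 10` the hyperconnectivity matroid is not even maximal -/
theorem main_ten {p : Fin 10 → Fin 4 → ℝ} (hp : Gen p) :
    ¬ IsMaximalXMatroid (family 10 4) (hyper p) := by
  classical
  intro hmax
  set A : Finset (Fin 10) := {0, 1, 2} with hA
  set B : Finset (Fin 10) := {3, 4, 5} with hB
  set K : Finset (Fin 10) := {6, 7, 8, 9} with hK
  have hc : Conf 4 A B K := by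
    refine ⟨?_, ?_, ?_, ?_, ?_, ?_, ?_⟩ <;> decide
  obtain ⟨M', hX, hM'⟩ := exists_relaxed hp (by norm_num) hc
  have hcard : ∀ I, (hyper p).Indep I → I.ncard ≤ (FABK A B K).ncard := by
    intro I hI
    set G : Finset (Sym2 (Fin 10)) := Finset.univ.filter
      (fun e => ¬ e.IsDiag ∧ ∃ i ∈ K, i ∈ e) with hG
    set H : Finset (Sym2 (Fin 10)) := Finset.univ.filter
      (fun e => ∃ i j, e = s(i, j) ∧ i ≠ j ∧
        (((i ∈ A ∨ i ∈ B) ∧ j ∈ K) ∨ (i ∈ A ∧ j ∈ A) ∨ (i ∈ B ∧ j ∈ B))) with hH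
    have h1 := indep_card_le hp (by norm_num) (K := K) (by decide) (B0 := (G : Set _)) (by
      intro e he
      rw [Finset.mem_coe, hG, Finset.mem_filter] at he
      induction e with | _ a b =>
      exact mem_En.2 he.2.1) (by
      intro i j hij hi
      rw [Finset.mem_coe, hG, Finset.mem_filter]
      exact ⟨Finset.mem_univ _, hij, i, hi, Sym2.mem_mk_left _ _⟩) hI
    have h2 : (H : Set (Sym2 (Fin 10))) ⊆ FABK A B K := by
      intro e he
      rw [Finset.mem_coe, hH, Finset.mem_filter] at he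
      exact he.2
    have h3 : G.card = 30 := by decide +kernel
    have h4 : H.card = 30 := by decide +kernel
    rw [Set.ncard_coe_finset, h3] at h1
    have h5 := Set.ncard_le_ncard h2 (toFinite _)
    rw [Set.ncard_coe_finset, h4] at h5
    omega
  have h1 := hmax.2 M' hX (fun I hI => (hM' I).2 (Or.inl ⟨hI, hcard I hI⟩))
  have h2 := (hM' (FABK A B K)).2 (Or.inr rfl)
  rw [h1] at h2
  exact (F_circuit hp hc).not_indep h2

open Cardinal in
/-- generic points exist -/
theorem exists_gen (n d : ℕ) : ∃ p : Fin n → Fin d → ℝ, Gen p := by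
  classical
  obtain ⟨s, hs⟩ := exists_isTranscendenceBasis ℚ ℝ
  have hinf : Infinite s := by
    by_contra hfin
    rw [not_infinite_iff_finite] at hfin
    have := hs.isAlgebraic
    have h1 := Algebra.IsAlgebraic.cardinalMk_le_max (Algebra.adjoin ℚ (Set.range ((↑) : s → ℝ))) ℝ
    have h2 : #(Algebra.adjoin ℚ (Set.range ((↑) : s → ℝ))) ≤ ℵ₀ := by
      rw [← Cardinal.mk_congr hs.1.aevalEquiv.toEquiv]
      refine MvPolynomial.cardinalMk_le_max.trans ?_
      simp [Cardinal.mk_le_aleph0]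
    have h3 : #ℝ ≤ ℵ₀ := h1.trans (max_le h2 le_rfl)
    rw [Cardinal.mk_real] at h3
    exact absurd h3 (not_le.2 Cardinal.aleph0_lt_continuum)
  obtain ⟨f⟩ : Nonempty ((Fin n × Fin d) ↪ s) := by
    have := Infinite.natEmbedding s
    have e : (Fin n × Fin d) ↪ ℕ := (Fintype.equivFin (Fin n × Fin d)).toEmbedding.trans
      Fin.valEmbedding
    exact ⟨e.trans this⟩
  refine ⟨fun i t => (f (i, t) : ℝ), ?_⟩
  exact AlgebraicIndependent.comp hs.1 f f.injective

end Pool.Agent.helper49.Hyp
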