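import Pool.Agent.helper49.HypX

namespace Pool.Agent.helper49.Hyp

open Set

variable {n d : ℕ}

/-- The graph `K_{A ∪ B, K}` together with all edges inside `A` and all edges inside `B`. -/
def FABK (A B K : Finset (Fin n)) : Set (Sym2 (Fin n)) :=
  {e | ∃ i j, e = s(i, j) ∧ i ≠ j ∧
    (((i ∈ A ∨ i ∈ B) ∧ j ∈ K) ∨ (i ∈ A ∧ j ∈ A) ∨ (i ∈ B ∧ j ∈ B))}

theorem mem_FABK {A B K : Finset (Fin n)} {i j : Fin n} :
    s(i, j) ∈ FABK A B K ↔ i ≠ j ∧ (((i ∈ A ∨ i ∈ B) ∧ j ∈ K) ∨ ((j ∈ A ∨ j ∈ B) ∧ i ∈ K) ∨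
      (i ∈ A ∧ j ∈ A) ∨ (i ∈ B ∧ j ∈ B)) := by
  constructor
  · rintro ⟨a, b, h, hab, hh⟩
    rw [Sym2.eq_iff] at h
    rcases h with ⟨rfl, rfl⟩ | ⟨rfl, rfl⟩
    · exact ⟨hab, by tauto⟩
    · exact ⟨hab.symm, by tauto⟩
  · rintro ⟨hij, h | h | h | h⟩
    · exact ⟨i, j, rfl, hij, by tauto⟩
    · exact ⟨j, i, Sym2.eq_swap, hij.symm, by tauto⟩
    · exact ⟨i, j, rfl, hij, by tauto⟩
    · exact ⟨i, j, rfl, hij, by tauto⟩

theorem FABK_subset (A B K : Finset (Fin n)) : FABK A B K ⊆ En n := by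
  rintro e ⟨i, j, rfl, hij, -⟩
  exact mem_En.2 hij

theorem FABK_comm (A B K : Finset (Fin n)) : FABK A B K = FABK B A K := by
  ext e
  induction e with | _ i j =>
  rw [mem_FABK, mem_FABK]
  tauto

/-- the configuration hypotheses -/
structure Conf (d : ℕ) (A B K : Finset (Fin n)) : Prop where
  dAB : Disjoint A B
  dAK : Disjoint A K
  dBK : Disjoint B K
  cK : K.card = d
  cAB : A.card + B.card = d + 2
  cA : 3 ≤ A.card
  cB : 3 ≤ B.card

theorem Conf.symm {A B K : Finset (Fin n)} (h : Conf d A B K) : Conf d B A K :=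
  ⟨h.dAB.symm, h.dBK, h.dAK, h.cK, by have := h.cAB; omega, h.cB, h.cA⟩

section stress

variable {p : Fin n → Fin d → ℝ} {A B K : Finset (Fin n)} {W : Fin n → Fin n → ℝ}

/-- rows of a stress supported on `T` with `|T| ≤ d` vanish -/
theorem row_zero (hp : Gen p) (hW : IsStress p W) {T : Finset (Fin n)} (hT : T.card ≤ d)
    {i : Fin n} (h : ∀ j, j ∉ T → W i j = 0) : ∀ j, W i j = 0 :=
  dep_zero hp hT h (hW.bal i)

theorem supp_AB (hc : Conf d A B K) (hs : Supp W (FABK A B K)) {x y : Fin n} (hx : x ∈ A)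
    (hy : y ∈ B) : W x y = 0 := by
  apply hs
  rw [mem_FABK]
  have h1 := Finset.disjoint_left.1 hc.dAB hx
  have h2 := Finset.disjoint_left.1 hc.dAK hx
  have h3 := fun h => Finset.disjoint_left.1 hc.dAB h hy
  have h4 := Finset.disjoint_left.1 hc.dBK hy
  tauto

theorem supp_KK (hc : Conf d A B K) (hs : Supp W (FABK A B K)) {x y : Fin n} (hx : x ∈ K)
    (hy : y ∈ K) : W x y = 0 := by
  apply hs
  rw [mem_FABK]
  have h1 := fun h => Finset.disjoint_left.1 hc.dAK h hx
  have h2 := fun h => Finset.disjoint_left.1 hc.dBK h hx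
  have h3 := fun h => Finset.disjoint_left.1 hc.dAK h hy
  have h4 := fun h => Finset.disjoint_left.1 hc.dBK h hy
  tauto

theorem supp_out (hs : Supp W (FABK A B K)) {x y : Fin n} (hA : x ∉ A) (hB : x ∉ B)
    (hK : x ∉ K) : W x y = 0 := by
  apply hs
  rw [mem_FABK]
  tauto

/-- applying a functional that kills `B` -/
theorem contract (hp : Gen p) (hc : Conf d A B K) (hW : IsStress p W)
    (hs : Supp W (FABK A B K)) (f : (Fin d → ℝ) →ₗ[ℝ] ℝ) (hf : ∀ x ∈ B, f (p x) = 0) :
    ∀ u ∈ A, ∑ v ∈ A, W u v * f (p v) = 0 := by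
  classical
  -- the vector `g u = ∑_{k ∈ K} W u k f (p k)`
  set g : Fin n → ℝ := fun u => ∑ k ∈ K, W u k * f (p k) with hg
  have hrow : ∀ u, ∑ v, W u v * f (p v) = 0 := by
    intro u
    have := congrArg f (hW.bal u)
    simpa [map_sum] using this
  have hsplit : ∀ u, ∑ v, W u v * f (p v) =
      ∑ v ∈ A, W u v * f (p v) + ∑ v ∈ B, W u v * f (p v) + g u +
        ∑ v ∈ (Finset.univ \ (A ∪ B ∪ K)), W u v * f (p v) := by
    intro u
    rw [hg, ← Finset.sum_union hc.dAB, ← Finset.sum_union]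
    · rw [add_comm, Finset.sum_sdiff (Finset.subset_univ _)]
    · rw [Finset.disjoint_union_left]
      exact ⟨hc.dAK, hc.dBK⟩
  have hout : ∀ u, ∑ v ∈ (Finset.univ \ (A ∪ B ∪ K)), W u v * f (p v) = 0 := by
    intro u
    apply Finset.sum_eq_zero
    intro v hv
    rw [Finset.mem_sdiff, Finset.mem_union, Finset.mem_union] at hv
    rw [hW.anti u v, supp_out hs (by tauto) (by tauto) (by tauto)]
    simp
  have hB0 : ∀ u, ∑ v ∈ B, W u v * f (p v) = 0 := by
    intro u
    apply Finset.sum_eq_zero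
    intro v hv
    rw [hf v hv, mul_zero]
  have hgdep : ∑ u, g u • p u = 0 := by
    simp only [hg, Finset.sum_smul]
    rw [Finset.sum_comm]
    apply Finset.sum_eq_zero
    intro k _
    have h1 : ∑ u, (W u k * f (p k)) • p u = -(f (p k) • ∑ u, W k u • p u) := by
      rw [Finset.smul_sum, ← Finset.sum_neg_distrib]
      apply Finset.sum_congr rfl
      intro u _
      rw [hW.anti u k, smul_smul, ← neg_smul]
      congr 1
      ring
    rw [h1, hW.bal k]
    simp
  have hgB : ∀ u ∈ B, g u = 0 := by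
    intro u hu
    have h1 := hrow u
    rw [hsplit, hout, hB0] at h1
    have h2 : ∑ v ∈ A, W u v * f (p v) = 0 := by
      apply Finset.sum_eq_zero
      intro v hv
      rw [hW.anti u v, supp_AB hc hs hv hu]
      simp
    linarith
  have hg0 : ∀ u, g u = 0 := by
    apply dep_zero hp (T := A) _ _ hgdep
    · have := hc.cAB; have := hc.cB; omega
    · intro u hu
      by_cases h1 : u ∈ B
      · exact hgB u h1
      · by_cases h2 : u ∈ K
        · apply Finset.sum_eq_zero
          intro k hk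
          rw [supp_KK hc hs h2 hk, zero_mul]
        · apply Finset.sum_eq_zero
          intro k hk
          rw [supp_out hs hu h1 h2, zero_mul]
  intro u hu
  have h1 := hrow u
  rw [hsplit, hout, hB0, hg0] at h1
  linarith

/-- a functional vanishing on `B` and on `A` except for three points -/
theorem three_functional (hp : Gen p) (hc : Conf d A B K) {x y z : Fin n} (hx : x ∈ A)
    (hy : y ∈ A) (hz : z ∈ A) (hxy : x ≠ y) (hxz : x ≠ z) (hyz : y ≠ z) :
    ∃ f : (Fin d → ℝ) →ₗ[ℝ] ℝ, (∀ u ∈ B, f (p u) = 0) ∧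
      (∀ u ∈ A, u ≠ x → u ≠ y → u ≠ z → f (p u) = 0) ∧ f (p x) ≠ 0 ∧ f (p y) ≠ 0 ∧
      f (p z) ≠ 0 := by
  classical
  set T : Finset (Fin n) := B ∪ (((A.erase x).erase y).erase z) with hT
  have hdT : Disjoint B (((A.erase x).erase y).erase z) := by
    rw [Finset.disjoint_left]
    intro u hu h
    exact Finset.disjoint_left.1 hc.dAB
      (Finset.mem_of_mem_erase (Finset.mem_of_mem_erase (Finset.mem_of_mem_erase h))) hu
  have hcT : T.card + 1 = d := by
    rw [hT, Finset.card_union_of_disjoint hdT, Finset.card_erase_of_mem, Finset.card_erase_of_mem,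
      Finset.card_erase_of_mem hx]
    · have := hc.cAB; have := hc.cA; omega
    · exact Finset.mem_erase.2 ⟨hxy.symm, hy⟩
    · exact Finset.mem_erase.2 ⟨hyz.symm, Finset.mem_erase.2 ⟨hxz.symm, hz⟩⟩
  have hxT : x ∉ T := by
    rw [hT, Finset.mem_union, not_or]
    exact ⟨fun h => Finset.disjoint_left.1 hc.dAB hx h, by simp⟩
  have hyT : y ∉ T := by
    rw [hT, Finset.mem_union, not_or]
    exact ⟨fun h => Finset.disjoint_left.1 hc.dAB hy h, by simp⟩
  have hzT : z ∉ T := by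
    rw [hT, Finset.mem_union, not_or]
    exact ⟨fun h => Finset.disjoint_left.1 hc.dAB hz h, by simp⟩
  obtain ⟨f, hfx, hfT⟩ := exists_functional hp hcT.le hxT
  have hf0 : f ≠ 0 := by
    rintro rfl
    exact hfx rfl
  have hne : ∀ w, w ∉ T → f (p w) ≠ 0 := by
    intro w hw h0
    apply hf0
    apply functional_zero hp (T := insert w T)
    · rw [Finset.card_insert_of_notMem hw]; exact hcT
    · intro u hu
      rw [Finset.mem_insert] at hu
      rcases hu with rfl | hu
      · exact h0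
      · exact hfT u hu
  refine ⟨f, fun u hu => hfT u (Finset.mem_union_left _ hu), ?_, hfx, hne y hyT, hne z hzT⟩
  intro u hu h1 h2 h3
  apply hfT
  rw [hT, Finset.mem_union]
  right
  rw [Finset.mem_erase, Finset.mem_erase, Finset.mem_erase]
  exact ⟨h3, h2, h1, hu⟩

/-- the three term relation -/
theorem three_term (hp : Gen p) (hc : Conf d A B K) (hW : IsStress p W)
    (hs : Supp W (FABK A B K)) {x y z : Fin n} (hx : x ∈ A) (hy : y ∈ A) (hz : z ∈ A)
    (hxy : x ≠ y) (hxz : x ≠ z) (hyz : y ≠ z) (h0 : W x y = 0) : W x z = 0 := by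
  classical
  obtain ⟨f, hfB, hfA, hfx, hfy, hfz⟩ := three_functional hp hc hx hy hz hxy hxz hyz
  have h1 := contract hp hc hW hs f hfB x hx
  have h2 : ∑ v ∈ A, W x v * f (p v) = W x z * f (p z) := by
    apply Finset.sum_eq_single_of_mem z hz
    intro v hv hvz
    rcases eq_or_ne v x with rfl | hvx
    · rw [hW.diag, zero_mul]
    · rcases eq_or_ne v y with rfl | hvy
      · rw [h0, zero_mul]
      · rw [hfA v hv hvx hvy hvz, mul_zero]
  rw [h2] at h1
  exact (mul_eq_zero.1 h1).resolve_right hfz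

/-- uniqueness of the stress of `F` -/
theorem F_uniq (hp : Gen p) (hc : Conf d A B K) (hW : IsStress p W)
    (hs : Supp W (FABK A B K)) {x y : Fin n} (hx : x ∈ A) (hy : y ∈ A)
    (hxy : x ≠ y) (h0 : W x y = 0) : ∀ i j, W i j = 0 := by
  classical
  have h1 : ∀ v ∈ A, W x v = 0 := by
    intro v hv
    rcases eq_or_ne v x with rfl | hvx
    · exact hW.diag _
    · rcases eq_or_ne v y with rfl | hvy
      · exact h0
      · exact three_term hp hc hW hs hx hy hv hxy hvx.symm hvy.symm h0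
  have h2 : ∀ u ∈ A, ∀ v ∈ A, W u v = 0 := by
    intro u hu v hv
    rcases eq_or_ne u x with rfl | hux
    · exact h1 v hv
    rcases eq_or_ne v x with rfl | hvx
    · rw [hW.anti, h1 u hu]; simp
    rcases eq_or_ne u v with rfl | huv
    · exact hW.diag _
    · exact three_term hp hc hW hs hu hx hv hux huv hvx.symm (by rw [hW.anti, h1 u hu]; simp)
  have cA := hc.cA
  have cB := hc.cB
  have cAB := hc.cAB
  -- rows in `A`
  have h3 : ∀ u ∈ A, ∀ j, W u j = 0 := by
    intro u hu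
    apply row_zero hp hW (T := K) hc.cK.le
    intro j hj
    by_cases hjA : j ∈ A
    · exact h2 u hu j hjA
    · by_cases hjB : j ∈ B
      · exact supp_AB hc hs hu hjB
      · rw [hW.anti, supp_out hs hjA hjB hj]; simp
  -- rows in `K`
  have h4 : ∀ k ∈ K, ∀ j, W k j = 0 := by
    intro k hk
    apply row_zero hp hW (T := B) (by omega)
    intro j hj
    by_cases hjA : j ∈ A
    · rw [hW.anti, h3 j hjA]; simp
    · by_cases hjK : j ∈ K
      · exact supp_KK hc hs hk hjK
      · rw [hW.anti, supp_out hs hjA hj hjK]; simp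
  have h5 : ∀ u ∈ B, ∀ j, W u j = 0 := by
    intro u hu
    apply row_zero hp hW (T := B) (by omega)
    intro j hj
    by_cases hjA : j ∈ A
    · rw [hW.anti, h3 j hjA]; simp
    · by_cases hjK : j ∈ K
      · rw [hW.anti, h4 j hjK]; simp
      · rw [hW.anti, supp_out hs hjA hj hjK]; simp
  intro i j
  by_cases hA : i ∈ A
  · exact h3 i hA j
  · by_cases hB : i ∈ B
    · exact h5 i hB j
    · by_cases hK : i ∈ K
      · exact h4 i hK j
      · exact supp_out hs hA hB hK

/-- existence of a nonzero stress on `F` -/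
theorem F_exists (hp : Gen p) (hc : Conf d A B K) :
    ∃ W, IsStress p W ∧ Supp W (FABK A B K) ∧ ∃ x ∈ A, ∃ y ∈ A, x ≠ y ∧ W x y ≠ 0 := by
  classical
  have cA := hc.cA
  have cB := hc.cB
  have cAB := hc.cAB
  obtain ⟨x, hx, y, hy, hxy⟩ : ∃ x ∈ A, ∃ y ∈ A, x ≠ y := by
    have : 1 < A.card := by omega
    rw [Finset.one_lt_card] at this
    obtain ⟨a, ha, b, hb, hab⟩ := this
    exact ⟨a, ha, b, hb, hab⟩
  have cU : (A ∪ B).card = d + 2 := by rw [Finset.card_union_of_disjoint hc.dAB]; omega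
  have hxU : x ∈ A ∪ B := Finset.mem_union_left _ hx
  have hyU : y ∈ A ∪ B := Finset.mem_union_left _ hy
  obtain ⟨ρ, hρ, hρ', hρs⟩ := exists_dep hp (S := (A ∪ B).erase y)
    (by rw [Finset.card_erase_of_mem hyU]; omega)
  obtain ⟨σ, hσ, hσ', hσs⟩ := exists_dep hp (S := (A ∪ B).erase x)
    (by rw [Finset.card_erase_of_mem hxU]; omega)
  -- lifting dependencies of `A ∪ B`
  have lift : ∀ ρ : Fin n → ℝ, (∀ i, i ∉ A ∪ B → ρ i = 0) → ∑ i, ρ i • p i = 0 →
      ∃ a b : Fin n → ℝ, (∀ i ∈ A, a i = ρ i) ∧ (∀ i ∈ B, a i = 0) ∧ (∀ i ∈ A, b i = 0) ∧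
        (∀ i ∈ K, a i = b i) ∧ (∀ i, i ∉ A → i ∉ B → i ∉ K → a i = 0 ∧ b i = 0) ∧
        ∑ i, a i • p i = 0 ∧ ∑ i, b i • p i = 0 := by
    intro ρ hρ hρs
    -- coordinates with respect to `K`
    have hspan : Submodule.span ℝ (p '' (K : Set (Fin n))) = ⊤ := by
      have h1 : LinearIndependent ℝ (fun i : K => p i) := pts_indep hp (T := K) hc.cK.le
      have := h1.span_eq_top_of_card_eq_finrank' (by simp [hc.cK])
      rw [Set.image_eq_range]
      exact this
    have hmem : (∑ i ∈ A, ρ i • p i) ∈ Submodule.span ℝ (p '' (K : Set (Fin n))) := by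
      rw [hspan]; trivial
    obtain ⟨c, hc'⟩ : ∃ c : Fin n → ℝ, ∑ i ∈ K, c i • p i = ∑ i ∈ A, ρ i • p i := by
      rw [Submodule.mem_span_image_finset_iff_exists_fun] at hmem
      obtain ⟨c, hc'⟩ := hmem
      refine ⟨fun i => if h : i ∈ K then c ⟨i, h⟩ else 0, ?_⟩
      rw [← hc', ← Finset.sum_coe_sort K]
      apply Finset.sum_congr rfl
      intro i _
      simp
    refine ⟨fun i => if i ∈ A then ρ i else if i ∈ K then - c i else 0,
      fun i => if i ∈ B then - ρ i else if i ∈ K then - c i else 0, ?_, ?_, ?_, ?_, ?_, ?_, ?_⟩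
    · intro i hi
      simp [hi]
    · intro i hi
      have h1 : i ∉ A := fun h => Finset.disjoint_left.1 hc.dAB h hi
      have h2 : i ∉ K := fun h => Finset.disjoint_left.1 hc.dBK hi h
      simp [h1, h2]
    · intro i hi
      have h1 : i ∉ B := fun h => Finset.disjoint_left.1 hc.dAB hi h
      have h2 : i ∉ K := fun h => Finset.disjoint_left.1 hc.dAK hi h
      simp [h1, h2]
    · intro i hi
      have h1 : i ∉ A := fun h => Finset.disjoint_left.1 hc.dAK h hi
      have h2 : i ∉ B := fun h => Finset.disjoint_left.1 hc.dBK h hi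
      simp [h1, h2]
    · intro i h1 h2 h3
      simp [h1, h2, h3]
    · have h1 : ∀ i, (if i ∈ A then ρ i else if i ∈ K then - c i else 0) • p i =
          (if i ∈ A then ρ i • p i else 0) - (if i ∈ K then c i • p i else 0) := by
        intro i
        by_cases h1 : i ∈ A
        · have h2 : i ∉ K := fun h => Finset.disjoint_left.1 hc.dAK h1 h
          simp [h1, h2]
        · by_cases h2 : i ∈ K
          · simp [h1, h2]
          · simp [h1, h2]
      simp only [h1, Finset.sum_sub_distrib, Finset.sum_ite_mem, Finset.univ_inter]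
      rw [hc', sub_self]
    · have h1 : ∀ i, (if i ∈ B then - ρ i else if i ∈ K then - c i else 0) • p i =
          -(if i ∈ B then ρ i • p i else 0) - (if i ∈ K then c i • p i else 0) := by
        intro i
        by_cases h1 : i ∈ B
        · have h2 : i ∉ K := fun h => Finset.disjoint_left.1 hc.dBK h1 h
          simp [h1, h2]
        · by_cases h2 : i ∈ K
          · simp [h1, h2]
          · simp [h1, h2]
      simp only [h1, Finset.sum_sub_distrib, Finset.sum_neg_distrib, Finset.sum_ite_mem,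
        Finset.univ_inter]
      rw [hc']
      have h2 : ∑ i, ρ i • p i = ∑ i ∈ A, ρ i • p i + ∑ i ∈ B, ρ i • p i := by
        rw [← Finset.sum_union hc.dAB]
        symm
        apply Finset.sum_subset (Finset.subset_univ _)
        intro i _ hi
        rw [hρ i hi, zero_smul]
      rw [hρs] at h2
      rw [← neg_add', add_comm, ← h2, neg_zero]
  obtain ⟨a1, b1, ha1, ha1B, hb1A, hK1, ho1, hsa1, hsb1⟩ := lift ρ
    (fun i hi => hρ i (fun h => hi (Finset.mem_of_mem_erase h))) hρs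
  obtain ⟨a2, b2, ha2, ha2B, hb2A, hK2, ho2, hsa2, hsb2⟩ := lift σ
    (fun i hi => hσ i (fun h => hi (Finset.mem_of_mem_erase h))) hσs
  have w1 := wedge_stress hsa1 hsa2
  have w2 := wedge_stress hsb1 hsb2
  refine ⟨fun i j => (a1 i * a2 j - a1 j * a2 i) - (b1 i * b2 j - b1 j * b2 i),
    ⟨fun i j => by ring, fun i => ?_⟩, ?_, x, hx, y, hy, hxy, ?_⟩
  · have h1 := w1.bal i
    have h2 := w2.bal i
    have h3 : ∑ j, ((a1 i * a2 j - a1 j * a2 i) - (b1 i * b2 j - b1 j * b2 i)) • p j =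
        ∑ j, (a1 i * a2 j - a1 j * a2 i) • p j - ∑ j, (b1 i * b2 j - b1 j * b2 i) • p j := by
      rw [← Finset.sum_sub_distrib]
      apply Finset.sum_congr rfl
      intro j _
      rw [sub_smul]
    rw [h3, h1, h2, sub_zero]
  · intro i j hij
    show (a1 i * a2 j - a1 j * a2 i) - (b1 i * b2 j - b1 j * b2 i) = 0
    rcases eq_or_ne i j with rfl | hne
    · ring
    rw [mem_FABK] at hij
    have hij' : ¬ (((i ∈ A ∨ i ∈ B) ∧ j ∈ K) ∨ ((j ∈ A ∨ j ∈ B) ∧ i ∈ K) ∨
      (i ∈ A ∧ j ∈ A) ∨ (i ∈ B ∧ j ∈ B)) := fun h => hij ⟨hne, h⟩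
    by_cases hiA : i ∈ A
    · by_cases hjB : j ∈ B
      · rw [ha1B j hjB, ha2B j hjB, hb1A i hiA, hb2A i hiA]; ring
      · have h1 : j ∉ A := fun h => hij' (Or.inr (Or.inr (Or.inl ⟨hiA, h⟩)))
        have h2 : j ∉ K := fun h => hij' (Or.inl ⟨Or.inl hiA, h⟩)
        obtain ⟨e1, e2⟩ := ho1 j h1 hjB h2
        obtain ⟨e3, e4⟩ := ho2 j h1 hjB h2
        rw [e1, e2, e3, e4]; ring
    · by_cases hiB : i ∈ B
      · by_cases hjA : j ∈ A
        · rw [ha1B i hiB, ha2B i hiB, hb1A j hjA, hb2A j hjA]; ring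
        · have h1 : j ∉ B := fun h => hij' (Or.inr (Or.inr (Or.inr ⟨hiB, h⟩)))
          have h2 : j ∉ K := fun h => hij' (Or.inl ⟨Or.inr hiB, h⟩)
          obtain ⟨e1, e2⟩ := ho1 j hjA h1 h2
          obtain ⟨e3, e4⟩ := ho2 j hjA h1 h2
          rw [e1, e2, e3, e4]; ring
      · by_cases hiK : i ∈ K
        · by_cases hjK : j ∈ K
          · rw [hK1 i hiK, hK2 i hiK, hK1 j hjK, hK2 j hjK]; ring
          · have h1 : j ∉ A := fun h => hij' (Or.inr (Or.inl ⟨Or.inl h, hiK⟩))
            have h2 : j ∉ B := fun h => hij' (Or.inr (Or.inl ⟨Or.inr h, hiK⟩))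
            obtain ⟨e1, e2⟩ := ho1 j h1 h2 hjK
            obtain ⟨e3, e4⟩ := ho2 j h1 h2 hjK
            rw [e1, e2, e3, e4]; ring
        · obtain ⟨e1, e2⟩ := ho1 i hiA hiB hiK
          obtain ⟨e3, e4⟩ := ho2 i hiA hiB hiK
          rw [e1, e2, e3, e4]; ring
  · show (a1 x * a2 y - a1 y * a2 x) - (b1 x * b2 y - b1 y * b2 x) ≠ 0
    rw [hb1A x hx, hb2A x hx, ha1 x hx, ha2 y hy, ha1 y hy, ha2 x hx,
      hρ y (by simp)]
    have h1 := hρ' x (Finset.mem_erase.2 ⟨hxy, hxU⟩)
    have h2 := hσ' y (Finset.mem_erase.2 ⟨hxy.symm, hyU⟩)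
    simp only [zero_mul, mul_zero, sub_zero]
    exact mul_ne_zero h1 h2

end stress

end Pool.Agent.helper49.Hyp
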