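import Pool.Agent.helper49.HypF

namespace Pool.Agent.helper49.Hyp

open Set

variable {n d : ℕ}

section stress

variable {p : Fin n → Fin d → ℝ} {A B K : Finset (Fin n)}

/-- every stress on `F` is a multiple of a given one -/
theorem F_mult (hp : Gen p) (hc : Conf d A B K) {W0 W : Fin n → Fin n → ℝ}
    (hW0 : IsStress p W0) (hs0 : Supp W0 (FABK A B K)) {x y : Fin n} (hx : x ∈ A) (hy : y ∈ A)
    (hxy : x ≠ y) (h0 : W0 x y ≠ 0) (hW : IsStress p W) (hs : Supp W (FABK A B K)) :
    ∀ i j, W i j = (W x y / W0 x y) * W0 i j := by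
  set c := W x y / W0 x y with hcdef
  have h1 : IsStress p (fun i j => W i j - c * W0 i j) := by
    refine ⟨fun i j => by rw [hW.anti i j, hW0.anti i j]; ring, fun i => ?_⟩
    simp only [sub_smul, Finset.sum_sub_distrib, mul_smul]
    rw [← Finset.smul_sum, hW.bal, hW0.bal]
    simp
  have h2 : Supp (fun i j => W i j - c * W0 i j) (FABK A B K) := by
    intro i j hij
    show W i j - c * W0 i j = 0
    rw [hs i j hij, hs0 i j hij]; ring
  have h3 := F_uniq hp hc h1 h2 hx hy hxy (by rw [hcdef]; field_simp; ring)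
  intro i j
  have := h3 i j
  linarith

/-- swapping two vertices of `K` preserves `F` -/
theorem swap_mem (hc : Conf d A B K) {u v : Fin n} (hu : u ∈ K) (hv : v ∈ K) :
    (∀ x, Equiv.swap u v x ∈ A ↔ x ∈ A) ∧ (∀ x, Equiv.swap u v x ∈ B ↔ x ∈ B) ∧
      (∀ x, Equiv.swap u v x ∈ K ↔ x ∈ K) ∧ (∀ x ∈ A, Equiv.swap u v x = x) := by
  classical
  have hA : ∀ w ∈ K, w ∉ A := fun w hw h => Finset.disjoint_left.1 hc.dAK h hw
  have hB : ∀ w ∈ K, w ∉ B := fun w hw h => Finset.disjoint_left.1 hc.dBK h hw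
  refine ⟨?_, ?_, ?_, ?_⟩
  · intro x
    rcases eq_or_ne x u with rfl | hxu
    · rw [Equiv.swap_apply_left]; simp [hA _ hu, hA _ hv]
    · rcases eq_or_ne x v with rfl | hxv
      · rw [Equiv.swap_apply_right]; simp [hA _ hu, hA _ hv]
      · rw [Equiv.swap_apply_of_ne_of_ne hxu hxv]
  · intro x
    rcases eq_or_ne x u with rfl | hxu
    · rw [Equiv.swap_apply_left]; simp [hB _ hu, hB _ hv]
    · rcases eq_or_ne x v with rfl | hxv
      · rw [Equiv.swap_apply_right]; simp [hB _ hu, hB _ hv]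
      · rw [Equiv.swap_apply_of_ne_of_ne hxu hxv]
  · intro x
    rcases eq_or_ne x u with rfl | hxu
    · rw [Equiv.swap_apply_left]; simp [hu, hv]
    · rcases eq_or_ne x v with rfl | hxv
      · rw [Equiv.swap_apply_right]; simp [hu, hv]
      · rw [Equiv.swap_apply_of_ne_of_ne hxu hxv]
  · intro x hx
    exact Equiv.swap_apply_of_ne_of_ne (fun h => hA u hu (h ▸ hx)) (fun h => hA v hv (h ▸ hx))

theorem swap_FABK (hc : Conf d A B K) {u v : Fin n} (hu : u ∈ K) (hv : v ∈ K) (x y : Fin n) :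
    s(Equiv.swap u v x, Equiv.swap u v y) ∈ FABK A B K ↔ s(x, y) ∈ FABK A B K := by
  obtain ⟨h1, h2, h3, -⟩ := swap_mem hc hu hv
  rw [mem_FABK, mem_FABK, h1, h2, h3, h1, h2, h3]
  simp only [ne_eq, EmbeddingLike.apply_eq_iff_eq]

theorem sym2_swap_eq (u v x y i j : Fin n) :
    s(Equiv.swap u v x, Equiv.swap u v y) = s(i, j) ↔
      s(x, y) = s(Equiv.swap u v i, Equiv.swap u v j) := by
  rw [Sym2.eq_iff, Sym2.eq_iff]
  have h : ∀ a b, Equiv.swap u v a = b ↔ a = Equiv.swap u v b := by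
    intro a b
    rw [← Equiv.eq_symm_apply, Equiv.symm_swap]
  rw [h, h, h, h]

/-- the nonzero stress of `F` has no zero on `A × K` -/
theorem nz_AK (hp : Gen p) (hc : Conf d A B K) {W0 : Fin n → Fin n → ℝ}
    (hW0 : IsStress p W0) (hs0 : Supp W0 (FABK A B K)) {x0 y0 : Fin n} (hx0 : x0 ∈ A)
    (hy0 : y0 ∈ A) (hxy0 : x0 ≠ y0) (h0 : W0 x0 y0 ≠ 0) {x k : Fin n} (hx : x ∈ A) (hk : k ∈ K) :
    W0 x k ≠ 0 := by
  classical
  intro hz
  have hxK : x ∉ K := Finset.disjoint_left.1 hc.dAK hx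
  have hall : ∀ k' ∈ K, W0 x k' = 0 := by
    intro k' hk'
    have hdep : ¬ LinearIndepOn ℝ (vec p) (FABK A B K \ {s(x, k)}) := by
      rw [not_indep_iff p ((sdiff_subset).trans (FABK_subset A B K))]
      refine ⟨W0, hW0, ?_, x0, y0, h0⟩
      intro a b hab
      by_cases h1 : s(a, b) ∈ FABK A B K
      · have h2 : s(a, b) = s(x, k) := by
          by_contra h3
          exact hab ⟨h1, h3⟩
        rw [Sym2.eq_iff] at h2
        rcases h2 with ⟨rfl, rfl⟩ | ⟨rfl, rfl⟩
        · exact hz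
        · rw [hW0.anti, hz]; simp
      · exact hs0 a b h1
    have hdep' : ¬ LinearIndepOn ℝ (vec p) (FABK A B K \ {s(x, k')}) := by
      intro h
      apply hdep
      have h1 := indep_inv hp (Equiv.swap k k') ((sdiff_subset).trans (FABK_subset A B K)) h
      convert h1 using 1
      ext e
      induction e with | _ a b =>
      rw [Set.mem_preimage, Sym2.map_mk, Set.mem_sdiff, Set.mem_sdiff, Set.mem_singleton_iff,
        Set.mem_singleton_iff, swap_FABK hc hk hk', sym2_swap_eq, Equiv.swap_apply_right,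
        (swap_mem hc hk hk').2.2.2 x hx]
    rw [not_indep_iff p ((sdiff_subset).trans (FABK_subset A B K))] at hdep'
    obtain ⟨W, hW, hsW, i1, j1, hne⟩ := hdep'
    have hsW' : Supp W (FABK A B K) := fun a b hab => hsW a b (fun h => hab h.1)
    have h1 := F_mult hp hc hW0 hs0 hx0 hy0 hxy0 h0 hW hsW'
    have h2 : W x k' = 0 := hsW x k' (fun h => h.2 rfl)
    rw [h1] at h2
    rcases mul_eq_zero.1 h2 with h3 | h3
    · exfalso
      apply hne
      rw [h1, h3, zero_mul]
    · exact h3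
  have hrow : ∀ j, W0 x j = 0 := by
    apply row_zero hp hW0 (T := A)
    · have := hc.cAB; have := hc.cB; omega
    · intro j hj
      by_cases hjB : j ∈ B
      · exact supp_AB hc hs0 hx hjB
      · by_cases hjK : j ∈ K
        · exact hall j hjK
        · rw [hW0.anti, supp_out hs0 hj hjB hjK]; simp
  obtain ⟨y, hy, hxy⟩ : ∃ y ∈ A, x ≠ y := by
    rcases eq_or_ne x x0 with rfl | h
    · exact ⟨y0, hy0, hxy0⟩
    · exact ⟨x0, hx0, h⟩
  exact h0 (F_uniq hp hc hW0 hs0 hx hy hxy (hrow y) x0 y0)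

/-- the nonzero stress of `F` vanishes nowhere on `F` -/
theorem nz_F (hp : Gen p) (hc : Conf d A B K) {W0 : Fin n → Fin n → ℝ}
    (hW0 : IsStress p W0) (hs0 : Supp W0 (FABK A B K)) {x0 y0 : Fin n} (hx0 : x0 ∈ A)
    (hy0 : y0 ∈ A) (hxy0 : x0 ≠ y0) (h0 : W0 x0 y0 ≠ 0) {i j : Fin n}
    (hij : s(i, j) ∈ FABK A B K) : W0 i j ≠ 0 := by
  classical
  have hAA : ∀ x ∈ A, ∀ y ∈ A, x ≠ y → W0 x y ≠ 0 := by
    intro x hx y hy hxy hz
    exact h0 (F_uniq hp hc hW0 hs0 hx hy hxy hz x0 y0)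
  have hs0' : Supp W0 (FABK B A K) := by rw [FABK_comm]; exact hs0
  have hBB : ∀ x ∈ B, ∀ y ∈ B, x ≠ y → W0 x y ≠ 0 := by
    intro x hx y hy hxy hz
    exact h0 (F_uniq hp hc.symm hW0 hs0' hx hy hxy hz x0 y0)
  have hAK : ∀ x ∈ A, ∀ k ∈ K, W0 x k ≠ 0 := by
    intro x hx k hk
    exact nz_AK hp hc hW0 hs0 hx0 hy0 hxy0 h0 hx hk
  obtain ⟨x1, hx1, y1, hy1, hxy1⟩ : ∃ x ∈ B, ∃ y ∈ B, x ≠ y := by
    have : 1 < B.card := by have := hc.cB; omega
    rw [Finset.one_lt_card] at this
    obtain ⟨a, ha, b, hb, hab⟩ := this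
    exact ⟨a, ha, b, hb, hab⟩
  have hBK : ∀ x ∈ B, ∀ k ∈ K, W0 x k ≠ 0 := by
    intro x hx k hk
    exact nz_AK hp hc.symm hW0 hs0' hx1 hy1 hxy1 (hBB x1 hx1 y1 hy1 hxy1) hx hk
  rw [mem_FABK] at hij
  obtain ⟨hne, ⟨h | h, h2⟩ | ⟨h | h, h2⟩ | ⟨h, h2⟩ | ⟨h, h2⟩⟩ := hij
  · exact hAK i h j h2
  · exact hBK i h j h2
  · rw [hW0.anti, neg_ne_zero]; exact hAK j h i h2
  · rw [hW0.anti, neg_ne_zero]; exact hBK j h i h2
  · exact hAA i h j h2 hne
  · exact hBB i h j h2 hne

theorem F_dep (hp : Gen p) (hc : Conf d A B K) : ¬ LinearIndepOn ℝ (vec p) (FABK A B K) := by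
  obtain ⟨W, hW, hs, x, -, y, -, -, h⟩ := F_exists hp hc
  rw [not_indep_iff p (FABK_subset A B K)]
  exact ⟨W, hW, hs, x, y, h⟩

theorem F_erase (hp : Gen p) (hc : Conf d A B K) {e : Sym2 (Fin n)} (he : e ∈ FABK A B K) :
    LinearIndepOn ℝ (vec p) (FABK A B K \ {e}) := by
  obtain ⟨W0, hW0, hs0, x, hx, y, hy, hxy, h0⟩ := F_exists hp hc
  rw [indep_iff p ((sdiff_subset).trans (FABK_subset A B K))]
  intro W hW hs
  have h1 := F_mult hp hc hW0 hs0 hx hy hxy h0 hW (fun a b hab => hs a b (fun h => hab h.1))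
  induction e with | _ i j =>
  have h2 : W i j = 0 := hs i j (fun h => h.2 rfl)
  rw [h1] at h2
  have h3 := (mul_eq_zero.1 h2).resolve_right (nz_F hp hc hW0 hs0 hx hy hxy h0 he)
  intro a b
  rw [h1, h3, zero_mul]

theorem F_circuit (hp : Gen p) (hc : Conf d A B K) : (hyper p).IsCircuit (FABK A B K) := by
  rw [Matroid.isCircuit_iff_dep_forall_sdiff_singleton_indep]
  refine ⟨⟨fun h => F_dep hp hc (hyper_indep.1 h).2, FABK_subset A B K⟩, ?_⟩
  intro e he
  exact hyper_indep.2 ⟨(sdiff_subset).trans (FABK_subset A B K), F_erase hp hc he⟩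

/-- sums over all vertices, split -/
theorem sum_split (hc : Conf d A B K) (g : Fin n → ℝ) (hg : ∀ v, v ∉ A → v ∉ B → v ∉ K → g v = 0) :
    ∑ v, g v = ∑ v ∈ A, g v + ∑ v ∈ B, g v + ∑ v ∈ K, g v := by
  classical
  rw [← Finset.sum_union hc.dAB, ← Finset.sum_union]
  · symm
    apply Finset.sum_subset (Finset.subset_univ _)
    intro v _ hv
    rw [Finset.mem_union, Finset.mem_union] at hv
    exact hg v (by tauto) (by tauto) (by tauto)
  · rw [Finset.disjoint_union_left]
    exact ⟨hc.dAK, hc.dBK⟩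

/-- case (1): an edge between `A` and `B` -/
theorem closed_AB (hp : Gen p) (hc : Conf d A B K) {a b : Fin n} (ha : a ∈ A) (hb : b ∈ B)
    {W : Fin n → Fin n → ℝ} (hW : IsStress p W) (hs : Supp W (insert s(a, b) (FABK A B K))) :
    W a b = 0 := by
  classical
  have cA := hc.cA
  have cB := hc.cB
  have cAB := hc.cAB
  have nAB : ∀ z, z ∈ A → z ∉ B := fun z h1 h2 => Finset.disjoint_left.1 hc.dAB h1 h2
  have nAK : ∀ z, z ∈ A → z ∉ K := fun z h1 h2 => Finset.disjoint_left.1 hc.dAK h1 h2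
  have nBK : ∀ z, z ∈ B → z ∉ K := fun z h1 h2 => Finset.disjoint_left.1 hc.dBK h1 h2
  -- support facts
  have sAB : ∀ x ∈ A, ∀ y ∈ B, (x ≠ a ∨ y ≠ b) → W x y = 0 := by
    intro x hx y hy hne
    apply hs
    rw [Set.mem_insert_iff, not_or]
    constructor
    · rw [Sym2.eq_iff]
      rintro (⟨rfl, rfl⟩ | ⟨rfl, rfl⟩)
      · tauto
      · exact nAB _ hx hb
    · rw [mem_FABK]
      have h1 := nAB x hx
      have h2 := nAK x hx
      have h3 := fun h => nAB y h hy
      have h4 := nBK y hy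
      tauto
  have sKK : ∀ x ∈ K, ∀ y ∈ K, W x y = 0 := by
    intro x hx y hy
    apply hs
    rw [Set.mem_insert_iff, not_or]
    constructor
    · rw [Sym2.eq_iff]
      rintro (⟨rfl, rfl⟩ | ⟨rfl, rfl⟩)
      · exact nAK _ ha hx
      · exact nAK _ ha hy
    · rw [mem_FABK]
      have h1 := fun h => nAK x h hx
      have h2 := fun h => nBK x h hx
      have h3 := fun h => nAK y h hy
      have h4 := fun h => nBK y h hy
      tauto
  have sO : ∀ x, x ∉ A → x ∉ B → x ∉ K → ∀ y, W x y = 0 := by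
    intro x h1 h2 h3 y
    apply hs
    rw [Set.mem_insert_iff, not_or]
    constructor
    · rw [Sym2.eq_iff]
      rintro (⟨rfl, rfl⟩ | ⟨rfl, rfl⟩)
      · exact h1 ha
      · exact h2 hb
    · rw [mem_FABK]
      tauto
  obtain ⟨f, hfb, hfA⟩ := exists_functional hp (T := A) (by omega) (b := b)
    (fun h => nAB b h hb)
  have hrow : ∀ u, ∑ v, W u v * f (p v) = 0 := by
    intro u
    have := congrArg f (hW.bal u)
    simpa [map_sum] using this
  set g : Fin n → ℝ := fun u => ∑ k ∈ K, W u k * f (p k) with hg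
  have hsplit : ∀ u, ∑ v ∈ B, W u v * f (p v) + g u = 0 := by
    intro u
    have h1 := hrow u
    rw [sum_split hc (fun v => W u v * f (p v)) (by
      intro v h1 h2 h3
      rw [hW.anti, sO v h1 h2 h3]; simp)] at h1
    have h2 : ∑ v ∈ A, W u v * f (p v) = 0 := by
      apply Finset.sum_eq_zero
      intro v hv
      rw [hfA v hv, mul_zero]
    rw [h2, zero_add] at h1
    exact h1
  have hgdep : ∑ u, g u • p u = 0 := by
    simp only [hg, Finset.sum_smul]
    rw [Finset.sum_comm]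
    apply Finset.sum_eq_zero
    intro k _
    have h1 : ∑ u, (W u k * f (p k)) • p u = -(f (p k) • ∑ u, W k u • p u) := by
      rw [Finset.smul_sum, ← Finset.sum_neg_distrib]
      apply Finset.sum_congr rfl
      intro u _
      rw [hW.anti u k, smul_smul, ← neg_smul]
      congr 1
      ring
    rw [h1, hW.bal k]
    simp
  have hg0 : ∀ u, g u = 0 := by
    apply dep_zero hp (T := insert a B) _ _ hgdep
    · rw [Finset.card_insert_of_notMem (nAB a ha)]; omega
    · intro u hu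
      rw [Finset.mem_insert, not_or] at hu
      by_cases h1 : u ∈ A
      · have h2 := hsplit u
        have h3 : ∑ v ∈ B, W u v * f (p v) = 0 := by
          apply Finset.sum_eq_zero
          intro v hv
          rw [sAB u h1 v hv (Or.inl hu.1), zero_mul]
        linarith
      · by_cases h2 : u ∈ K
        · apply Finset.sum_eq_zero
          intro k hk
          rw [sKK u h2 k hk, zero_mul]
        · apply Finset.sum_eq_zero
          intro k hk
          rw [sO u h1 hu.2 h2, zero_mul]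
  have h1 := hsplit a
  rw [hg0, add_zero] at h1
  have h2 : ∑ v ∈ B, W a v * f (p v) = W a b * f (p b) := by
    apply Finset.sum_eq_single_of_mem b hb
    intro v hv hvb
    rw [sAB a ha v hv (Or.inr hvb), zero_mul]
  rw [h2] at h1
  exact (mul_eq_zero.1 h1).resolve_right hfb

/-- a stress on `F + ll'` with `l, l' ∈ K` gives a relation between functionals killing `A`
and functionals killing `B` -/
theorem KK_relation (hc : Conf d A B K) {l l' : Fin n} (hl : l ∈ K) (hl' : l' ∈ K)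
    (hll : l ≠ l') {W : Fin n → Fin n → ℝ} (hW : IsStress p W)
    (hs : Supp W (insert s(l, l') (FABK A B K))) (hne : W l l' ≠ 0)
    (f g : (Fin d → ℝ) →ₗ[ℝ] ℝ) (hf : ∀ x ∈ A, f (p x) = 0) (hg : ∀ x ∈ B, g (p x) = 0) :
    f (p l) * g (p l') = f (p l') * g (p l) := by
  classical
  have nAB : ∀ z, z ∈ A → z ∉ B := fun z h1 h2 => Finset.disjoint_left.1 hc.dAB h1 h2
  have nAK : ∀ z, z ∈ A → z ∉ K := fun z h1 h2 => Finset.disjoint_left.1 hc.dAK h1 h2
  have nBK : ∀ z, z ∈ B → z ∉ K := fun z h1 h2 => Finset.disjoint_left.1 hc.dBK h1 h2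
  have sAB : ∀ x ∈ A, ∀ y ∈ B, W x y = 0 := by
    intro x hx y hy
    apply hs
    rw [Set.mem_insert_iff, not_or]
    constructor
    · rw [Sym2.eq_iff]
      rintro (⟨rfl, rfl⟩ | ⟨rfl, rfl⟩)
      · exact nAK _ hx hl
      · exact nAK _ hx hl'
    · rw [mem_FABK]
      have h1 := nAB x hx
      have h2 := nAK x hx
      have h3 := fun h => nAB y h hy
      have h4 := nBK y hy
      tauto
  have sKK : ∀ x ∈ K, ∀ y ∈ K, s(x, y) ≠ s(l, l') → W x y = 0 := by
    intro x hx y hy hxy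
    apply hs
    rw [Set.mem_insert_iff, not_or]
    constructor
    · exact hxy
    · rw [mem_FABK]
      have h1 := fun h => nAK x h hx
      have h2 := fun h => nBK x h hx
      have h3 := fun h => nAK y h hy
      have h4 := fun h => nBK y h hy
      tauto
  have sO : ∀ x, x ∉ A → x ∉ B → x ∉ K → ∀ y, W x y = 0 := by
    intro x h1 h2 h3 y
    apply hs
    rw [Set.mem_insert_iff, not_or]
    constructor
    · rw [Sym2.eq_iff]
      rintro (⟨rfl, rfl⟩ | ⟨rfl, rfl⟩)
      · exact h3 hl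
      · exact h3 hl'
    · rw [mem_FABK]
      tauto
  -- columns in `A`
  have hcol : ∀ a ∈ A, ∑ k ∈ K, f (p k) * W k a = 0 := by
    intro a ha
    have h1 : ∑ v, W a v * f (p v) = 0 := by
      have := congrArg f (hW.bal a)
      simpa [map_sum] using this
    rw [sum_split hc (fun v => W a v * f (p v)) (by
      intro v h1 h2 h3
      rw [hW.anti, sO v h1 h2 h3]; simp)] at h1
    have h2 : ∑ v ∈ A, W a v * f (p v) = 0 := by
      apply Finset.sum_eq_zero
      intro v hv
      rw [hf v hv, mul_zero]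
    have h3 : ∑ v ∈ B, W a v * f (p v) = 0 := by
      apply Finset.sum_eq_zero
      intro v hv
      rw [sAB a ha v hv, zero_mul]
    rw [h2, h3, zero_add, zero_add] at h1
    have h4 : ∑ k ∈ K, f (p k) * W k a = - ∑ k ∈ K, W a k * f (p k) := by
      rw [← Finset.sum_neg_distrib]
      apply Finset.sum_congr rfl
      intro k _
      rw [hW.anti k a]; ring
    rw [h4, h1, neg_zero]
  -- rows in `K`
  have hrowK : ∀ k ∈ K, ∑ v ∈ A, W k v * g (p v) + ∑ v ∈ K, W k v * g (p v) = 0 := by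
    intro k hk
    have h1 : ∑ v, W k v * g (p v) = 0 := by
      have := congrArg g (hW.bal k)
      simpa [map_sum] using this
    rw [sum_split hc (fun v => W k v * g (p v)) (by
      intro v h1 h2 h3
      rw [hW.anti, sO v h1 h2 h3]; simp)] at h1
    have h3 : ∑ v ∈ B, W k v * g (p v) = 0 := by
      apply Finset.sum_eq_zero
      intro v hv
      rw [hg v hv, mul_zero]
    rw [h3, add_zero] at h1
    exact h1
  have htot : ∑ k ∈ K, f (p k) * (∑ v ∈ A, W k v * g (p v) + ∑ v ∈ K, W k v * g (p v)) = 0 := by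
    apply Finset.sum_eq_zero
    intro k hk
    rw [hrowK k hk, mul_zero]
  simp only [mul_add, Finset.sum_add_distrib, Finset.mul_sum] at htot
  have hfirst : ∑ k ∈ K, ∑ v ∈ A, f (p k) * (W k v * g (p v)) = 0 := by
    rw [Finset.sum_comm]
    apply Finset.sum_eq_zero
    intro a ha
    have : ∑ k ∈ K, f (p k) * (W k a * g (p a)) = (∑ k ∈ K, f (p k) * W k a) * g (p a) := by
      rw [Finset.sum_mul]
      apply Finset.sum_congr rfl
      intro k _
      ring
    rw [this, hcol a ha, zero_mul]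
  rw [hfirst, zero_add] at htot
  -- the remaining double sum has two terms
  have hterm : ∀ k ∈ K, ∑ v ∈ K, f (p k) * (W k v * g (p v)) =
      if k = l then f (p l) * (W l l' * g (p l')) else
        if k = l' then f (p l') * (W l' l * g (p l)) else 0 := by
    intro k hk
    split_ifs with h1 h2
    · subst h1
      apply Finset.sum_eq_single_of_mem l' hl'
      intro v hv hvl
      rw [sKK k hk v hv]
      · ring
      · rw [ne_eq, Sym2.eq_iff]
        rintro (⟨-, h⟩ | ⟨h, -⟩)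
        · exact hvl h
        · exact hll h
    · subst h2
      apply Finset.sum_eq_single_of_mem l hl
      intro v hv hvl
      rw [sKK k hk v hv]
      · ring
      · rw [ne_eq, Sym2.eq_iff]
        rintro (⟨h, -⟩ | ⟨-, h⟩)
        · exact h1 h
        · exact hvl h
    · apply Finset.sum_eq_zero
      intro v hv
      rw [sKK k hk v hv]
      · ring
      · rw [ne_eq, Sym2.eq_iff]
        rintro (⟨h, -⟩ | ⟨h, -⟩)
        · exact h1 h
        · exact h2 h
  rw [Finset.sum_congr rfl hterm] at htot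
  have h5 : ∑ k ∈ K, (if k = l then f (p l) * (W l l' * g (p l')) else
        if k = l' then f (p l') * (W l' l * g (p l)) else 0) =
      f (p l) * (W l l' * g (p l')) + f (p l') * (W l' l * g (p l)) := by
    rw [← Finset.add_sum_erase K _ hl, if_pos rfl]
    congr 1
    rw [← Finset.add_sum_erase (K.erase l) _ (Finset.mem_erase.2 ⟨hll.symm, hl'⟩),
      if_neg hll.symm, if_pos rfl]
    rw [Finset.sum_eq_zero, add_zero]
    intro k hk
    rw [Finset.mem_erase, Finset.mem_erase] at hk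
    rw [if_neg hk.2.1, if_neg hk.1]
  rw [h5, hW.anti l' l] at htot
  have h6 : W l l' * (f (p l) * g (p l') - f (p l') * g (p l)) = 0 := by linarith
  have h7 := (mul_eq_zero.1 h6).resolve_left hne
  linarith

/-- case (2): an edge inside `K` -/
theorem closed_KK (hp : Gen p) (hc : Conf d A B K) {k k' : Fin n} (hk : k ∈ K) (hk' : k' ∈ K)
    (hkk : k ≠ k') {W : Fin n → Fin n → ℝ} (hW : IsStress p W)
    (hs : Supp W (insert s(k, k') (FABK A B K))) : W k k' = 0 := by
  classical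
  by_contra hne
  obtain ⟨W0, hW0, hs0, x0, hx0, y0, hy0, hxy0, h0⟩ := F_exists hp hc
  have cA := hc.cA
  have cB := hc.cB
  have cAB := hc.cAB
  have nAK : ∀ z, z ∈ A → z ∉ K := fun z h1 h2 => Finset.disjoint_left.1 hc.dAK h1 h2
  have hf0 : s(x0, y0) ∈ FABK A B K := by
    rw [mem_FABK]
    exact ⟨hxy0, Or.inr (Or.inr (Or.inl ⟨hx0, hy0⟩))⟩
  -- the dependence predicate
  have hsubE : ∀ l ∈ K, ∀ l' ∈ K, l ≠ l' →
      insert s(l, l') (FABK A B K \ {s(x0, y0)}) ⊆ En n := by
    intro l _ l' _ hll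
    rw [Set.insert_subset_iff]
    exact ⟨mem_En.2 hll, (sdiff_subset).trans (FABK_subset A B K)⟩
  have toN : ∀ l ∈ K, ∀ l' ∈ K, l ≠ l' → ∀ W, IsStress p W →
      Supp W (insert s(l, l') (FABK A B K)) → W l l' ≠ 0 →
      ¬ LinearIndepOn ℝ (vec p) (insert s(l, l') (FABK A B K \ {s(x0, y0)})) := by
    intro l hl l' hl' hll W hW hs hne
    rw [not_indep_iff p (hsubE l hl l' hl' hll)]
    set c := W x0 y0 / W0 x0 y0 with hcdef
    have hll0 : W0 l l' = 0 := supp_KK hc hs0 hl hl'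
    refine ⟨fun i j => W i j - c * W0 i j, ⟨fun i j => by rw [hW.anti i j, hW0.anti i j]; ring,
      fun i => ?_⟩, ?_, l, l', ?_⟩
    · simp only [sub_smul, Finset.sum_sub_distrib, mul_smul]
      rw [← Finset.smul_sum, hW.bal, hW0.bal]
      simp
    · intro i j hij
      show W i j - c * W0 i j = 0
      rw [Set.mem_insert_iff, not_or] at hij
      by_cases h1 : s(i, j) ∈ FABK A B K
      · have h2 : s(i, j) = s(x0, y0) := by
          by_contra h3
          exact hij.2 ⟨h1, h3⟩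
        have h4 : W x0 y0 - c * W0 x0 y0 = 0 := by rw [hcdef]; field_simp; ring
        rw [Sym2.eq_iff] at h2
        rcases h2 with ⟨rfl, rfl⟩ | ⟨rfl, rfl⟩
        · exact h4
        · rw [hW.anti, hW0.anti i j]; linarith
      · rw [hs0 i j h1, hs i j]
        · ring
        · rw [Set.mem_insert_iff, not_or]
          exact ⟨hij.1, h1⟩
    · show W l l' - c * W0 l l' ≠ 0
      rw [hll0, mul_zero, sub_zero]
      exact hne
  have ofN : ∀ l ∈ K, ∀ l' ∈ K, l ≠ l' →
      ¬ LinearIndepOn ℝ (vec p) (insert s(l, l') (FABK A B K \ {s(x0, y0)})) →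
      ∃ W, IsStress p W ∧ Supp W (insert s(l, l') (FABK A B K)) ∧ W l l' ≠ 0 := by
    intro l hl l' hl' hll hN
    rw [not_indep_iff p (hsubE l hl l' hl' hll)] at hN
    obtain ⟨W, hW, hs, i, j, hij⟩ := hN
    refine ⟨W, hW, ?_, ?_⟩
    · intro a b hab
      apply hs
      intro h
      apply hab
      rw [Set.mem_insert_iff] at h ⊢
      rcases h with h | h
      · exact Or.inl h
      · exact Or.inr h.1
    · intro hz
      apply hij
      have h1 := F_erase hp hc hf0
      rw [indep_iff p ((sdiff_subset).trans (FABK_subset A B K))] at h1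
      apply h1 W hW
      intro a b hab
      by_cases h2 : s(a, b) = s(l, l')
      · rw [Sym2.eq_iff] at h2
        rcases h2 with ⟨rfl, rfl⟩ | ⟨rfl, rfl⟩
        · exact hz
        · rw [hW.anti, hz]; simp
      · apply hs
        rw [Set.mem_insert_iff, not_or]
        exact ⟨h2, hab⟩
  have inv : ∀ u ∈ K, ∀ v ∈ K, ∀ l ∈ K, ∀ l' ∈ K, l ≠ l' →
      ¬ LinearIndepOn ℝ (vec p) (insert s(l, l') (FABK A B K \ {s(x0, y0)})) →
      ¬ LinearIndepOn ℝ (vec p) (insert s(Equiv.swap u v l, Equiv.swap u v l')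
        (FABK A B K \ {s(x0, y0)})) := by
    intro u hu v hv l hl l' hl' hll hN hI
    apply hN
    have hm := swap_mem hc hu hv
    have h1 := indep_inv hp (Equiv.swap u v) (hsubE _ ((hm.2.2.1 l).2 hl) _ ((hm.2.2.1 l').2 hl')
      (fun h => hll ((Equiv.swap u v).injective h))) hI
    convert h1 using 1
    ext e
    induction e with | _ a b =>
    rw [Set.mem_preimage, Sym2.map_mk, Set.mem_insert_iff, Set.mem_insert_iff, Set.mem_sdiff,
      Set.mem_sdiff, Set.mem_singleton_iff, Set.mem_singleton_iff, swap_FABK hc hu hv,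
      sym2_swap_eq, sym2_swap_eq, Equiv.swap_apply_self, Equiv.swap_apply_self,
      hm.2.2.2 x0 hx0, hm.2.2.2 y0 hy0]
  have N0 := toN k hk k' hk' hkk W hW hs hne
  have N1 : ∀ l ∈ K, l ≠ k' →
      ¬ LinearIndepOn ℝ (vec p) (insert s(l, k') (FABK A B K \ {s(x0, y0)})) := by
    intro l hl hlk
    have h := inv k hk l hl k hk k' hk' hkk N0
    rwa [Equiv.swap_apply_left, Equiv.swap_apply_of_ne_of_ne hkk.symm hlk.symm] at h
  have N2 : ∀ l ∈ K, ∀ l' ∈ K, l ≠ l' →
      ¬ LinearIndepOn ℝ (vec p) (insert s(l, l') (FABK A B K \ {s(x0, y0)})) := by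
    intro l hl l' hl' hll
    rcases eq_or_ne l' k' with rfl | hl'k
    · exact N1 l hl hll
    rcases eq_or_ne l k' with rfl | hlk
    · have := N1 l' hl' hl'k
      rwa [Sym2.eq_swap] at this
    · have h := inv k' hk' l' hl' l hl k' hk' hlk (N1 l hl hlk)
      rwa [Equiv.swap_apply_left, Equiv.swap_apply_of_ne_of_ne hlk hll] at h
  -- functionals
  obtain ⟨xB, hxB⟩ : ∃ x, x ∈ B := by
    have : B.Nonempty := by rw [← Finset.card_pos]; omega
    exact this
  obtain ⟨f, hfx, hfA⟩ := exists_functional hp (T := A) (by omega) (b := xB)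
    (fun h => Finset.disjoint_left.1 hc.dAB h hxB)
  obtain ⟨g, hgx, hgB⟩ := exists_functional hp (T := B) (by omega) (b := x0)
    (fun h => Finset.disjoint_left.1 hc.dAB hx0 h)
  have rel : ∀ l ∈ K, ∀ l' ∈ K, f (p l) * g (p l') = f (p l') * g (p l) := by
    intro l hl l' hl'
    rcases eq_or_ne l l' with rfl | hll
    · rfl
    obtain ⟨W, hW, hs, hne⟩ := ofN l hl l' hl' hll (N2 l hl l' hl' hll)
    exact KK_relation hc hl hl' hll hW hs hne f g hfA hgB
  have hf00 : f ≠ 0 := by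
    rintro rfl
    exact hfx rfl
  obtain ⟨l, hl, hfl⟩ : ∃ l ∈ K, f (p l) ≠ 0 := by
    by_contra hcon
    push Not at hcon
    exact hf00 (functional_zero hp hc.cK f hcon)
  have hz : f (p l) • g - g (p l) • f = 0 := by
    apply functional_zero hp hc.cK
    intro l' hl'
    have := rel l hl l' hl'
    simp only [LinearMap.sub_apply, LinearMap.smul_apply, smul_eq_mul]
    linarith
  have h1 := congrArg (fun h : (Fin d → ℝ) →ₗ[ℝ] ℝ => h (p x0)) hz
  simp only [LinearMap.sub_apply, LinearMap.smul_apply, smul_eq_mul, LinearMap.zero_apply,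
    hfA x0 hx0, mul_zero, sub_zero] at h1
  exact hgx ((mul_eq_zero.1 h1).resolve_left hfl)

/-- `F` is closed -/
theorem F_closed (hp : Gen p) (hc : Conf d A B K) {e : Sym2 (Fin n)} (he : e ∈ En n)
    (heF : e ∉ FABK A B K) {W : Fin n → Fin n → ℝ} (hW : IsStress p W)
    (hs : Supp W (insert e (FABK A B K))) : Supp W (FABK A B K) := by
  classical
  have cA := hc.cA
  have cB := hc.cB
  have cAB := hc.cAB
  induction e with | _ i j =>
  have hij : i ≠ j := mem_En.1 he
  -- it suffices that `W i j = 0`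
  suffices h : W i j = 0 by
    intro a b hab
    by_cases h2 : s(a, b) = s(i, j)
    · rw [Sym2.eq_iff] at h2
      rcases h2 with ⟨rfl, rfl⟩ | ⟨rfl, rfl⟩
      · exact h
      · rw [hW.anti, h]; simp
    · apply hs
      rw [Set.mem_insert_iff, not_or]
      exact ⟨h2, hab⟩
  have out : ∀ i j : Fin n, i ≠ j → i ∉ A → i ∉ B → i ∉ K →
      Supp W (insert s(i, j) (FABK A B K)) → W i j = 0 := by
    intro i j hij h1 h2 h3 hs
    apply row_zero hp hW (T := {j})
    · rw [Finset.card_singleton]; omega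
    · intro v hv
      rw [Finset.mem_singleton] at hv
      apply hs
      rw [Set.mem_insert_iff, not_or]
      constructor
      · rw [Sym2.eq_iff]
        rintro (⟨-, h⟩ | ⟨h, -⟩)
        · exact hv h
        · exact hij h
      · rw [mem_FABK]
        tauto
  have hs' : Supp W (insert s(j, i) (FABK A B K)) := by rwa [Sym2.eq_swap]
  by_cases hiO : i ∉ A ∧ i ∉ B ∧ i ∉ K
  · exact out i j hij hiO.1 hiO.2.1 hiO.2.2 hs
  by_cases hjO : j ∉ A ∧ j ∉ B ∧ j ∉ K
  · rw [hW.anti, out j i hij.symm hjO.1 hjO.2.1 hjO.2.2 hs', neg_zero]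
  have hF : ¬ (((i ∈ A ∨ i ∈ B) ∧ j ∈ K) ∨ ((j ∈ A ∨ j ∈ B) ∧ i ∈ K) ∨
      (i ∈ A ∧ j ∈ A) ∨ (i ∈ B ∧ j ∈ B)) := by
    intro h
    exact heF (mem_FABK.2 ⟨hij, h⟩)
  have cases' : (i ∈ A ∧ j ∈ B) ∨ (j ∈ A ∧ i ∈ B) ∨ (i ∈ K ∧ j ∈ K) := by tauto
  rcases cases' with h | h | h
  · exact closed_AB hp hc h.1 h.2 hW hs
  · rw [hW.anti, closed_AB hp hc h.1 h.2 hW hs', neg_zero]
  · exact closed_KK hp hc h.1 h.2 hij hW hs

theorem F_closed' (hp : Gen p) (hc : Conf d A B K) {I : Set (Sym2 (Fin n))}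
    (hI : I ⊆ FABK A B K) (hind : (hyper p).Indep I) {e : Sym2 (Fin n)} (he : e ∈ En n)
    (heF : e ∉ FABK A B K) : (hyper p).Indep (insert e I) := by
  rw [hyper_indep] at hind ⊢
  have hsub : insert e I ⊆ En n := Set.insert_subset he hind.1
  refine ⟨hsub, ?_⟩
  rw [indep_iff p hsub]
  intro W hW hs
  have h1 := F_closed hp hc he heF hW (fun a b hab => hs a b (fun h => hab
    (Set.insert_subset_insert hI h)))
  have h2 := hind.2
  rw [indep_iff p hind.1] at h2
  apply h2 W hW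
  intro a b hab
  by_cases h3 : s(a, b) = e
  · apply h1
    rw [h3]; exact heF
  · apply hs
    rw [Set.mem_insert_iff, not_or]
    exact ⟨h3, hab⟩

end stress

end Pool.Agent.helper49.Hyp
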