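import Pool.Agent.helper49.HypG

namespace Pool.Agent.helper49.Hyp

open Set

section general

variable {α : Type*} [Finite α]

/-- truncate to the size of a closed circuit `F` and make `F` independent -/
theorem relax (M : Matroid α) {F : Set α} (hF : M.IsCircuit F)
    (hcl : ∀ I ⊆ F, M.Indep I → ∀ e ∈ M.E, e ∉ F → M.Indep (insert e I)) :
    ∃ M' : Matroid α, M'.E = M.E ∧
      ∀ I, M'.Indep I ↔ (M.Indep I ∧ I.ncard ≤ F.ncard) ∨ I = F := by
  classical
  refine ⟨(IndepMatroid.ofFinite (E := M.E) (toFinite _)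
    (fun I => (M.Indep I ∧ I.ncard ≤ F.ncard) ∨ I = F) ?_ ?_ ?_ ?_).matroid, rfl, ?_⟩
  · left
    exact ⟨M.empty_indep, by simp⟩
  · rintro I J (⟨hJ, hJc⟩ | rfl) hIJ
    · left
      exact ⟨hJ.subset hIJ, (Set.ncard_le_ncard hIJ (toFinite _)).trans hJc⟩
    · by_cases h : I = J
      · right; exact h
      · left
        exact ⟨hF.ssubset_indep (hIJ.ssubset_of_ne h), Set.ncard_le_ncard hIJ (toFinite _)⟩
  · intro I J hI hJ hlt
    have hJc : J.ncard ≤ F.ncard := by
      rcases hJ with h | h
      · exact h.2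
      · rw [h]
    have hIm : M.Indep I ∧ I.ncard ≤ F.ncard := by
      rcases hI with h | h
      · exact h
      · rw [h] at hlt; omega
    obtain ⟨hIi, hIc⟩ := hIm
    -- augmentation from an `M`-independent set
    have aug : ∀ J', M.Indep J' → I.ncard < J'.ncard → ∃ e ∈ J', e ∉ I ∧ M.Indep (insert e I) := by
      intro J' hJ' hlt'
      have h1 : I.encard < J'.encard := by
        rw [← Set.Finite.cast_ncard_eq (toFinite I), ← Set.Finite.cast_ncard_eq (toFinite J')]
        exact_mod_cast hlt'
      obtain ⟨e, he, hi⟩ := hIi.augment hJ' h1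
      exact ⟨e, he.1, he.2, hi⟩
    have hins : ∀ e, e ∉ I → (insert e I).ncard ≤ F.ncard := by
      intro e he
      rw [Set.ncard_insert_of_notMem he (toFinite _)]
      omega
    rcases hJ with hJ | rfl
    · obtain ⟨e, he, heI, hi⟩ := aug J hJ.1 hlt
      exact ⟨e, he, heI, Or.inl ⟨hi, hins e heI⟩⟩
    · by_cases hIF : I ⊆ J
      · obtain ⟨e, he, heI⟩ : ∃ e ∈ J, e ∉ I := by
          by_contra hcon
          push Not at hcon
          have : J ⊆ I := hcon
          have := Set.ncard_le_ncard this (toFinite _)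
          omega
        refine ⟨e, he, heI, ?_⟩
        have hsub : insert e I ⊆ J := Set.insert_subset he hIF
        by_cases h : insert e I = J
        · right; exact h
        · left
          exact ⟨hF.ssubset_indep (hsub.ssubset_of_ne h), hins e heI⟩
      · obtain ⟨g, hgI, hgJ⟩ : ∃ g ∈ I, g ∉ J := by
          by_contra hcon
          push Not at hcon
          exact hIF hcon
        obtain ⟨x, hx⟩ := hF.nonempty
        have h1 : M.Indep (insert g (J \ {x})) :=
          hcl _ sdiff_subset (hF.sdiff_singleton_indep hx) g (hIi.subset_ground hgI) hgJ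
        have h2 : (insert g (J \ {x})).ncard = J.ncard := by
          rw [Set.ncard_insert_of_notMem (fun h => hgJ h.1) (toFinite _),
            Set.ncard_sdiff_singleton_add_one hx (toFinite _)]
        obtain ⟨e, he, heI, hi⟩ := aug _ h1 (by rw [h2]; exact hlt)
        have heg : e ≠ g := fun h => heI (h ▸ hgI)
        have heJ : e ∈ J := by
          rcases he with h | h
          · exact absurd h heg
          · exact h.1
        exact ⟨e, heJ, heI, Or.inl ⟨hi, hins e heI⟩⟩
  · rintro I (h | rfl)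
    · exact h.1.subset_ground
    · exact hF.subset_ground
  · intro I
    rfl

end general

section

variable {n : ℕ}

/-- in a finite poset every element lies below a maximal one -/
theorem exists_maximal (𝒳 : Set (Set (Sym2 (Fin n)))) (M' : Matroid (Sym2 (Fin n)))
    (h : IsXMatroid 𝒳 M') : ∃ M, IsMaximalXMatroid 𝒳 M ∧ ∀ I, M'.Indep I → M.Indep I := by
  classical
  set g : Matroid (Sym2 (Fin n)) → ℕ := fun N => {I | N.Indep I}.ncard with hg
  set P : ℕ → Prop := fun m => ∃ N, IsXMatroid 𝒳 N ∧ (∀ I, M'.Indep I → N.Indep I) ∧ g N = m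
    with hP
  have hbdd : ∀ m, P m → m ≤ Nat.card (Set (Sym2 (Fin n))) := by
    rintro m ⟨N, -, -, rfl⟩
    exact Set.ncard_le_card _
  have hP0 : P (g M') := ⟨M', h, fun I hI => hI, rfl⟩
  have hmax := Nat.findGreatest_spec (hbdd _ hP0) hP0
  obtain ⟨N, hN, hle, hgN⟩ := hmax
  refine ⟨N, ⟨hN, ?_⟩, hle⟩
  intro N' hN' hle'
  have h1 : g N' ≤ g N := by
    rw [hgN]
    exact Nat.le_findGreatest (hbdd _ ⟨N', hN', fun I hI => hle' I (hle I hI), rfl⟩)
      ⟨N', hN', fun I hI => hle' I (hle I hI), rfl⟩
  have h2 : {I | N.Indep I} = {I | N'.Indep I} :=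
    Set.eq_of_subset_of_ncard_le (fun I hI => hle' I hI) h1 (toFinite _)
  apply Matroid.ext_indep
  · rw [hN'.1, hN.1]
  · intro I _
    have := Set.ext_iff.1 h2 I
    exact this.symm

/-- rank bound for unions along a proper sequence -/
theorem proper_rank {𝒳 : Set (Set (Sym2 (Fin n)))} {M : Matroid (Sym2 (Fin n))}
    (hM : IsXMatroid 𝒳 M) {k : ℕ} {S : Fin k → Set (Sym2 (Fin n))} (hS : IsProper 𝒳 S) :
    M.eRk (⋃ i, S i) + k ≤ (⋃ i, S i).encard := by
  classical
  have key : ∀ j : ℕ, j ≤ k →
      M.eRk (⋃ i : {i : Fin k // (i : ℕ) < j}, S i) + j ≤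
        (⋃ i : {i : Fin k // (i : ℕ) < j}, S i).encard := by
    intro j
    induction j with
    | zero =>
      intro _
      have : (⋃ i : {i : Fin k // (i : ℕ) < 0}, S i) = ∅ := by
        apply Set.iUnion_eq_empty.2
        rintro ⟨i, hi⟩
        exact absurd hi (Nat.not_lt_zero _)
      rw [this]
      simp
    | succ j ih =>
      intro hj
      have ih' := ih (by omega)
      set U := ⋃ i : {i : Fin k // (i : ℕ) < j}, S i with hU
      set X := S ⟨j, by omega⟩ with hX
      have hUX : (⋃ i : {i : Fin k // (i : ℕ) < j + 1}, S i) = U ∪ X := by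
        ext e
        simp only [Set.mem_iUnion, Set.mem_union, hU, hX]
        constructor
        · rintro ⟨⟨i, hi⟩, he⟩
          by_cases h : (i : ℕ) < j
          · exact Or.inl ⟨⟨i, h⟩, he⟩
          · right
            have : i = ⟨j, by omega⟩ := Fin.ext (by simp only; omega)
            rw [← this]; exact he
        · rintro (⟨⟨i, hi⟩, he⟩ | he)
          · exact ⟨⟨i, by omega⟩, he⟩
          · exact ⟨⟨⟨j, by omega⟩, by simp⟩, he⟩
      have hXc : M.IsCircuit X := hM.2 X (hS.1 _)
      obtain ⟨e, heX, heU⟩ : ∃ e ∈ X, e ∉ U := by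
        by_contra hcon
        push Not at hcon
        rcases Nat.eq_zero_or_pos j with h0 | h0
        · obtain ⟨e, he⟩ := hXc.nonempty
          have h1 := hcon e he
          rw [hU, Set.mem_iUnion] at h1
          obtain ⟨⟨i, hi⟩, -⟩ := h1
          omega
        · apply hS.2 ⟨j, by omega⟩ h0
          intro e he
          have h1 := hcon e he
          rw [hU, Set.mem_iUnion] at h1
          obtain ⟨⟨i, hi⟩, h2⟩ := h1
          rw [Set.mem_iUnion]
          exact ⟨⟨i, hi⟩, h2⟩
      rw [hUX]
      -- `U ∪ X = insert e (U ∪ (X \ {e}))`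
      have h1 : M.eRk (U ∪ X) = M.eRk (U ∪ (X \ {e})) := by
        have h2 : X ⊆ M.closure (U ∪ (X \ {e})) :=
          (hXc.subset_closure_sdiff_singleton e).trans
            (M.closure_subset_closure subset_union_right)
        apply le_antisymm
        · have hUE : U ⊆ M.E := by
            rw [hU]
            exact Set.iUnion_subset (fun i => (hM.2 _ (hS.1 _)).subset_ground)
          have h3 : U ∪ X ⊆ M.closure (U ∪ (X \ {e})) :=
            Set.union_subset ((M.subset_closure_of_subset' subset_union_left hUE)) h2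
          calc M.eRk (U ∪ X) ≤ M.eRk (M.closure (U ∪ (X \ {e}))) := M.eRk_mono h3
            _ = M.eRk (U ∪ (X \ {e})) := M.eRk_closure_eq _
        · exact M.eRk_mono (Set.union_subset_union_right _ sdiff_subset)
      have h4 : M.eRk (U ∪ (X \ {e})) ≤ M.eRk U + ((X \ U) \ {e}).encard := by
        have h5 : U ∪ (X \ {e}) = U ∪ ((X \ U) \ {e}) := by
          ext a
          simp only [Set.mem_union, Set.mem_sdiff, Set.mem_singleton_iff]
          tauto
        rw [h5]
        exact M.eRk_union_le_eRk_add_encard _ _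
      have h6 : ((X \ U) \ {e}).encard + 1 = (X \ U).encard :=
        Set.encard_sdiff_singleton_add_one ⟨heX, heU⟩
      have h7 : (U ∪ X).encard = U.encard + (X \ U).encard := by
        rw [← Set.encard_union_eq Set.disjoint_sdiff_right, Set.union_sdiff_self]
      rw [h1, h7, ← h6]
      push_cast
      calc M.eRk (U ∪ (X \ {e})) + ((j : ℕ∞) + 1)
          ≤ (M.eRk U + ((X \ U) \ {e}).encard) + ((j : ℕ∞) + 1) := by gcongr
        _ = (M.eRk U + j) + (((X \ U) \ {e}).encard + 1) := by ring
        _ ≤ U.encard + (((X \ U) \ {e}).encard + 1) := by gcongr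
  have h := key k le_rfl
  have hU : (⋃ i : {i : Fin k // (i : ℕ) < k}, S i) = ⋃ i, S i := by
    ext e
    simp only [Set.mem_iUnion]
    constructor
    · rintro ⟨i, he⟩
      exact ⟨i, he⟩
    · rintro ⟨i, he⟩
      exact ⟨⟨i, i.2⟩, he⟩
  rwa [hU] at h

/-- the value of a closed circuit outside the family -/
theorem val_ge {𝒳 : Set (Set (Sym2 (Fin n)))} {M : Matroid (Sym2 (Fin n))}
    (hM : IsXMatroid 𝒳 M) {F : Set (Sym2 (Fin n))} (hF : M.IsCircuit F) (hFX : F ∉ 𝒳)
    (hcl : ∀ I ⊆ F, M.Indep I → ∀ e ∈ M.E, e ∉ F → M.Indep (insert e I)) :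
    (F.ncard : ℤ) ≤ val 𝒳 F := by
  classical
  unfold val
  apply le_csInf
  · refine ⟨((F ∪ ⋃ i : Fin 0, (fun _ => (∅ : Set (Sym2 (Fin n)))) i).ncard : ℤ) - (0 : ℕ), 0,
      fun _ => ∅, ⟨fun i => i.elim0, fun i => i.elim0⟩, rfl⟩
  · rintro v ⟨k, S, hS, rfl⟩
    rcases Nat.eq_zero_or_pos k with rfl | hk
    · simp
    set U := ⋃ i, S i with hU
    have hUE : U ⊆ M.E := Set.iUnion_subset (fun i => (hM.2 _ (hS.1 _)).subset_ground)
    have h1 := proper_rank hM hS
    rw [← hU] at h1
    -- an element of `U` outside `F`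
    obtain ⟨g, hgU, hgF⟩ : ∃ g ∈ U, g ∉ F := by
      by_contra hcon
      push Not at hcon
      have h2 : S ⟨0, hk⟩ ⊆ F := fun e he => hcon e (Set.mem_iUnion.2 ⟨_, he⟩)
      have h3 := (hM.2 _ (hS.1 ⟨0, hk⟩)).eq_of_subset_isCircuit hF h2
      apply hFX
      rw [← h3]
      exact hS.1 _
    obtain ⟨x, hx⟩ := hF.nonempty
    have h4 : M.Indep (insert g (F \ {x})) :=
      hcl _ sdiff_subset (hF.sdiff_singleton_indep hx) g (hUE hgU) hgF
    have h5 : (insert g (F \ {x})).encard = F.encard := by
      rw [Set.encard_insert_of_notMem (fun h => hgF h.1),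
        Set.encard_sdiff_singleton_add_one hx]
    have h6 : F.encard ≤ M.eRk (F ∪ U) := by
      rw [← h5]
      apply h4.encard_le_eRk_of_subset
      exact Set.insert_subset (Set.mem_union_right _ hgU) (sdiff_subset.trans subset_union_left)
    have h7 : F.encard + k ≤ (F ∪ U).encard := by
      calc F.encard + k ≤ M.eRk (F ∪ U) + k := by gcongr
        _ = M.eRk (U ∪ (F \ U)) + k := by rw [Set.union_sdiff_self, Set.union_comm]
        _ ≤ (M.eRk U + (F \ U).encard) + k := by
            gcongr
            exact M.eRk_union_le_eRk_add_encard _ _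
        _ = (M.eRk U + k) + (F \ U).encard := by ring
        _ ≤ U.encard + (F \ U).encard := by gcongr
        _ = (U ∪ (F \ U)).encard := (Set.encard_union_eq Set.disjoint_sdiff_right).symm
        _ = (F ∪ U).encard := by rw [Set.union_sdiff_self, Set.union_comm]
    rw [← Set.Finite.cast_ncard_eq (toFinite F),
      ← Set.Finite.cast_ncard_eq (toFinite (F ∪ U))] at h7
    have h8 : F.ncard + k ≤ (F ∪ U).ncard := by exact_mod_cast h7
    have : (F.ncard : ℤ) + k ≤ ((F ∪ U).ncard : ℤ) := by exact_mod_cast h8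
    linarith

end

end Pool.Agent.helper49.Hyp
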