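import Pool.Agent.helper49.HypDefs

namespace Pool.Agent.helper49.Hyp

open Set MvPolynomial

variable {n d : ℕ}

/-- equilibrium stresses: antisymmetric `W` with `W P = 0` -/
structure IsStress (p : Fin n → Fin d → ℝ) (W : Fin n → Fin n → ℝ) : Prop where
  anti : ∀ i j, W i j = - W j i
  bal : ∀ i, ∑ j, W i j • p j = 0

/-- `W` vanishes off `I` -/
def Supp (W : Fin n → Fin n → ℝ) (I : Set (Sym2 (Fin n))) : Prop :=
  ∀ i j, s(i, j) ∉ I → W i j = 0

theorem IsStress.diag {p : Fin n → Fin d → ℝ} {W} (h : IsStress p W) (i : Fin n) : W i i = 0 := by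
  have := h.anti i i
  linarith

/-- the antisymmetric function of a function on edges -/
def toW (c : Sym2 (Fin n) → ℝ) (i j : Fin n) : ℝ :=
  if i < j then c s(i, j) else if j < i then - c s(i, j) else 0

theorem toW_anti (c : Sym2 (Fin n) → ℝ) (i j : Fin n) : toW c i j = - toW c j i := by
  unfold toW
  rcases lt_trichotomy i j with h | h | h
  · simp [h, h.not_gt, Sym2.eq_swap]
  · subst h; simp
  · simp [h, h.not_gt, Sym2.eq_swap]

theorem mem_En {i j : Fin n} : s(i, j) ∈ En n ↔ i ≠ j := by
  simp [En]

theorem sum_vec (p : Fin n → Fin d → ℝ) (c : Sym2 (Fin n) → ℝ) (i : Fin n) :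
    (∑ e ∈ (En n).toFinset, c e • vec p e) i = ∑ j, toW c i j • p j := by
  classical
  rw [Finset.sum_apply]
  have h1 : ∑ e ∈ (En n).toFinset, (c e • vec p e) i
      = ∑ e ∈ (Finset.univ.erase i).image (fun j => s(i, j)), (c e • vec p e) i := by
    symm
    apply Finset.sum_subset
    · intro e he
      rw [Finset.mem_image] at he
      obtain ⟨j, hj, rfl⟩ := he
      rw [Set.mem_toFinset, mem_En]
      exact (Finset.ne_of_mem_erase hj).symm
    · intro e he hne
      induction e with | _ a b =>
      rw [Set.mem_toFinset, mem_En] at he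
      have ha : i ≠ a := by
        rintro rfl
        exact hne (Finset.mem_image.2 ⟨b, Finset.mem_erase.2 ⟨he.symm, Finset.mem_univ _⟩, rfl⟩)
      have hb : i ≠ b := by
        rintro rfl
        exact hne (Finset.mem_image.2 ⟨a, Finset.mem_erase.2 ⟨he, Finset.mem_univ _⟩,
          Sym2.eq_swap⟩)
      have : vec p s(a, b) i = 0 := by
        unfold vec
        have h1 : i ≠ (s(a, b) : Sym2 (Fin n)).inf := by
          simp only [Sym2.inf_mk]
          rcases le_total a b with h | h
          · rw [inf_eq_left.2 h]; exact ha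
          · rw [inf_eq_right.2 h]; exact hb
        have h2 : i ≠ (s(a, b) : Sym2 (Fin n)).sup := by
          simp only [Sym2.sup_mk]
          rcases le_total a b with h | h
          · rw [sup_eq_right.2 h]; exact hb
          · rw [sup_eq_left.2 h]; exact ha
        rw [if_neg h1, if_neg h2]
      simp [this]
  rw [h1, Finset.sum_image]
  · rw [← Finset.sum_erase_add Finset.univ (fun j => toW c i j • p j) (Finset.mem_univ i)]
    have : toW c i i = 0 := by simp [toW]
    rw [this, zero_smul, add_zero]
    apply Finset.sum_congr rfl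
    intro j hj
    have hji := Finset.ne_of_mem_erase hj
    rw [Pi.smul_apply]
    unfold vec toW
    rcases lt_or_gt_of_ne hji with h | h
    · have e1 : (s(i, j) : Sym2 (Fin n)).inf = j := by
        rw [Sym2.inf_mk, inf_eq_right.2 h.le]
      have e2 : (s(i, j) : Sym2 (Fin n)).sup = i := by
        rw [Sym2.sup_mk, sup_eq_left.2 h.le]
      rw [e1, e2, if_neg hji.symm, if_pos rfl, if_neg h.not_gt, if_pos h]
      simp
    · have e1 : (s(i, j) : Sym2 (Fin n)).inf = i := by
        rw [Sym2.inf_mk, inf_eq_left.2 (le_of_lt h)]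
      have e2 : (s(i, j) : Sym2 (Fin n)).sup = j := by
        rw [Sym2.sup_mk, sup_eq_right.2 (le_of_lt h)]
      rw [e1, e2, if_pos rfl, if_pos h]
  · intro a _ b _ hab
    have hab' : s(i, a) = s(i, b) := hab
    rw [Sym2.eq_iff] at hab'
    rcases hab' with ⟨_, h⟩ | ⟨h1, h2⟩
    · exact h
    · rw [h2, ← h1]

/-- linear independence in terms of stresses -/
theorem indep_iff (p : Fin n → Fin d → ℝ) {I : Set (Sym2 (Fin n))} (hI : I ⊆ En n) :
    LinearIndepOn ℝ (vec p) I ↔ ∀ W, IsStress p W → Supp W I → ∀ i j, W i j = 0 := by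
  classical
  have hIf : I = ((I.toFinset : Finset (Sym2 (Fin n))) : Set (Sym2 (Fin n))) := by simp
  constructor
  · intro h W hW hs
    rw [hIf, linearIndepOn_finset_iff] at h
    set c : Sym2 (Fin n) → ℝ := fun e => W e.inf e.sup with hc
    have hcW : ∀ i j, toW c i j = W i j := by
      intro i j
      unfold toW
      rcases lt_trichotomy i j with h | h | h
      · rw [if_pos h]
        simp only [hc, Sym2.inf_mk, Sym2.sup_mk]
        rw [inf_eq_left.2 h.le, sup_eq_right.2 h.le]
      · subst h; simp [hW.diag]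
      · rw [if_neg h.not_gt, if_pos h]
        simp only [hc, Sym2.inf_mk, Sym2.sup_mk]
        rw [inf_eq_right.2 h.le, sup_eq_left.2 h.le]
        exact (hW.anti i j).symm
    have hc0 : ∀ e, e ∉ I → c e = 0 := by
      intro e he
      induction e with | _ a b =>
      simp only [hc, Sym2.inf_mk, Sym2.sup_mk]
      rcases le_total a b with h | h
      · rw [inf_eq_left.2 h, sup_eq_right.2 h]; exact hs a b he
      · rw [inf_eq_right.2 h, sup_eq_left.2 h]; exact hs b a (by rwa [Sym2.eq_swap])
    have hsum : ∑ e ∈ I.toFinset, c e • vec p e = 0 := by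
      have h1 : ∑ e ∈ I.toFinset, c e • vec p e = ∑ e ∈ (En n).toFinset, c e • vec p e := by
        apply Finset.sum_subset
        · intro e he
          rw [Set.mem_toFinset] at he ⊢
          exact hI he
        · intro e _ he
          rw [Set.mem_toFinset] at he
          rw [hc0 e he, zero_smul]
      rw [h1]
      funext i
      rw [sum_vec, Pi.zero_apply]
      rw [← hW.bal i]
      apply Finset.sum_congr rfl
      intro j _
      rw [hcW]
    have hz := h c hsum
    intro i j
    rw [← hcW]
    have hall : ∀ e, c e = 0 := by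
      intro e
      by_cases he : e ∈ I
      · exact hz e (by rwa [Set.mem_toFinset])
      · exact hc0 e he
    unfold toW
    simp [hall]
  · intro h
    rw [hIf, linearIndepOn_finset_iff]
    intro f hf e he
    rw [Set.mem_toFinset] at he
    set c : Sym2 (Fin n) → ℝ := fun e => if e ∈ I then f e else 0 with hc
    have hsum : ∑ e ∈ (En n).toFinset, c e • vec p e = 0 := by
      rw [← hf]
      symm
      rw [← Finset.sum_subset (s₁ := I.toFinset) (s₂ := (En n).toFinset)]
      · apply Finset.sum_congr rfl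
        intro x hx
        rw [Set.mem_toFinset] at hx
        simp [hc, hx]
      · intro x hx
        rw [Set.mem_toFinset] at hx ⊢
        exact hI hx
      · intro x _ hx
        rw [Set.mem_toFinset] at hx
        simp [hc, hx]
    have hW : IsStress p (toW c) := by
      refine ⟨toW_anti c, fun i => ?_⟩
      rw [← sum_vec, hsum, Pi.zero_apply]
    have hs : Supp (toW c) I := by
      intro i j hij
      unfold toW
      simp [hc, hij]
    have := h _ hW hs
    induction e with | _ a b =>
    have hab : a ≠ b := mem_En.1 (hI he)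
    have h1 := this a b
    unfold toW at h1
    rcases lt_or_gt_of_ne hab with hlt | hlt
    · rw [if_pos hlt] at h1
      simpa [hc, he] using h1
    · have hlt' : b < a := hlt
      rw [if_neg hlt'.not_gt, if_pos hlt'] at h1
      simpa [hc, he] using h1

theorem rows_indep_iff {ι κ : Type*} [Fintype ι] [Fintype κ] [DecidableEq ι]
    (M : Matrix ι κ ℝ) :
    LinearIndependent ℝ (fun e => M e) ↔ (M * M.transpose).det ≠ 0 := by
  have key : ∀ v : ι → ℝ, Matrix.vecMul v (M * M.transpose) = 0 → Matrix.vecMul v M = 0 := by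
    intro v hv
    have h3 : (Matrix.vecMul v M) ⬝ᵥ (Matrix.vecMul v M) = 0 := by
      conv_lhs => rw [← Matrix.mulVec_transpose M v]
      rw [Matrix.dotProduct_mulVec, Matrix.mulVec_transpose, Matrix.vecMul_vecMul, hv]
      simp
    exact dotProduct_self_eq_zero.1 h3
  rw [Fintype.linearIndependent_iff]
  constructor
  · intro h hdet
    rw [← Matrix.exists_vecMul_eq_zero_iff] at hdet
    obtain ⟨v, hv, hv0⟩ := hdet
    have h2 := key v hv0
    apply hv
    funext i
    apply h v
    rw [Matrix.vecMul_eq_sum] at h2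
    exact h2
  · intro h g hg i
    by_contra hne
    apply h
    rw [← Matrix.exists_vecMul_eq_zero_iff]
    refine ⟨g, fun h0 => hne (by rw [h0]; rfl), ?_⟩
    rw [← Matrix.vecMul_vecMul]
    have : Matrix.vecMul g M = 0 := by
      rw [Matrix.vecMul_eq_sum]
      exact hg
    rw [this, Matrix.zero_vecMul]

/-- rows with polynomial entries that are independent somewhere are independent at every
algebraically independent point -/
theorem transfer {τ ι κ : Type*} [Fintype ι] [Fintype κ] (A : ι → κ → MvPolynomial τ ℚ)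
    (x0 x : τ → ℝ) (h0 : LinearIndependent ℝ (fun e c => aeval x0 (A e c)))
    (hx : AlgebraicIndependent ℚ x) :
    LinearIndependent ℝ (fun e c => aeval x (A e c)) := by
  classical
  set G : Matrix ι ι (MvPolynomial τ ℚ) := Matrix.of A * (Matrix.of A).transpose with hG
  have hmap : ∀ y : τ → ℝ, aeval y G.det =
      (Matrix.of (fun e c => aeval y (A e c)) *
        (Matrix.of (fun e c => aeval y (A e c))).transpose).det := by
    intro y
    rw [AlgHom.map_det]
    congr 1
    ext i j
    simp [hG, Matrix.mul_apply, Matrix.of_apply]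
  have h1 : aeval x0 G.det ≠ 0 := by
    rw [hmap]
    exact (rows_indep_iff (Matrix.of (fun e c => aeval x0 (A e c)))).1 h0
  have h2 : G.det ≠ 0 := by
    intro h
    rw [h] at h1
    simp at h1
  have h3 : aeval x G.det ≠ 0 := by
    intro h
    apply h2
    have hinj : Function.Injective (aeval x : MvPolynomial τ ℚ →ₐ[ℚ] ℝ) := hx
    apply hinj
    rw [h, map_zero]
  rw [hmap] at h3
  exact (rows_indep_iff (Matrix.of (fun e c => aeval x (A e c)))).2 h3

/-- the coordinates of `p` are algebraically independent over `ℚ` -/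
def Gen (p : Fin n → Fin d → ℝ) : Prop :=
  AlgebraicIndependent ℚ (fun x : Fin n × Fin d => p x.1 x.2)

/-- the edge vectors as polynomials -/
noncomputable def pvec (e : Sym2 (Fin n)) (c : Fin n × Fin d) : MvPolynomial (Fin n × Fin d) ℚ :=
  if c.1 = e.inf then X (e.sup, c.2) else if c.1 = e.sup then - X (e.inf, c.2) else 0

theorem aeval_pvec (q : Fin n → Fin d → ℝ) (e : Sym2 (Fin n)) (c : Fin n × Fin d) :
    aeval (fun x : Fin n × Fin d => q x.1 x.2) (pvec e c) = vec q e c.1 c.2 := by
  unfold pvec vec
  split_ifs <;> simp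

theorem indepOn_curry (q : Fin n → Fin d → ℝ) (I : Set (Sym2 (Fin n))) :
    LinearIndependent ℝ (fun (e : I) (c : Fin n × Fin d) => vec q e c.1 c.2) ↔
      LinearIndepOn ℝ (vec q) I := by
  have h : (fun (e : I) (c : Fin n × Fin d) => vec q e c.1 c.2) =
      (LinearEquiv.curry ℝ ℝ (Fin n) (Fin d)).symm ∘ (fun e : I => vec q e) := by
    funext e c
    rfl
  rw [h]
  exact LinearMap.linearIndependent_iff_of_injOn
    (LinearEquiv.curry ℝ ℝ (Fin n) (Fin d)).symm.toLinearMap
    ((LinearEquiv.curry ℝ ℝ (Fin n) (Fin d)).symm.injective.injOn)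

/-- independence somewhere implies independence at generic points -/
theorem indep_transfer {q p : Fin n → Fin d → ℝ} (hp : Gen p) {I : Set (Sym2 (Fin n))}
    (h : LinearIndepOn ℝ (vec q) I) : LinearIndepOn ℝ (vec p) I := by
  classical
  rw [← indepOn_curry] at h ⊢
  have h0 := transfer (fun (e : I) (c : Fin n × Fin d) => pvec (e : Sym2 (Fin n)) c)
    (fun x => q x.1 x.2) (fun x => p x.1 x.2) (by simpa only [aeval_pvec] using h) hp
  simpa only [aeval_pvec] using h0

theorem Gen.comp {p : Fin n → Fin d → ℝ} (hp : Gen p) (σ : Equiv.Perm (Fin n)) :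
    Gen (fun i => p (σ i)) := by
  have := AlgebraicIndependent.comp hp (fun x : Fin n × Fin d => (σ x.1, x.2))
    (by
      intro x y hxy
      simp only [Prod.mk.injEq, EmbeddingLike.apply_eq_iff_eq] at hxy
      exact Prod.ext hxy.1 hxy.2)
  exact this

/-- permuting vertices -/
theorem indep_perm {p : Fin n → Fin d → ℝ} (σ : Equiv.Perm (Fin n)) {I : Set (Sym2 (Fin n))}
    (hI : I ⊆ En n) (h : LinearIndepOn ℝ (vec p) I) :
    LinearIndepOn ℝ (vec (fun i => p (σ i))) (Sym2.map σ ⁻¹' I) := by
  have hI' : Sym2.map σ ⁻¹' I ⊆ En n := by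
    intro e he
    induction e with | _ a b =>
    have := hI he
    rw [Sym2.map_mk, mem_En] at this
    rw [mem_En]
    rintro rfl
    exact this rfl
  rw [indep_iff _ hI] at h
  rw [indep_iff _ hI']
  intro W hW hs
  have h1 : IsStress p (fun i j => W (σ.symm i) (σ.symm j)) := by
    refine ⟨fun i j => hW.anti _ _, fun i => ?_⟩
    rw [← hW.bal (σ.symm i)]
    rw [← Equiv.sum_comp σ]
    simp
  have h2 : Supp (fun i j => W (σ.symm i) (σ.symm j)) I := by
    intro i j hij
    apply hs
    rw [Set.mem_preimage, Sym2.map_mk]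
    simpa using hij
  intro i j
  have := h _ h1 h2 (σ i) (σ j)
  simpa using this

/-- generic independence is invariant under permutations of the vertices -/
theorem indep_inv {p : Fin n → Fin d → ℝ} (hp : Gen p) (σ : Equiv.Perm (Fin n))
    {I : Set (Sym2 (Fin n))} (hI : I ⊆ En n) (h : LinearIndepOn ℝ (vec p) I) :
    LinearIndepOn ℝ (vec p) (Sym2.map σ ⁻¹' I) :=
  indep_transfer hp (indep_perm σ hI h)

/-- (G1) at most `d` generic points are linearly independent -/
theorem pts_indep {p : Fin n → Fin d → ℝ} (hp : Gen p) {T : Finset (Fin n)} (hT : T.card ≤ d) :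
    LinearIndepOn ℝ p (T : Set (Fin n)) := by
  classical
  have he : Nonempty (T ↪ Fin d) := by
    rw [Function.Embedding.nonempty_iff_card_le]
    simpa using hT
  obtain ⟨f⟩ := he
  set q : Fin n → Fin d → ℝ := fun i => if h : i ∈ T then Pi.single (f ⟨i, h⟩) 1 else 0 with hq
  have h0 : LinearIndependent ℝ (fun (i : T) (t : Fin d) =>
      aeval (fun x : Fin n × Fin d => q x.1 x.2)
        (X ((i : Fin n), t) : MvPolynomial (Fin n × Fin d) ℚ)) := by
    have : (fun (i : T) (t : Fin d) =>
      aeval (fun x : Fin n × Fin d => q x.1 x.2)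
        (X ((i : Fin n), t) : MvPolynomial (Fin n × Fin d) ℚ)) =
        (fun i : T => (Pi.basisFun ℝ (Fin d)) (f i)) := by
      funext i t
      simp [hq, Pi.basisFun_apply]
    rw [this]
    exact (Pi.basisFun ℝ (Fin d)).linearIndependent.comp f f.injective
  have h1 := transfer _ _ _ h0 hp
  have : LinearIndependent ℝ (fun i : T => p i) := by
    convert h1 using 1
    funext i t
    simp
  exact this

/-- (G1), second form -/
theorem dep_zero {p : Fin n → Fin d → ℝ} (hp : Gen p) {T : Finset (Fin n)} (hT : T.card ≤ d)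
    {a : Fin n → ℝ} (ha : ∀ i, i ∉ T → a i = 0) (hs : ∑ i, a i • p i = 0) : ∀ i, a i = 0 := by
  have h := pts_indep hp hT
  rw [linearIndepOn_finset_iff] at h
  have hsum : ∑ i ∈ T, a i • p i = 0 := by
    rw [← hs]
    apply Finset.sum_subset (Finset.subset_univ _)
    intro x _ hx
    rw [ha x hx, zero_smul]
  intro i
  by_cases hi : i ∈ T
  · exact h a hsum i hi
  · exact ha i hi

/-- a dependency with full support on `d+1` generic points -/
theorem exists_dep {p : Fin n → Fin d → ℝ} (hp : Gen p) {S : Finset (Fin n)}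
    (hS : S.card = d + 1) : ∃ a : Fin n → ℝ, (∀ i, i ∉ S → a i = 0) ∧ (∀ i ∈ S, a i ≠ 0) ∧
      ∑ i, a i • p i = 0 := by
  classical
  have h1 : ¬ LinearIndepOn ℝ p (S : Set (Fin n)) := by
    intro h
    have h2 := LinearIndependent.fintype_card_le_finrank (h : LinearIndependent ℝ (fun i : S => p i))
    simp at h2
    omega
  rw [not_linearIndepOn_finset_iff] at h1
  obtain ⟨f, hf, i0, hi0, hne⟩ := h1
  set a : Fin n → ℝ := fun i => if i ∈ S then f i else 0 with ha
  have ha0 : ∀ i, i ∉ S → a i = 0 := fun i hi => by simp [ha, hi]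
  have hsum : ∑ i, a i • p i = 0 := by
    rw [← hf]
    symm
    rw [← Finset.sum_subset (Finset.subset_univ S)]
    · apply Finset.sum_congr rfl
      intro x hx
      simp [ha, hx]
    · intro x _ hx
      simp [ha, hx]
  refine ⟨a, ha0, ?_, hsum⟩
  intro i hi h0
  have h3 := dep_zero hp (T := S.erase i) (by rw [Finset.card_erase_of_mem hi]; omega)
    (a := a) (by
      intro j hj
      by_cases hji : j = i
      · rw [hji]; exact h0
      · exact ha0 j (fun hjS => hj (Finset.mem_erase.2 ⟨hji, hjS⟩))) hsum
  apply hne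
  have := h3 i0
  simpa [ha, hi0] using this

/-- uniqueness of the dependency on `d+1` generic points -/
theorem dep_unique {p : Fin n → Fin d → ℝ} (hp : Gen p) {S : Finset (Fin n)}
    (hS : S.card = d + 1) {a b : Fin n → ℝ} (ha : ∀ i, i ∉ S → a i = 0)
    (ha' : ∀ i ∈ S, a i ≠ 0) (hsa : ∑ i, a i • p i = 0)
    (hb : ∀ i, i ∉ S → b i = 0) (hsb : ∑ i, b i • p i = 0) : ∃ c : ℝ, ∀ i, b i = c * a i := by
  classical
  have hne : S.Nonempty := by
    rw [← Finset.card_pos]; omega
  obtain ⟨i0, hi0⟩ := hne
  refine ⟨b i0 / a i0, ?_⟩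
  have h := dep_zero hp (T := S.erase i0) (by rw [Finset.card_erase_of_mem hi0]; omega)
    (a := fun i => b i - b i0 / a i0 * a i) (by
      intro j hj
      by_cases hji : j = i0
      · subst hji
        have := ha' j hi0
        field_simp
        ring
      · have hjS : j ∉ S := fun hjS => hj (Finset.mem_erase.2 ⟨hji, hjS⟩)
        simp [ha j hjS, hb j hjS]) (by
      simp only [sub_smul, Finset.sum_sub_distrib, hsb, mul_smul]
      rw [← Finset.smul_sum, hsa]
      simp)
  intro i
  have := h i
  linarith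

/-- a functional vanishing on `T` but not at `b` -/
theorem exists_functional {p : Fin n → Fin d → ℝ} (hp : Gen p) {T : Finset (Fin n)}
    (hT : T.card + 1 ≤ d) {b : Fin n} (hb : b ∉ T) :
    ∃ f : (Fin d → ℝ) →ₗ[ℝ] ℝ, f (p b) ≠ 0 ∧ ∀ x ∈ T, f (p x) = 0 := by
  classical
  have h := pts_indep hp (T := insert b T) (by rw [Finset.card_insert_of_notMem hb]; exact hT)
  rw [Finset.coe_insert, linearIndepOn_insert (by simpa using hb)] at h
  obtain ⟨f, hf1, hf2⟩ := Submodule.exists_le_ker_of_notMem h.2
  refine ⟨f, hf1, fun x hx => ?_⟩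
  have : p x ∈ Submodule.span ℝ (p '' (T : Set (Fin n))) :=
    Submodule.subset_span ⟨x, hx, rfl⟩
  exact hf2 this

/-- a functional vanishing on `d` generic points vanishes -/
theorem functional_zero {p : Fin n → Fin d → ℝ} (hp : Gen p) {T : Finset (Fin n)}
    (hT : T.card = d) (f : (Fin d → ℝ) →ₗ[ℝ] ℝ) (hf : ∀ x ∈ T, f (p x) = 0) : f = 0 := by
  classical
  have h := pts_indep hp (T := T) hT.le
  have hspan : Submodule.span ℝ (p '' (T : Set (Fin n))) = ⊤ := by
    have h1 : LinearIndependent ℝ (fun i : T => p i) := h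
    have := h1.span_eq_top_of_card_eq_finrank' (by simp [hT])
    rw [Set.image_eq_range]
    exact this
  refine LinearMap.ext fun v => ?_
  have hv : v ∈ Submodule.span ℝ (p '' (T : Set (Fin n))) := by rw [hspan]; trivial
  have : Submodule.span ℝ (p '' (T : Set (Fin n))) ≤ LinearMap.ker f := by
    rw [Submodule.span_le]
    rintro _ ⟨x, hx, rfl⟩
    exact hf x hx
  exact this hv

end Pool.Agent.helper49.Hyp
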