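import Pool.Agent.helper49.HypStress

namespace Pool.Agent.helper49.Hyp

open Set

variable {n d : ℕ}

/-- the edges inside `S ∪ T` that are neither inside `S \ T` nor inside `T \ S` -/
def XST (S T : Finset (Fin n)) : Set (Sym2 (Fin n)) :=
  {e | ∃ i j, e = s(i, j) ∧ i ≠ j ∧ i ∈ S ∧ j ∈ T}

theorem mem_XST {S T : Finset (Fin n)} {i j : Fin n} :
    s(i, j) ∈ XST S T ↔ i ≠ j ∧ ((i ∈ S ∧ j ∈ T) ∨ (j ∈ S ∧ i ∈ T)) := by
  constructor
  · rintro ⟨a, b, h, hab, ha, hb⟩
    rw [Sym2.eq_iff] at h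
    rcases h with ⟨rfl, rfl⟩ | ⟨rfl, rfl⟩
    · exact ⟨hab, Or.inl ⟨ha, hb⟩⟩
    · exact ⟨hab.symm, Or.inr ⟨ha, hb⟩⟩
  · rintro ⟨hij, ⟨h1, h2⟩ | ⟨h1, h2⟩⟩
    · exact ⟨i, j, rfl, hij, h1, h2⟩
    · exact ⟨j, i, Sym2.eq_swap, hij.symm, h1, h2⟩

theorem XST_subset (S T : Finset (Fin n)) : XST S T ⊆ En n := by
  rintro e ⟨i, j, rfl, hij, -, -⟩
  exact mem_En.2 hij

/-- the wedge of two dependencies is a stress -/
theorem wedge_stress {p : Fin n → Fin d → ℝ} {a b : Fin n → ℝ} (ha : ∑ i, a i • p i = 0)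
    (hb : ∑ i, b i • p i = 0) : IsStress p (fun i j => a i * b j - a j * b i) := by
  refine ⟨fun i j => by ring, fun i => ?_⟩
  have h1 : ∑ j, (a i * b j - a j * b i) • p j = a i • ∑ j, b j • p j - b i • ∑ j, a j • p j := by
    rw [Finset.smul_sum, Finset.smul_sum, ← Finset.sum_sub_distrib]
    apply Finset.sum_congr rfl
    intro j _
    rw [sub_smul, smul_smul, smul_smul, mul_comm (a j) (b i)]
  rw [h1, ha, hb]
  simp

theorem wedge_supp {S T : Finset (Fin n)} {a b : Fin n → ℝ} (ha : ∀ i, i ∉ S → a i = 0)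
    (hb : ∀ i, i ∉ T → b i = 0) : Supp (fun i j => a i * b j - a j * b i) (XST S T) := by
  intro i j hij
  by_cases hne : i = j
  · subst hne; ring
  rw [mem_XST] at hij
  push Not at hij
  have := hij hne
  show a i * b j - a j * b i = 0
  by_cases h1 : i ∈ S
  · have h2 := this.1 h1
    rw [hb j h2]
    by_cases h3 : j ∈ S
    · rw [hb i (this.2 h3)]; ring
    · rw [ha j h3]; ring
  · rw [ha i h1]
    by_cases h3 : j ∈ S
    · rw [hb i (this.2 h3)]; ring
    · rw [ha j h3]; ring

/-- the stresses of `XST S T` are the multiples of the wedge -/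
theorem XST_stress {p : Fin n → Fin d → ℝ} (hp : Gen p) {S T : Finset (Fin n)}
    (hS : S.card = d + 1) (hT : T.card = d + 1) (hne : S ≠ T) {a b : Fin n → ℝ}
    (ha : ∀ i, i ∉ S → a i = 0) (ha' : ∀ i ∈ S, a i ≠ 0) (hsa : ∑ i, a i • p i = 0)
    (hb : ∀ i, i ∉ T → b i = 0) (hb' : ∀ i ∈ T, b i ≠ 0) (hsb : ∑ i, b i • p i = 0)
    {W : Fin n → Fin n → ℝ} (hW : IsStress p W) (hs : Supp W (XST S T)) :
    ∃ c : ℝ, ∀ i j, W i j = c * (a i * b j - a j * b i) := by
  classical
  -- elements of the two differences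
  obtain ⟨x0, hx0⟩ : ∃ x, x ∈ S \ T := by
    by_contra hcon
    push Not at hcon
    have : S ⊆ T := by
      intro x hx
      by_contra hxT
      exact hcon x (Finset.mem_sdiff.2 ⟨hx, hxT⟩)
    exact hne (Finset.eq_of_subset_of_card_le this (by omega))
  obtain ⟨y0, hy0⟩ : ∃ y, y ∈ T \ S := by
    by_contra hcon
    push Not at hcon
    have : T ⊆ S := by
      intro x hx
      by_contra hxT
      exact hcon x (Finset.mem_sdiff.2 ⟨hx, hxT⟩)
    exact hne (Finset.eq_of_subset_of_card_le this (by omega)).symm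
  rw [Finset.mem_sdiff] at hx0 hy0
  -- rows in `S \ T`
  have rowA : ∀ x, x ∈ S → x ∉ T → ∃ c, ∀ j, W x j = c * b j := by
    intro x hxS hxT
    apply dep_unique hp hT hb hb' hsb
    · intro j hj
      apply hs
      rw [mem_XST]
      rintro ⟨-, ⟨-, h⟩ | ⟨-, h⟩⟩
      · exact hj h
      · exact hxT h
    · exact hW.bal x
  have rowB : ∀ y, y ∈ T → y ∉ S → ∃ c, ∀ j, W y j = c * a j := by
    intro y hyT hyS
    apply dep_unique hp hS ha ha' hsa
    · intro j hj
      apply hs
      rw [mem_XST]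
      rintro ⟨-, ⟨h, -⟩ | ⟨h, -⟩⟩
      · exact hyS h
      · exact hj h
    · exact hW.bal y
  obtain ⟨α0, hα0⟩ := rowA x0 hx0.1 hx0.2
  have ax0 := ha' x0 hx0.1
  have by0 := hb' y0 hy0.1
  refine ⟨α0 / a x0, ?_⟩
  set c := α0 / a x0 with hc
  have hα0c : α0 = c * a x0 := by rw [hc]; field_simp
  -- rows in `T \ S`
  have rowB' : ∀ y, y ∈ T → y ∉ S → ∀ j, W y j = - (c * b y) * a j := by
    intro y hyT hyS j
    obtain ⟨β, hβ⟩ := rowB y hyT hyS
    have h1 : W x0 y = - W y x0 := hW.anti _ _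
    rw [hα0, hβ] at h1
    have h2 : β = - (c * b y) := by
      rw [hα0c] at h1
      have : (β + c * b y) * a x0 = 0 := by linarith
      rcases mul_eq_zero.1 this with h | h
      · linarith
      · exact absurd h ax0
    rw [hβ, h2]
  have rowA' : ∀ x, x ∈ S → x ∉ T → ∀ j, W x j = c * a x * b j := by
    intro x hxS hxT j
    obtain ⟨α, hα⟩ := rowA x hxS hxT
    have h1 : W x y0 = - W y0 x := hW.anti _ _
    rw [hα, rowB' y0 hy0.1 hy0.2] at h1
    have h2 : α = c * a x := by
      have : (α - c * a x) * b y0 = 0 := by linarith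
      rcases mul_eq_zero.1 this with h | h
      · linarith
      · exact absurd h by0
    rw [hα, h2]
  -- the difference
  set W' : Fin n → Fin n → ℝ := fun i j => W i j - c * (a i * b j - a j * b i) with hW'
  have hst := wedge_stress hsa hsb
  have hsw := wedge_supp ha hb
  have anti' : ∀ i j, W' i j = - W' j i := by
    intro i j
    simp only [hW']
    rw [hW.anti i j]; ring
  have bal' : ∀ i, ∑ j, W' i j • p j = 0 := by
    intro i
    simp only [hW', sub_smul, Finset.sum_sub_distrib, hW.bal i, mul_smul]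
    rw [← Finset.smul_sum]
    have := hst.bal i
    simp only [sub_smul, Finset.sum_sub_distrib] at this
    simp only [mul_smul] at this
    rw [Finset.sum_sub_distrib, this]
    simp
  have zA : ∀ x, x ∈ S → x ∉ T → ∀ j, W' x j = 0 := by
    intro x hxS hxT j
    simp only [hW']
    rw [rowA' x hxS hxT, hb x hxT]; ring
  have zB : ∀ y, y ∈ T → y ∉ S → ∀ j, W' y j = 0 := by
    intro y hyT hyS j
    simp only [hW']
    rw [rowB' y hyT hyS, ha y hyS]; ring
  have zO : ∀ i, i ∉ S → i ∉ T → ∀ j, W' i j = 0 := by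
    intro i hiS hiT j
    simp only [hW']
    rw [hs i j, ha i hiS, hb i hiT]
    · ring
    · rw [mem_XST]
      rintro ⟨-, ⟨h, -⟩ | ⟨-, h⟩⟩
      · exact hiS h
      · exact hiT h
  have key : ∀ i j, W' i j = 0 := by
    intro i
    by_cases h1 : i ∈ S
    · by_cases h2 : i ∈ T
      · -- a vertex of `S ∩ T`
        apply dep_zero hp (T := S ∩ T) _ _ (bal' i)
        · have h3 : (S ∩ T).card < S.card := by
            apply Finset.card_lt_card
            rw [Finset.ssubset_iff_of_subset Finset.inter_subset_left]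
            exact ⟨x0, hx0.1, fun h => hx0.2 (Finset.mem_inter.1 h).2⟩
          omega
        · intro j hj
          rw [anti' i j]
          rw [Finset.mem_inter] at hj
          by_cases h3 : j ∈ S
          · rw [zA j h3 (fun h => hj ⟨h3, h⟩)]; simp
          · by_cases h4 : j ∈ T
            · rw [zB j h4 h3]; simp
            · rw [zO j h3 h4]; simp
      · exact zA i h1 h2
    · by_cases h2 : i ∈ T
      · exact zB i h2 h1
      · exact zO i h1 h2
  intro i j
  have := key i j
  simp only [hW'] at this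
  linarith

/-- sets are dependent iff they carry a nonzero stress -/
theorem not_indep_iff (p : Fin n → Fin d → ℝ) {I : Set (Sym2 (Fin n))} (hI : I ⊆ En n) :
    ¬ LinearIndepOn ℝ (vec p) I ↔ ∃ W, IsStress p W ∧ Supp W I ∧ ∃ i j, W i j ≠ 0 := by
  rw [indep_iff p hI]
  push Not
  rfl

theorem XST_dep {p : Fin n → Fin d → ℝ} (hp : Gen p) {S T : Finset (Fin n)}
    (hS : S.card = d + 1) (hT : T.card = d + 1) (hne : S ≠ T) :
    ¬ LinearIndepOn ℝ (vec p) (XST S T) := by
  classical
  obtain ⟨a, ha, ha', hsa⟩ := exists_dep hp hS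
  obtain ⟨b, hb, hb', hsb⟩ := exists_dep hp hT
  obtain ⟨x0, hx0⟩ : ∃ x, x ∈ S \ T := by
    by_contra hcon
    push Not at hcon
    have : S ⊆ T := by
      intro x hx
      by_contra hxT
      exact hcon x (Finset.mem_sdiff.2 ⟨hx, hxT⟩)
    exact hne (Finset.eq_of_subset_of_card_le this (by omega))
  obtain ⟨y0, hy0⟩ : ∃ y, y ∈ T \ S := by
    by_contra hcon
    push Not at hcon
    have : T ⊆ S := by
      intro x hx
      by_contra hxT
      exact hcon x (Finset.mem_sdiff.2 ⟨hx, hxT⟩)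
    exact hne (Finset.eq_of_subset_of_card_le this (by omega)).symm
  rw [Finset.mem_sdiff] at hx0 hy0
  rw [not_indep_iff p (XST_subset S T)]
  refine ⟨_, wedge_stress hsa hsb, wedge_supp ha hb, x0, y0, ?_⟩
  rw [ha y0 hy0.2]
  simp only [zero_mul, sub_zero]
  exact mul_ne_zero (ha' x0 hx0.1) (hb' y0 hy0.1)

/-- (G2) generic nonproportionality inside `S ∩ T` -/
theorem wedge_ne {p : Fin n → Fin d → ℝ} (hp : Gen p) {S T : Finset (Fin n)}
    (hS : S.card = d + 1) (hT : T.card = d + 1) (hne : S ≠ T) (hn : 2 * d + 2 ≤ n)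
    {a b : Fin n → ℝ}
    (ha : ∀ i, i ∉ S → a i = 0) (ha' : ∀ i ∈ S, a i ≠ 0) (hsa : ∑ i, a i • p i = 0)
    (hb : ∀ i, i ∉ T → b i = 0) (hb' : ∀ i ∈ T, b i ≠ 0) (hsb : ∑ i, b i • p i = 0)
    {i j : Fin n} (hij : s(i, j) ∈ XST S T) : a i * b j - a j * b i ≠ 0 := by
  classical
  obtain ⟨hijne, hij'⟩ := mem_XST.1 hij
  by_cases hi : i ∈ S ∧ i ∈ T
  swap
  · rcases hij' with ⟨h1, h2⟩ | ⟨h1, h2⟩
    · have : i ∉ T := fun h => hi ⟨h1, h⟩
      rw [hb i this]
      simp only [mul_zero, sub_zero]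
      exact mul_ne_zero (ha' i h1) (hb' j h2)
    · have : i ∉ S := fun h => hi ⟨h, h2⟩
      rw [ha i this]
      simp only [zero_mul, zero_sub, neg_ne_zero]
      exact mul_ne_zero (ha' j h1) (hb' i h2)
  by_cases hj : j ∈ S ∧ j ∈ T
  swap
  · rcases hij' with ⟨h1, h2⟩ | ⟨h1, h2⟩
    · have : j ∉ S := fun h => hj ⟨h, h2⟩
      rw [ha j this]
      simp only [zero_mul, sub_zero]
      exact mul_ne_zero (ha' i h1) (hb' j h2)
    · have : j ∉ T := fun h => hj ⟨h1, h⟩
      rw [hb j this]
      simp only [mul_zero, zero_sub, neg_ne_zero]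
      exact mul_ne_zero (ha' j h1) (hb' i h2)
  intro hzero
  -- now `i, j ∈ S ∩ T`
  obtain ⟨u, hu⟩ : ∃ x, x ∈ S \ T := by
    by_contra hcon
    push Not at hcon
    have : S ⊆ T := by
      intro x hx
      by_contra hxT
      exact hcon x (Finset.mem_sdiff.2 ⟨hx, hxT⟩)
    exact hne (Finset.eq_of_subset_of_card_le this (by omega))
  rw [Finset.mem_sdiff] at hu
  obtain ⟨v, hv⟩ : ∃ v, v ∉ S ∪ T := by
    by_contra hcon
    push Not at hcon
    have h1 : (S ∪ T) = Finset.univ := Finset.eq_univ_iff_forall.2 hcon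
    have h2 := Finset.card_union_add_card_inter S T
    rw [h1, Finset.card_univ, Fintype.card_fin] at h2
    have h3 : 2 ≤ (S ∩ T).card := by
      rw [← Finset.card_pair hijne]
      apply Finset.card_le_card
      intro x hx
      rw [Finset.mem_insert, Finset.mem_singleton] at hx
      rcases hx with rfl | rfl
      · exact Finset.mem_inter.2 hi
      · exact Finset.mem_inter.2 hj
    omega
  rw [Finset.mem_union, not_or] at hv
  have huv : u ≠ v := fun h => hv.1 (h ▸ hu.1)
  have hiu : i ≠ u := fun h => hu.2 (h ▸ hi.2)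
  have hju : j ≠ u := fun h => hu.2 (h ▸ hj.2)
  have hiv : i ≠ v := fun h => hv.1 (h ▸ hi.1)
  have hjv : j ≠ v := fun h => hv.1 (h ▸ hj.1)
  -- `X(S,T) - ij` is dependent
  have hdep : ¬ LinearIndepOn ℝ (vec p) (XST S T \ {s(i, j)}) := by
    rw [not_indep_iff p ((sdiff_subset).trans (XST_subset S T))]
    have h1 := wedge_supp ha hb
    refine ⟨_, wedge_stress hsa hsb, ?_, ?_⟩
    · intro x y hxy
      by_cases h2 : s(x, y) ∈ XST S T
      · have h3 : s(x, y) = s(i, j) := by
          by_contra h4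
          exact hxy ⟨h2, h4⟩
        rw [Sym2.eq_iff] at h3
        rcases h3 with ⟨rfl, rfl⟩ | ⟨rfl, rfl⟩
        · exact hzero
        · linarith
      · exact h1 x y h2
    · have h2 := XST_dep hp hS hT hne
      obtain ⟨y0, hy0⟩ : ∃ y, y ∈ T \ S := by
        by_contra hcon
        push Not at hcon
        have : T ⊆ S := by
          intro x hx
          by_contra hxT
          exact hcon x (Finset.mem_sdiff.2 ⟨hx, hxT⟩)
        exact hne (Finset.eq_of_subset_of_card_le this (by omega)).symm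
      rw [Finset.mem_sdiff] at hy0
      refine ⟨u, y0, ?_⟩
      rw [ha y0 hy0.2]
      simp only [zero_mul, sub_zero]
      exact mul_ne_zero (ha' u hu.1) (hb' y0 hy0.1)
  -- swap `u` and `v`
  set S' : Finset (Fin n) := insert v (S.erase u) with hS'
  have hvS : v ∉ S.erase u := fun h => hv.1 (Finset.mem_of_mem_erase h)
  have hS'c : S'.card = d + 1 := by
    rw [hS', Finset.card_insert_of_notMem hvS, Finset.card_erase_of_mem hu.1]
    omega
  have hiS' : i ∈ S' := Finset.mem_insert_of_mem (Finset.mem_erase.2 ⟨hiu, hi.1⟩)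
  have hjS' : j ∈ S' := Finset.mem_insert_of_mem (Finset.mem_erase.2 ⟨hju, hj.1⟩)
  have hS'T : S' ≠ T := by
    intro h
    apply hv.2
    rw [← h]
    exact Finset.mem_insert_self _ _
  have hdep' : ¬ LinearIndepOn ℝ (vec p) (XST S' T \ {s(i, j)}) := by
    intro h
    apply hdep
    have h1 := indep_inv hp (Equiv.swap u v) ((sdiff_subset).trans (XST_subset S' T)) h
    convert h1 using 1
    ext e
    induction e with | _ x y =>
    rw [Set.mem_preimage, Sym2.map_mk]
    have hmS : ∀ x, Equiv.swap u v x ∈ S' ↔ x ∈ S := by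
      intro x
      rw [hS']
      rcases eq_or_ne x u with rfl | hxu
      · rw [Equiv.swap_apply_left]
        simp [hu.1]
      · rcases eq_or_ne x v with rfl | hxv
        · rw [Equiv.swap_apply_right]
          simp [hv.1, huv]
        · rw [Equiv.swap_apply_of_ne_of_ne hxu hxv]
          simp [hxu, hxv]
    have hmT : ∀ x, Equiv.swap u v x ∈ T ↔ x ∈ T := by
      intro x
      rcases eq_or_ne x u with rfl | hxu
      · rw [Equiv.swap_apply_left]
        simp [hu.2, hv.2]
      · rcases eq_or_ne x v with rfl | hxv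
        · rw [Equiv.swap_apply_right]
          simp [hu.2, hv.2]
        · rw [Equiv.swap_apply_of_ne_of_ne hxu hxv]
    have hfi : Equiv.swap u v i = i := Equiv.swap_apply_of_ne_of_ne hiu hiv
    have hfj : Equiv.swap u v j = j := Equiv.swap_apply_of_ne_of_ne hju hjv
    rw [Set.mem_sdiff, Set.mem_sdiff, mem_XST, mem_XST, hmS, hmT, hmS, hmT,
      Set.mem_singleton_iff, Set.mem_singleton_iff]
    have h2 : s(Equiv.swap u v x, Equiv.swap u v y) = s(i, j) ↔ s(x, y) = s(i, j) := by
      rw [Sym2.eq_iff, Sym2.eq_iff]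
      conv_lhs => rw [← hfi, ← hfj]
      simp only [EmbeddingLike.apply_eq_iff_eq]
    rw [h2]
    simp only [ne_eq, EmbeddingLike.apply_eq_iff_eq]
  obtain ⟨a2, ha2, ha2', hsa2⟩ := exists_dep hp hS'c
  rw [not_indep_iff p ((sdiff_subset).trans (XST_subset S' T))] at hdep'
  obtain ⟨W, hW, hsW, x1, y1, hne1⟩ := hdep'
  obtain ⟨c, hc⟩ := XST_stress hp hS'c hT hS'T ha2 ha2' hsa2 hb hb' hsb hW
    (fun x y hxy => hsW x y (fun h => hxy h.1))
  have hc0 : c ≠ 0 := by
    rintro rfl
    apply hne1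
    rw [hc]; ring
  have h0 : W i j = 0 := hsW i j (fun h => h.2 rfl)
  rw [hc] at h0
  have hz2 : a2 i * b j - a2 j * b i = 0 := (mul_eq_zero.1 h0).resolve_left hc0
  have hz := dep_zero hp (T := ((insert v S).erase i).erase j) (by
      rw [Finset.card_erase_of_mem (Finset.mem_erase.2
        ⟨hijne.symm, Finset.mem_insert_of_mem hj.1⟩),
        Finset.card_erase_of_mem (Finset.mem_insert_of_mem hi.1),
        Finset.card_insert_of_notMem hv.1]
      omega)
    (a := fun x => a2 i * a x - a i * a2 x) (by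
      intro x hx
      rcases eq_or_ne x j with rfl | hxj
      · have h1 : (a2 i * a x - a i * a2 x) * b i = 0 := by
          have e1 : a i * b x = a x * b i := by linarith
          have e2 : a2 i * b x = a2 x * b i := by linarith
          calc (a2 i * a x - a i * a2 x) * b i = a2 i * (a x * b i) - a i * (a2 x * b i) := by ring
            _ = a2 i * (a i * b x) - a i * (a2 i * b x) := by rw [e1, e2]
            _ = 0 := by ring
        exact (mul_eq_zero.1 h1).resolve_right (hb' i hi.2)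
      · rcases eq_or_ne x i with rfl | hxi
        · ring
        · have h1 : x ∉ insert v S := fun h => hx (Finset.mem_erase.2
            ⟨hxj, Finset.mem_erase.2 ⟨hxi, h⟩⟩)
          rw [Finset.mem_insert, not_or] at h1
          rw [ha x h1.2, ha2 x (by
            rw [hS', Finset.mem_insert, not_or]
            exact ⟨h1.1, fun h => h1.2 (Finset.mem_of_mem_erase h)⟩)]
          ring) (by
      simp only [sub_smul, mul_smul, Finset.sum_sub_distrib]
      rw [← Finset.smul_sum, ← Finset.smul_sum, hsa, hsa2]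
      simp)
  have h3 := hz v
  rw [ha v hv.1] at h3
  have h4 := ha2' v (Finset.mem_insert_self _ _)
  have h5 := ha' i hi.1
  have h6 : a i * a2 v = 0 := by linarith
  rcases mul_eq_zero.1 h6 with h | h
  · exact h5 h
  · exact h4 h

/-- `XST S T` minus an edge is independent -/
theorem XST_erase {p : Fin n → Fin d → ℝ} (hp : Gen p) {S T : Finset (Fin n)}
    (hS : S.card = d + 1) (hT : T.card = d + 1) (hne : S ≠ T) (hn : 2 * d + 2 ≤ n)
    {e : Sym2 (Fin n)} (he : e ∈ XST S T) : LinearIndepOn ℝ (vec p) (XST S T \ {e}) := by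
  classical
  obtain ⟨a, ha, ha', hsa⟩ := exists_dep hp hS
  obtain ⟨b, hb, hb', hsb⟩ := exists_dep hp hT
  rw [indep_iff p ((sdiff_subset).trans (XST_subset S T))]
  intro W hW hs
  obtain ⟨c, hc⟩ := XST_stress hp hS hT hne ha ha' hsa hb hb' hsb hW
    (fun x y hxy => hs x y (fun h => hxy h.1))
  induction e with | _ i j =>
  have h0 : W i j = 0 := hs i j (fun h => h.2 rfl)
  rw [hc] at h0
  have h1 := wedge_ne hp hS hT hne hn ha ha' hsa hb hb' hsb he
  have h2 : c = 0 := (mul_eq_zero.1 h0).resolve_right h1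
  intro x y
  rw [hc, h2]; ring

theorem hyper_indep {p : Fin n → Fin d → ℝ} {I : Set (Sym2 (Fin n))} :
    (hyper p).Indep I ↔ I ⊆ En n ∧ LinearIndepOn ℝ (vec p) I := by
  rfl

theorem hyper_E (p : Fin n → Fin d → ℝ) : (hyper p).E = En n := rfl

/-- `XST S T` is a circuit of the hyperconnectivity matroid -/
theorem XST_circuit {p : Fin n → Fin d → ℝ} (hp : Gen p) {S T : Finset (Fin n)}
    (hS : S.card = d + 1) (hT : T.card = d + 1) (hne : S ≠ T) (hn : 2 * d + 2 ≤ n) :
    (hyper p).IsCircuit (XST S T) := by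
  rw [Matroid.isCircuit_iff_dep_forall_sdiff_singleton_indep]
  refine ⟨⟨fun h => XST_dep hp hS hT hne (hyper_indep.1 h).2, XST_subset S T⟩, ?_⟩
  intro e he
  exact hyper_indep.2 ⟨(sdiff_subset).trans (XST_subset S T), XST_erase hp hS hT hne hn he⟩

/-- every copy of `G` is a complete graph on `A ∪ B ∪ C` minus the edges inside `A` and
inside `B` -/
def Splits (n : ℕ) (G : Graph) (m k : ℕ) : Prop :=
  ∀ φ : G.1 ↪ Fin n, ∃ A B C : Finset (Fin n), Disjoint A B ∧ Disjoint A C ∧ Disjoint B C ∧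
    A.card = m ∧ B.card = m ∧ C.card = k ∧ (∀ v, v ∈ Set.range φ ↔ v ∈ A ∨ v ∈ B ∨ v ∈ C) ∧
    ∀ u v : G.1, G.2.Adj u v ↔ u ≠ v ∧ ¬ (φ u ∈ A ∧ φ v ∈ A) ∧ ¬ (φ u ∈ B ∧ φ v ∈ B)

theorem splits_zero (n m : ℕ) :
    Splits n ⟨Fin m ⊕ Fin m, completeBipartiteGraph (Fin m) (Fin m)⟩ m 0 := by
  classical
  intro φ
  refine ⟨Finset.univ.image (fun x => φ (Sum.inl x)), Finset.univ.image (fun x => φ (Sum.inr x)),
    ∅, ?_, by simp, by simp, ?_, ?_, by simp, ?_, ?_⟩
  · rw [Finset.disjoint_left]
    intro v h1 h2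
    rw [Finset.mem_image] at h1 h2
    obtain ⟨x, -, rfl⟩ := h1
    obtain ⟨y, -, hy⟩ := h2
    have := φ.injective hy
    simp at this
  · rw [Finset.card_image_of_injective]
    · simp
    · intro x y hxy
      have := φ.injective hxy
      simpa using this
  · rw [Finset.card_image_of_injective]
    · simp
    · intro x y hxy
      have := φ.injective hxy
      simpa using this
  · intro v
    constructor
    · rintro ⟨x | x, rfl⟩
      · left; simp
      · right; left; simp
    · rintro (h | h | h)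
      · rw [Finset.mem_image] at h
        obtain ⟨x, -, rfl⟩ := h
        exact ⟨_, rfl⟩
      · rw [Finset.mem_image] at h
        obtain ⟨x, -, rfl⟩ := h
        exact ⟨_, rfl⟩
      · simp at h
  · rintro (x | x) (y | y) <;> simp

theorem splits_succ {n m k : ℕ} {G : Graph} (h : Splits n G m k) :
    Splits n (coneStep G) m (k + 1) := by
  classical
  intro φ
  obtain ⟨A, B, C, hAB, hAC, hBC, hA, hB, hC, hr, hadj⟩ :=
    h ⟨fun x => φ (some x), fun x y hxy => Option.some_injective _ (φ.injective hxy)⟩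
  have hnone : φ none ∉ A ∧ φ none ∉ B ∧ φ none ∉ C := by
    have : φ none ∉ Set.range (fun x : G.1 => φ (some x)) := by
      rintro ⟨x, hx⟩
      have := φ.injective hx
      simp at this
    have h2 := hr (φ none)
    refine ⟨fun h => this (h2.2 (Or.inl h)), fun h => this (h2.2 (Or.inr (Or.inl h))),
      fun h => this (h2.2 (Or.inr (Or.inr h)))⟩
  refine ⟨A, B, insert (φ none) C, hAB, ?_, ?_, hA, hB, ?_, ?_, ?_⟩
  · rw [Finset.disjoint_insert_right]
    exact ⟨hnone.1, hAC⟩
  · rw [Finset.disjoint_insert_right]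
    exact ⟨hnone.2.1, hBC⟩
  · rw [Finset.card_insert_of_notMem hnone.2.2, hC]
  · intro v
    constructor
    · rintro ⟨x | x, rfl⟩
      · right; right; exact Finset.mem_insert_self _ _
      · rcases (hr (φ (some x))).1 ⟨x, rfl⟩ with h | h | h
        · exact Or.inl h
        · exact Or.inr (Or.inl h)
        · exact Or.inr (Or.inr (Finset.mem_insert_of_mem h))
    · rintro (h | h | h)
      · obtain ⟨x, hx⟩ := (hr v).2 (Or.inl h)
        exact ⟨some x, hx⟩
      · obtain ⟨x, hx⟩ := (hr v).2 (Or.inr (Or.inl h))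
        exact ⟨some x, hx⟩
      · rw [Finset.mem_insert] at h
        rcases h with h | h
        · exact ⟨none, h.symm⟩
        · obtain ⟨x, hx⟩ := (hr v).2 (Or.inr (Or.inr h))
          exact ⟨some x, hx⟩
  · rintro (_ | u) (_ | v)
    · show False ↔ _
      exact ⟨fun h => h.elim, fun h => h.1 rfl⟩
    · show True ↔ _
      refine ⟨fun _ => ⟨fun h => Option.some_ne_none v h.symm, fun h => hnone.1 h.1,
        fun h => hnone.2.1 h.1⟩, fun _ => trivial⟩
    · show True ↔ _
      refine ⟨fun _ => ⟨fun h => Option.some_ne_none u h, fun h => hnone.1 h.2,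
        fun h => hnone.2.1 h.2⟩, fun _ => trivial⟩
    · show G.2.Adj u v ↔ _
      have h1 := hadj u v
      rw [h1]
      constructor
      · rintro ⟨h2, h3, h4⟩
        exact ⟨fun h => h2 (Option.some_injective _ h), h3, h4⟩
      · rintro ⟨h2, h3, h4⟩
        exact ⟨fun h => h2 (congrArg some h), h3, h4⟩

theorem splits_coneBip (n m k : ℕ) : Splits n (coneBip k m) m k := by
  induction k with
  | zero => exact splits_zero n m
  | succ k ih =>
    have : coneBip (k + 1) m = coneStep (coneBip k m) := by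
      unfold coneBip
      rw [Function.iterate_succ_apply']
    rw [this]
    exact splits_succ ih

/-- the members of the family are the sets `XST S T` -/
theorem family_XST {n d : ℕ} {X : Set (Sym2 (Fin n))} (hX : X ∈ family n d) :
    ∃ S T : Finset (Fin n), S.card = d + 1 ∧ T.card = d + 1 ∧ S ≠ T ∧ X = XST S T := by
  classical
  obtain ⟨k, hk, φ, rfl⟩ := hX
  obtain ⟨A, B, C, hAB, hAC, hBC, hA, hB, hC, hr, hadj⟩ := splits_coneBip n (d + 1 - k) k φ
  refine ⟨A ∪ C, B ∪ C, ?_, ?_, ?_, ?_⟩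
  · rw [Finset.card_union_of_disjoint hAC]; omega
  · rw [Finset.card_union_of_disjoint hBC]; omega
  · intro h
    have hne : A.Nonempty := by
      rw [← Finset.card_pos]; omega
    obtain ⟨x, hx⟩ := hne
    have h1 : x ∈ B ∪ C := by rw [← h]; exact Finset.mem_union_left _ hx
    rw [Finset.mem_union] at h1
    rcases h1 with h1 | h1
    · exact Finset.disjoint_left.1 hAB hx h1
    · exact Finset.disjoint_left.1 hAC hx h1
  · ext e
    induction e with | _ x y =>
    rw [SimpleGraph.mem_edgeSet, SimpleGraph.map_adj, mem_XST]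
    have nAB : ∀ z, z ∈ A → z ∉ B := fun z h1 h2 => Finset.disjoint_left.1 hAB h1 h2
    have nAC : ∀ z, z ∈ A → z ∉ C := fun z h1 h2 => Finset.disjoint_left.1 hAC h1 h2
    have nBC : ∀ z, z ∈ B → z ∉ C := fun z h1 h2 => Finset.disjoint_left.1 hBC h1 h2
    constructor
    · rintro ⟨u, v, huv, rfl, rfl⟩
      rw [hadj] at huv
      obtain ⟨h1, h2, h3⟩ := huv
      have hu := (hr (φ u)).1 ⟨u, rfl⟩
      have hv := (hr (φ v)).1 ⟨v, rfl⟩
      refine ⟨fun h => h1 (φ.injective h), ?_⟩
      simp only [Finset.mem_union]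
      tauto
    · rintro ⟨hne, h⟩
      simp only [Finset.mem_union] at h
      have hx : x ∈ Set.range φ := (hr x).2 (by tauto)
      have hy : y ∈ Set.range φ := (hr y).2 (by tauto)
      obtain ⟨u, rfl⟩ := hx
      obtain ⟨v, rfl⟩ := hy
      refine ⟨u, v, ?_, rfl, rfl⟩
      rw [hadj]
      refine ⟨fun h => hne (by rw [h]), ?_, ?_⟩
      · rintro ⟨h1, h2⟩
        have := nAB _ h1
        have := nAB _ h2
        have := nAC _ h1
        have := nAC _ h2
        tauto
      · rintro ⟨h1, h2⟩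
        have := nBC _ h1
        have := nBC _ h2
        have := fun h => nAB _ h h1
        have := fun h => nAB _ h h2
        tauto

theorem family_circuit {n d : ℕ} {p : Fin n → Fin d → ℝ} (hp : Gen p) (hn : 2 * d + 2 ≤ n)
    {X : Set (Sym2 (Fin n))} (hX : X ∈ family n d) : (hyper p).IsCircuit X := by
  obtain ⟨S, T, hS, hT, hne, rfl⟩ := family_XST hX
  exact XST_circuit hp hS hT hne hn

/-- members of the family have at most `(d+1)^2` elements -/
theorem family_card {n d : ℕ} {X : Set (Sym2 (Fin n))} (hX : X ∈ family n d) :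
    X.ncard ≤ (d + 1) * (d + 1) := by
  classical
  obtain ⟨S, T, hS, hT, hne, rfl⟩ := family_XST hX
  have h1 : XST S T ⊆ (((S ×ˢ T).image (fun x : Fin n × Fin n => s(x.1, x.2)) :
      Finset (Sym2 (Fin n))) : Set (Sym2 (Fin n))) := by
    rintro e ⟨i, j, rfl, -, hi, hj⟩
    rw [Finset.mem_coe, Finset.mem_image]
    exact ⟨(i, j), Finset.mem_product.2 ⟨hi, hj⟩, rfl⟩
  calc (XST S T).ncard ≤ _ := Set.ncard_le_ncard h1 (Finset.finite_toSet _)
    _ = ((S ×ˢ T).image (fun x : Fin n × Fin n => s(x.1, x.2))).card :=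
        Set.ncard_coe_finset _
    _ ≤ (S ×ˢ T).card := Finset.card_image_le
    _ = (d + 1) * (d + 1) := by rw [Finset.card_product, hS, hT]

end Pool.Agent.helper49.Hyp
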