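import Mathlib

/-!
Cubic multigraphs, their isomorphism classes, and the graph of Whitehead moves.
-/

open Equiv

namespace Pool.Agent.helper49.Wh

/-- The edge-ends of a cubic multigraph with vertex set `Fin n`: the pair `(v, i)` is the `i`-th
of the three edge-ends at the vertex `v`. -/
abbrev EdgeEnd (n : ℕ) : Type := Fin n × Fin 3

/-- A cubic graph with vertex set `Fin n`: a finite connected multigraph (loops and multiple
edges allowed) in which every vertex has degree three, a loop counting twice. The three
edge-ends at each vertex `v` are `(v, 0), (v, 1), (v, 2)`, and `mate` is the fixed-point-free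
involution sending each edge-end to the other end of its edge. -/
structure CubicGraph (n : ℕ) where
  /-- The other end of the same edge. -/
  mate : Perm (EdgeEnd n)
  mate_mate : ∀ x, mate (mate x) = x
  mate_ne : ∀ x, mate x ≠ x
  connected : ∀ u v : Fin n,
    Relation.ReflTransGen (fun a b => ∃ i j, mate (a, i) = (b, j)) u v

/-- Isomorphism of cubic graphs: a bijection `ρ` of the vertices and a bijection `σ` of the
edge-ends such that `σ` maps the edge-ends at `v` to the edge-ends at `ρ v` and the two ends of
each edge to the two ends of an edge. -/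
def Isomorphic {n : ℕ} (G H : CubicGraph n) : Prop :=
  ∃ (ρ : Perm (Fin n)) (σ : Perm (EdgeEnd n)),
    (∀ x, (σ x).1 = ρ x.1) ∧ ∀ x, σ (G.mate x) = H.mate (σ x)

/-- `H` arises from `G` by a Whitehead move: `d` and `G.mate d` are the ends, at distinct
vertices `u = d.1` and `v = (G.mate d).1`, of the edge `e`; `f` is an edge-end at `u` other than
`d` and `g` is an edge-end at `v` other than `G.mate d`; the edge-ends `f` and `g` exchange their
places. -/
def WhiteheadMove {n : ℕ} (G H : CubicGraph n) : Prop :=
  ∃ d f g : EdgeEnd n, (G.mate d).1 ≠ d.1 ∧ f.1 = d.1 ∧ f ≠ d ∧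
    g.1 = (G.mate d).1 ∧ g ≠ G.mate d ∧ H.mate = swap f g * G.mate * swap f g

theorem isomorphic_refl {n : ℕ} (G : CubicGraph n) : Isomorphic G G :=
  ⟨1, 1, fun _ => rfl, fun _ => rfl⟩

theorem Isomorphic.symm {n : ℕ} {G H : CubicGraph n} (h : Isomorphic G H) : Isomorphic H G := by
  obtain ⟨ρ, σ, h1, h2⟩ := h
  refine ⟨ρ⁻¹, σ⁻¹, fun x => ?_, fun x => ?_⟩
  · have h3 := h1 (σ⁻¹ x)
    have h4 : σ (σ⁻¹ x) = x := by simp
    rw [h4] at h3
    rw [h3]
    simp
  · have h3 := h2 (σ⁻¹ x)
    have h4 : σ (σ⁻¹ x) = x := by simp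
    rw [h4] at h3
    rw [← h3]
    simp

theorem Isomorphic.trans {n : ℕ} {G H K : CubicGraph n} (h : Isomorphic G H)
    (h' : Isomorphic H K) : Isomorphic G K := by
  obtain ⟨ρ, σ, h1, h2⟩ := h
  obtain ⟨ρ', σ', h1', h2'⟩ := h'
  refine ⟨ρ' * ρ, σ' * σ, fun x => ?_, fun x => ?_⟩
  · simp [h1, h1']
  · simp [h2, h2']

/-- Isomorphism as an equivalence relation. -/
instance isoSetoid (n : ℕ) : Setoid (CubicGraph n) where
  r := Isomorphic
  iseqv := ⟨isomorphic_refl, Isomorphic.symm, Isomorphic.trans⟩

/-- The isomorphism classes of `n`-vertex cubic graphs. -/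
def IsoClass (n : ℕ) : Type := Quotient (isoSetoid n)

/-- The graph `Γ^u_n`: its vertices are the isomorphism classes of `n`-vertex cubic graphs, and
two distinct classes are adjacent if some Whitehead move turns a graph in one of them into a
graph in the other. -/
def Gamma (n : ℕ) : SimpleGraph (IsoClass n) :=
  SimpleGraph.fromRel (fun x y => ∃ G H : CubicGraph n,
    (Quotient.mk _ G : IsoClass n) = x ∧ (Quotient.mk _ H : IsoClass n) = y ∧ WhiteheadMove G H)

/-- The degree of an isomorphism class in `Γ^u_n`. -/
noncomputable def deg {n : ℕ} (x : IsoClass n) : ℕ := ((Gamma n).neighborSet x).ncard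

end Pool.Agent.helper49.Wh
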