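import Pool.Agent.helper49.WhShear
import Pool.Agent.helper49.WhDefs

/-!
Fibre-preserving permutations, Whitehead moves and local invariants.
-/

open Equiv Finset

namespace Pool.Agent.helper49.Wh

variable {n : ℕ}

/-- Fibre-preserving permutations of the edge-ends. -/
def FP (σ : Perm (EdgeEnd n)) : Prop := ∃ ρ : Perm (Fin n), ∀ x, (σ x).1 = ρ x.1

/-- Permutations of the edge-ends fixing every vertex. -/
def FP0 (σ : Perm (EdgeEnd n)) : Prop := ∀ x, (σ x).1 = x.1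

theorem FP0.fp {σ : Perm (EdgeEnd n)} (h : FP0 σ) : FP σ := ⟨1, h⟩

theorem FP.mul {σ τ : Perm (EdgeEnd n)} (h : FP σ) (h' : FP τ) : FP (σ * τ) := by
  obtain ⟨ρ, h⟩ := h
  obtain ⟨ρ', h'⟩ := h'
  exact ⟨ρ * ρ', fun x => by simp [h, h']⟩

theorem FP.inv {σ : Perm (EdgeEnd n)} (h : FP σ) : FP σ⁻¹ := by
  obtain ⟨ρ, h⟩ := h
  refine ⟨ρ⁻¹, fun x => ?_⟩
  have h3 := h (σ⁻¹ x)
  have h4 : σ (σ⁻¹ x) = x := by simp
  rw [h4] at h3
  rw [h3]
  simp

theorem FP0.mul {σ τ : Perm (EdgeEnd n)} (h : FP0 σ) (h' : FP0 τ) : FP0 (σ * τ) := by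
  intro x
  rw [Perm.mul_apply, h, h']

theorem FP0.inv {σ : Perm (EdgeEnd n)} (h : FP0 σ) : FP0 σ⁻¹ := by
  intro x
  have h3 := h (σ⁻¹ x)
  have h4 : σ (σ⁻¹ x) = x := by simp
  rw [h4] at h3
  exact h3.symm

theorem FP.exists_sh {σ : Perm (EdgeEnd n)} (h : FP σ) :
    ∃ (ρ : Perm (Fin n)) (κ : Fin n → Perm (Fin 3)), σ = sh ρ κ := by
  obtain ⟨ρ, h⟩ := h
  have hinj : ∀ v, Function.Injective (fun i : Fin 3 => (σ (v, i)).2) := by
    intro v i j hij
    have : σ (v, i) = σ (v, j) := by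
      apply Prod.ext
      · rw [h, h]
      · exact hij
    have := σ.injective this
    simpa using this
  refine ⟨ρ, fun v => Equiv.ofBijective _ (Finite.injective_iff_bijective.mp (hinj v)), ?_⟩
  ext x
  · rw [h, sh_apply]
  · rw [sh_apply]
    rfl

theorem fp_sh (ρ : Perm (Fin n)) (κ : Fin n → Perm (Fin 3)) : FP (sh ρ κ) :=
  ⟨ρ, fun _ => rfl⟩

theorem sh_fp0 {ρ : Perm (Fin n)} {κ : Fin n → Perm (Fin 3)} (h : ρ = 1) : FP0 (sh ρ κ) := by
  intro x
  rw [sh_apply, h]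
  rfl

theorem isMat_conj {σ τ : Perm (EdgeEnd n)} (h : IsMat τ) : IsMat (σ * τ * σ⁻¹) := by
  refine ⟨fun x => ?_, fun x hx => ?_⟩
  · simp [h.1]
  · apply h.2 (σ⁻¹ x)
    have := congrArg (fun y => σ⁻¹ y) hx
    simpa using this

/-- The effect of a move: the edge-ends `f` and `g` are exchanged. -/
def mv (τ : Perm (EdgeEnd n)) (f g : EdgeEnd n) : Perm (EdgeEnd n) := swap f g * τ * swap f g

theorem mv_isMat {τ : Perm (EdgeEnd n)} (h : IsMat τ) (f g : EdgeEnd n) : IsMat (mv τ f g) := by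
  have := isMat_conj (σ := swap f g) h
  simpa [mv] using this

/-- Connectedness. -/
def Conn (τ : Perm (EdgeEnd n)) : Prop := ∀ u v : Fin n,
    Relation.ReflTransGen (fun a b => ∃ i j, τ (a, i) = (b, j)) u v

/-- Condition for `(d, f, g)` to describe a Whitehead move. -/
def Valid (τ : Perm (EdgeEnd n)) (d f g : EdgeEnd n) : Prop :=
  (τ d).1 ≠ d.1 ∧ f.1 = d.1 ∧ f ≠ d ∧ g.1 = (τ d).1 ∧ g ≠ τ d

theorem mv_conn {τ : Perm (EdgeEnd n)} (hm : IsMat τ) (hc : Conn τ) {d f g : EdgeEnd n}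
    (hv : Valid τ d f g) : Conn (mv τ f g) := by
  obtain ⟨h1, h2, h3, h4, h5⟩ := hv
  set R := fun a b : Fin n => ∃ i j, (mv τ f g) (a, i) = (b, j) with hR
  have hdg : d ≠ g := by
    intro h; apply h1; rw [← h4, ← h]
  have htf : τ d ≠ f := by
    intro h; apply h1; rw [h, h2]
  have e1 : mv τ f g d = τ d := by
    simp only [mv, Perm.mul_apply]
    rw [swap_apply_of_ne_of_ne h3.symm hdg, swap_apply_of_ne_of_ne htf h5.symm]
  have e2 : mv τ f g (τ d) = d := by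
    simp only [mv, Perm.mul_apply]
    rw [swap_apply_of_ne_of_ne htf h5.symm, hm.1, swap_apply_of_ne_of_ne h3.symm hdg]
  have hfg : R f.1 g.1 := ⟨d.2, (τ d).2, by
    have : ((f.1, d.2) : EdgeEnd n) = d := Prod.ext h2 rfl
    rw [this, e1]
    exact Prod.ext h4.symm rfl⟩
  have hgf : R g.1 f.1 := ⟨(τ d).2, d.2, by
    have : ((g.1, (τ d).2) : EdgeEnd n) = τ d := Prod.ext h4 rfl
    rw [this, e2]
    exact Prod.ext h2.symm rfl⟩
  have hs : ∀ p : EdgeEnd n, Relation.ReflTransGen R p.1 (swap f g p).1 ∧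
      Relation.ReflTransGen R (swap f g p).1 p.1 := by
    intro p
    by_cases hpf : p = f
    · subst hpf
      rw [swap_apply_left]
      exact ⟨Relation.ReflTransGen.single hfg, Relation.ReflTransGen.single hgf⟩
    · by_cases hpg : p = g
      · subst hpg
        rw [swap_apply_right]
        exact ⟨Relation.ReflTransGen.single hgf, Relation.ReflTransGen.single hfg⟩
      · rw [swap_apply_of_ne_of_ne hpf hpg]
        exact ⟨Relation.ReflTransGen.refl, Relation.ReflTransGen.refl⟩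
  have hstep : ∀ a b : Fin n, (∃ i j, τ (a, i) = (b, j)) → Relation.ReflTransGen R a b := by
    rintro a b ⟨i, j, hij⟩
    have h6 := (hs (a, i)).1
    have h7 := (hs (b, j)).2
    have h8 : R (swap f g (a, i)).1 (swap f g (b, j)).1 := by
      refine ⟨(swap f g (a, i)).2, (swap f g (b, j)).2, ?_⟩
      change mv τ f g (swap f g (a, i)) = swap f g (b, j)
      simp only [mv, Perm.mul_apply, swap_apply_self]
      rw [hij]
    exact (h6.tail h8).trans h7
  intro u v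
  have := hc u v
  induction this with
  | refl => exact Relation.ReflTransGen.refl
  | tail _ hbc ih => exact ih.trans (hstep _ _ hbc)

theorem conj_conn {τ σ : Perm (EdgeEnd n)} (hc : Conn τ) (hσ : FP σ) : Conn (σ * τ * σ⁻¹) := by
  obtain ⟨ρ, hρ⟩ := hσ
  have hstep : ∀ a b : Fin n, (∃ i j, τ (a, i) = (b, j)) →
      (∃ i j, (σ * τ * σ⁻¹) (ρ a, i) = (ρ b, j)) := by
    rintro a b ⟨i, j, hij⟩
    refine ⟨(σ (a, i)).2, (σ (b, j)).2, ?_⟩
    have e1 : ((ρ a, (σ (a, i)).2) : EdgeEnd n) = σ (a, i) := Prod.ext (hρ (a, i)).symm rfl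
    have e2 : ((ρ b, (σ (b, j)).2) : EdgeEnd n) = σ (b, j) := Prod.ext (hρ (b, j)).symm rfl
    rw [e1, e2, ← hij]
    simp
  intro u v
  have h := hc (ρ⁻¹ u) (ρ⁻¹ v)
  have key : ∀ a b : Fin n, Relation.ReflTransGen (fun a b => ∃ i j, τ (a, i) = (b, j)) a b →
      Relation.ReflTransGen (fun a b => ∃ i j, (σ * τ * σ⁻¹) (a, i) = (b, j)) (ρ a) (ρ b) := by
    intro a b hab
    induction hab with
    | refl => exact Relation.ReflTransGen.refl
    | tail _ hbc ih => exact ih.tail (hstep _ _ hbc)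
  have h2 := key _ _ h
  have e1 : ρ (ρ⁻¹ u) = u := by simp
  have e2 : ρ (ρ⁻¹ v) = v := by simp
  rwa [e1, e2] at h2

/-- Number of edge-ends at `x` whose other end is at `y`. -/
def amat (τ : Perm (EdgeEnd n)) (x y : Fin n) : ℕ :=
  (univ.filter (fun i : Fin 3 => (τ (x, i)).1 = y)).card

/-- A quadratic invariant. -/
def qform (τ : Perm (EdgeEnd n)) : ℤ := ∑ p : EdgeEnd n, (p.1 : ℤ) * ((τ p).1 : ℤ)

theorem qform_eq (τ : Perm (EdgeEnd n)) :
    qform τ = ∑ x : Fin n, (x : ℤ) * ∑ y : Fin n, (amat τ x y : ℤ) * (y : ℤ) := by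
  unfold qform
  rw [Fintype.sum_prod_type]
  apply Finset.sum_congr rfl
  intro x _
  change ∑ i : Fin 3, (x : ℤ) * ((τ (x, i)).1 : ℤ) = _
  rw [← Finset.mul_sum]
  congr 1
  have h : ∀ y : Fin n, (amat τ x y : ℤ) * (y : ℤ) =
      ∑ i ∈ univ.filter (fun i : Fin 3 => (τ (x, i)).1 = y), ((τ (x, i)).1 : ℤ) := by
    intro y
    rw [Finset.sum_congr rfl (g := fun _ => (y : ℤ))]
    · rw [Finset.sum_const, nsmul_eq_mul]; rfl
    · intro i hi
      rw [Finset.mem_filter] at hi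
      rw [hi.2]
  simp only [h]
  rw [Finset.sum_fiberwise_of_maps_to (fun _ _ => Finset.mem_univ _)]

theorem qform_congr {τ τ' : Perm (EdgeEnd n)} (h : amat τ = amat τ') : qform τ = qform τ' := by
  rw [qform_eq, qform_eq, h]

theorem amat_conj {τ τ' σ : Perm (EdgeEnd n)} (hσ : FP0 σ) (h : σ * τ = τ' * σ) :
    amat τ = amat τ' := by
  funext x y
  unfold amat
  refine Finset.card_bij (fun i _ => (σ (x, i)).2) ?_ ?_ ?_
  · intro i hi
    rw [Finset.mem_filter] at hi ⊢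
    refine ⟨Finset.mem_univ _, ?_⟩
    have e1 : ((x, (σ (x, i)).2) : EdgeEnd n) = σ (x, i) := Prod.ext (hσ (x, i)).symm rfl
    have e2 : τ' (σ (x, i)) = σ (τ (x, i)) := by
      have := congrArg (fun f : Perm (EdgeEnd n) => f (x, i)) h
      simpa using this.symm
    rw [e1, e2, hσ]
    exact hi.2
  · intro i _ j _ hij
    have : σ (x, i) = σ (x, j) := by
      apply Prod.ext
      · rw [hσ, hσ]
      · exact hij
    have := σ.injective this
    simpa using this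
  · intro j hj
    rw [Finset.mem_filter] at hj
    refine ⟨(σ⁻¹ (x, j)).2, ?_, ?_⟩
    · rw [Finset.mem_filter]
      refine ⟨Finset.mem_univ _, ?_⟩
      have e1 : ((x, (σ⁻¹ (x, j)).2) : EdgeEnd n) = σ⁻¹ (x, j) :=
        Prod.ext (hσ.inv (x, j)).symm rfl
      rw [e1]
      have e2 : σ (τ (σ⁻¹ (x, j))) = τ' (x, j) := by
        have := congrArg (fun f : Perm (EdgeEnd n) => f (σ⁻¹ (x, j))) h
        simpa using this
      rw [← hσ (τ (σ⁻¹ (x, j))), e2]
      exact hj.2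
    · have e1 : ((x, (σ⁻¹ (x, j)).2) : EdgeEnd n) = σ⁻¹ (x, j) :=
        Prod.ext (hσ.inv (x, j)).symm rfl
      rw [e1]
      simp

theorem qform_mv {τ : Perm (EdgeEnd n)} (hm : IsMat τ) {f g : EdgeEnd n} (hfg : f ≠ g)
    (htfg : τ f ≠ g) :
    qform (mv τ f g) - qform τ =
      2 * (((g.1 : ℤ) - (f.1 : ℤ)) * (((τ f).1 : ℤ) - ((τ g).1 : ℤ))) := by
  have htgf : τ g ≠ f := by
    intro h
    apply htfg
    rw [← h, hm.1]
  have e0 : qform (mv τ f g) =
      ∑ q : EdgeEnd n, ((swap f g q).1 : ℤ) * ((swap f g (τ q)).1 : ℤ) := by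
    unfold qform
    rw [← Equiv.sum_comp (swap f g)]
    apply Finset.sum_congr rfl
    intro q _
    simp [mv]
  rw [e0]
  unfold qform
  rw [← Finset.sum_sub_distrib]
  rw [← Finset.sum_subset (Finset.subset_univ ({f, g, τ f, τ g} : Finset (EdgeEnd n)))]
  · rw [Finset.sum_insert, Finset.sum_insert, Finset.sum_insert, Finset.sum_singleton]
    · rw [hm.1, hm.1, swap_apply_left, swap_apply_right,
        swap_apply_of_ne_of_ne (hm.2 f) htfg, swap_apply_of_ne_of_ne htgf (hm.2 g)]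
      ring
    · simp only [Finset.mem_singleton]
      intro h
      exact hfg (τ.injective h)
    · simp only [Finset.mem_insert, Finset.mem_singleton, not_or]
      exact ⟨htfg.symm, (hm.2 g).symm⟩
    · simp only [Finset.mem_insert, Finset.mem_singleton, not_or]
      exact ⟨hfg, (hm.2 f).symm, htgf.symm⟩
  · intro q _ hq
    simp only [Finset.mem_insert, Finset.mem_singleton, not_or] at hq
    obtain ⟨h1, h2, h3, h4⟩ := hq
    have h5 : τ q ≠ f := by
      intro h; apply h3; rw [← h, hm.1]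
    have h6 : τ q ≠ g := by
      intro h; apply h4; rw [← h, hm.1]
    rw [swap_apply_of_ne_of_ne h1 h2, swap_apply_of_ne_of_ne h5 h6]
    ring

theorem amat_mv_eq {τ : Perm (EdgeEnd n)} {f g : EdgeEnd n} {x y : Fin n}
    (hxf : x ≠ f.1) (hxg : x ≠ g.1) (hyf : y ≠ f.1) (hyg : y ≠ g.1) :
    amat (mv τ f g) x y = amat τ x y := by
  unfold amat
  congr 1
  ext i
  rw [Finset.mem_filter, Finset.mem_filter]
  have h1 : ((x, i) : EdgeEnd n) ≠ f := fun h => hxf (congrArg Prod.fst h)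
  have h2 : ((x, i) : EdgeEnd n) ≠ g := fun h => hxg (congrArg Prod.fst h)
  simp only [mv, Perm.mul_apply, Finset.mem_univ, true_and]
  rw [swap_apply_of_ne_of_ne h1 h2]
  by_cases h3 : τ (x, i) = f
  · rw [h3, swap_apply_left]
    exact ⟨fun h => absurd h.symm hyg, fun h => absurd h.symm hyf⟩
  · by_cases h4 : τ (x, i) = g
    · rw [h4, swap_apply_right]
      exact ⟨fun h => absurd h.symm hyf, fun h => absurd h.symm hyg⟩
    · rw [swap_apply_of_ne_of_ne h3 h4]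

theorem fin3_inv : ∀ p : Fin 3 → Fin 3, (∀ i, p (p i) = i) → ∃ i, p i = i := by decide

theorem fin3_pigeon : ∀ a b c d : Fin 3, a = b ∨ a = c ∨ a = d ∨ b = c ∨ b = d ∨ c = d := by
  decide

theorem exists_nonloop {τ : Perm (EdgeEnd n)} (hm : IsMat τ) (u : Fin n) :
    ∃ d : EdgeEnd n, d.1 = u ∧ (τ d).1 ≠ d.1 := by
  by_contra hcon
  push Not at hcon
  have h1 : ∀ i : Fin 3, (τ (u, i)).1 = u := fun i => hcon (u, i) rfl
  obtain ⟨i, hi⟩ := fin3_inv (fun i => (τ (u, i)).2) (by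
    intro i
    have e1 : ((u, (τ (u, i)).2) : EdgeEnd n) = τ (u, i) := Prod.ext (h1 i).symm rfl
    rw [e1, hm.1])
  apply hm.2 (u, i)
  exact Prod.ext (h1 i) hi

theorem fin3_others : ∀ i : Fin 3, ∃ j k : Fin 3, j ≠ i ∧ k ≠ i ∧ j ≠ k := by decide

theorem exists_nontrivial {τ : Perm (EdgeEnd n)} (hm : IsMat τ) {d : EdgeEnd n}
    (hd : (τ d).1 ≠ d.1) :
    ∃ f g : EdgeEnd n, Valid τ d f g ∧ qform (mv τ f g) ≠ qform τ := by
  obtain ⟨j, k, hj, hk, hjk⟩ := fin3_others d.2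
  obtain ⟨j', k', hj', hk', hjk'⟩ := fin3_others (τ d).2
  set f1 : EdgeEnd n := (d.1, j) with hf1
  set f2 : EdgeEnd n := (d.1, k) with hf2
  set g1 : EdgeEnd n := ((τ d).1, j') with hg1
  set g2 : EdgeEnd n := ((τ d).1, k') with hg2
  have nf1 : f1 ≠ d := fun h => hj (congrArg Prod.snd h)
  have nf2 : f2 ≠ d := fun h => hk (congrArg Prod.snd h)
  have ng1 : g1 ≠ τ d := fun h => hj' (congrArg Prod.snd h)
  have ng2 : g2 ≠ τ d := fun h => hk' (congrArg Prod.snd h)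
  have nff : f1 ≠ f2 := fun h => hjk (congrArg Prod.snd h)
  have ngg : g1 ≠ g2 := fun h => hjk' (congrArg Prod.snd h)
  have nfg : ∀ f g : EdgeEnd n, f.1 = d.1 → g.1 = (τ d).1 → f ≠ g := by
    intro f g h1 h2 h3
    apply hd
    rw [← h1, ← h2, h3]
  have main : ∀ f g : EdgeEnd n, f.1 = d.1 → f ≠ d → g.1 = (τ d).1 → g ≠ τ d → τ f ≠ g →
      (τ f).1 ≠ (τ g).1 → ∃ f g : EdgeEnd n, Valid τ d f g ∧ qform (mv τ f g) ≠ qform τ := by
    intro f g h1 h2 h3 h4 h5 h6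
    refine ⟨f, g, ⟨hd, h1, h2, h3, h4⟩, ?_⟩
    intro h
    have h7 := qform_mv hm (nfg f g h1 h3) h5
    rw [h, sub_self] at h7
    have h8 : ((g.1 : ℤ) - (f.1 : ℤ)) * (((τ f).1 : ℤ) - ((τ g).1 : ℤ)) = 0 := by linarith
    rcases mul_eq_zero.mp h8 with h9 | h9
    · apply hd
      rw [← h1, ← h3]
      apply Fin.ext
      have : (g.1 : ℤ) = (f.1 : ℤ) := by linarith
      exact_mod_cast this
    · apply h6
      apply Fin.ext
      have : ((τ f).1 : ℤ) = ((τ g).1 : ℤ) := by linarith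
      exact_mod_cast this
  by_contra hcon
  have hall : ∀ f g : EdgeEnd n, f.1 = d.1 → f ≠ d → g.1 = (τ d).1 → g ≠ τ d →
      τ f ≠ g → (τ f).1 = (τ g).1 := by
    intro f g h1 h2 h3 h4 h5
    by_contra h6
    exact hcon (main f g h1 h2 h3 h4 h5 h6)
  -- case 1: an edge between `f` and `g`
  have case1 : ∀ f g g' : EdgeEnd n, f.1 = d.1 → f ≠ d → g.1 = (τ d).1 → g ≠ τ d →
      g'.1 = (τ d).1 → g' ≠ τ d → g ≠ g' → τ f ≠ g := by
    intro f g g' h1 h2 h3 h4 h5 h6 h7 h8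
    have h9 : τ f ≠ g' := by rw [h8]; exact h7
    have h10 := hall f g' h1 h2 h5 h6 h9
    rw [h8, h3] at h10
    -- τ g' is at the vertex of τ d
    have h11 : τ g' ≠ τ d := by
      intro h
      have := τ.injective h
      apply hd
      rw [this] at h5
      exact h5.symm
    have h12 : τ g' ≠ g := by
      intro h
      rw [← h8] at h
      exact nfg f g' h1 h5 (τ.injective h).symm
    have h13 : τ g' ≠ g' := hm.2 g'
    rcases fin3_pigeon (τ g').2 (τ d).2 g.2 g'.2 with h | h | h | h | h | h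
    · exact h11 (Prod.ext h10.symm h)
    · exact h12 (Prod.ext (h10.symm.trans h3.symm) h)
    · exact h13 (Prod.ext (h10.symm.trans h5.symm) h)
    · exact h4 (Prod.ext h3 h.symm)
    · exact h6 (Prod.ext h5 h.symm)
    · exact h7 (Prod.ext (h3.trans h5.symm) h)
  have a11 : τ f1 ≠ g1 := case1 f1 g1 g2 rfl nf1 rfl ng1 rfl ng2 ngg
  have a12 : τ f1 ≠ g2 := case1 f1 g2 g1 rfl nf1 rfl ng2 rfl ng1 ngg.symm
  have a21 : τ f2 ≠ g1 := case1 f2 g1 g2 rfl nf2 rfl ng1 rfl ng2 ngg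
  have b11 := hall f1 g1 rfl nf1 rfl ng1 a11
  have b12 := hall f1 g2 rfl nf1 rfl ng2 a12
  have b21 := hall f2 g1 rfl nf2 rfl ng1 a21
  rcases fin3_pigeon (τ f1).2 (τ f2).2 (τ g1).2 (τ g2).2 with h | h | h | h | h | h
  · exact nff (τ.injective (Prod.ext (b11.trans b21.symm) h))
  · exact nfg f1 g1 rfl rfl (τ.injective (Prod.ext b11 h))
  · exact nfg f1 g2 rfl rfl (τ.injective (Prod.ext b12 h))
  · exact nfg f2 g1 rfl rfl (τ.injective (Prod.ext b21 h))
  · exact nfg f2 g2 rfl rfl (τ.injective (Prod.ext (b21.trans (b11.symm.trans b12)) h))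
  · exact ngg (τ.injective (Prod.ext (b11.symm.trans b12) h))

end Pool.Agent.helper49.Wh
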