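import Pool.Agent.helper49.WhMat

/-!
A bound for the number of perfect matchings commuting with a given permutation.
-/

open Equiv Finset

namespace Pool.Agent.helper49.Wh

variable {α : Type*}

theorem antipode (π : Perm α) (x : α) (k l : ℤ) (hk : (π ^ (2 * k)) x = x) (hk' : (π ^ k) x ≠ x)
    (hl : (π ^ (2 * l)) x = x) (hl' : (π ^ l) x ≠ x) : (π ^ k) x = (π ^ l) x := by
  have key : ∀ j : ℤ, (π ^ j) x = x ↔ (Function.minimalPeriod (π • ·) x : ℤ) ∣ j := by
    intro j
    have := MulAction.zpow_smul_eq_iff_minimalPeriod_dvd (a := π) (b := x) (n := j)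
    simpa [Perm.smul_def] using this
  rw [key] at hk hl
  rw [Ne, key] at hk' hl'
  set L : ℤ := (Function.minimalPeriod (π • ·) x : ℤ) with hL
  obtain ⟨a, ha⟩ := hk
  obtain ⟨b, hb⟩ := hl
  have ha' : ¬ (2 : ℤ) ∣ a := by
    rintro ⟨a', rfl⟩
    apply hk'
    exact ⟨a', by linarith [mul_left_comm L 2 a']⟩
  have hb' : ¬ (2 : ℤ) ∣ b := by
    rintro ⟨b', rfl⟩
    apply hl'
    exact ⟨b', by linarith [mul_left_comm L 2 b']⟩
  have hab : ∃ c, a - b = 2 * c := by
    have : (a - b) % 2 = 0 := by omega
    exact ⟨(a - b) / 2, by omega⟩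
  obtain ⟨c, hc⟩ := hab
  have h1 : k - l = L * c := by
    have : 2 * (k - l) = 2 * (L * c) := by
      calc 2 * (k - l) = 2 * k - 2 * l := by ring
        _ = L * a - L * b := by rw [ha, hb]
        _ = L * (a - b) := by ring
        _ = 2 * (L * c) := by rw [hc]; ring
    linarith
  have h2 : (π ^ (k - l)) x = x := by
    rw [key, h1]
    exact dvd_mul_right _ _
  have h3 : k = l + (k - l) := by ring
  rw [h3, zpow_add, Perm.mul_apply, h2]

variable [Fintype α] [DecidableEq α]

/-- The matchings commuting with `π`. -/
noncomputable def comm (π : Perm α) : Finset (Perm α) := (mats α).filter (fun τ => τ * π = π * τ)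

theorem mem_comm {π τ : Perm α} : τ ∈ comm π ↔ IsMat τ ∧ τ * π = π * τ := by
  simp [comm, mem_mats]

omit [Fintype α] [DecidableEq α] in
theorem comm_apply {π τ : Perm α} (h : τ * π = π * τ) (x : α) : τ (π x) = π (τ x) := by
  have := congrArg (fun f : Perm α => f x) h
  simpa using this

omit [Fintype α] [DecidableEq α] in
theorem comm_zpow {π τ : Perm α} (h : τ * π = π * τ) (k : ℤ) (x : α) :
    τ ((π ^ k) x) = (π ^ k) (τ x) := by
  have h1 : Commute τ π := h
  have h2 : τ * π ^ k = π ^ k * τ := (h1.zpow_right k)
  have := congrArg (fun f : Perm α => f x) h2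
  simpa using this

theorem comm_support {π τ : Perm α} (h : τ * π = π * τ) (x : α) :
    τ x ∈ π.support ↔ x ∈ π.support := by
  simp only [Perm.mem_support]
  rw [← comm_apply h, Ne, EmbeddingLike.apply_eq_iff_eq]

/-- A representative of the support of a permutation different from the identity. -/
noncomputable def rep (x0 : α) (c : Perm α) : α := by
  classical
  exact if h : c.support.Nonempty then h.choose else x0

theorem rep_mem (x0 : α) {c : Perm α} (hc : c.IsCycle) : rep x0 c ∈ c.support := by
  have h : c.support.Nonempty := hc.nonempty_support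
  unfold rep
  rw [dif_pos h]
  exact h.choose_spec

/-- Index of a permutation. -/
noncomputable def idx (c : Perm α) : ℕ := (Fintype.equivFin (Perm α) c : ℕ)

theorem idx_inj {c d : Perm α} (h : idx c = idx d) : c = d := by
  unfold idx at h
  exact (Fintype.equivFin (Perm α)).injective (Fin.ext h)

open Classical in
/-- The choice function recording a commuting matching on the support. -/
noncomputable def gfun (x0 : α) (π τ : Perm α) (c : {c // c ∈ π.cycleFactorsFinset}) : Option α :=
  if idx (c : Perm α) < idx (τ * (c : Perm α) * τ⁻¹) then some (τ (rep x0 (c : Perm α))) else none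

theorem conj_mem {π τ : Perm α} (h : τ * π = π * τ) {c : Perm α}
    (hc : c ∈ π.cycleFactorsFinset) : τ * c * τ⁻¹ ∈ π.cycleFactorsFinset := by
  have h1 := (Perm.mem_cycleFactorsFinset_conj π τ c).mpr hc
  have h2 : τ * π * τ⁻¹ = π := by rw [h]; group
  rwa [h2] at h1

omit [Fintype α] [DecidableEq α] in
theorem conj_conj {τ : Perm α} (hτ : IsMat τ) (c : Perm α) : τ * (τ * c * τ⁻¹) * τ⁻¹ = c := by
  have h1 : τ * τ = 1 := by rw [← pow_two]; exact hτ.sq
  have h2 : τ⁻¹ = τ := inv_eq_of_mul_eq_one_left h1
  rw [h2]
  calc τ * (τ * c * τ) * τ = (τ * τ) * c * (τ * τ) := by group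
    _ = c := by rw [h1]; simp

/-- Two commuting matchings agreeing at one point of a cycle agree on that cycle. -/
theorem agree_cycle {π τ τ' c : Perm α} (h : τ * π = π * τ) (h' : τ' * π = π * τ')
    (hc : c ∈ π.cycleFactorsFinset) {y : α} (hy : y ∈ c.support) (hyy : τ y = τ' y)
    {x : α} (hx : x ∈ c.support) : τ x = τ' x := by
  have h1 := Perm.cycle_is_cycleOf hy hc
  have h2 : x ∈ (π.cycleOf y).support := by rw [← h1]; exact hx
  rw [Perm.mem_support_cycleOf_iff] at h2
  obtain ⟨k, hk⟩ := h2.1
  rw [← hk, comm_zpow h, comm_zpow h', hyy]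

/-- Two commuting matchings agreeing on a cycle agree on its image. -/
theorem agree_image {τ τ' c : Perm α} (hm : IsMat τ) (hm' : IsMat τ')
    (hag : ∀ x ∈ c.support, τ x = τ' x) {x : α} (hx : x ∈ (τ * c * τ⁻¹).support) :
    τ x = τ' x := by
  rw [Perm.support_conj] at hx
  simp only [Finset.mem_map, Equiv.coe_toEmbedding] at hx
  obtain ⟨y, hy, rfl⟩ := hx
  have h1 := hag y hy
  rw [hm.1 y, h1, hm'.1 y]

theorem gfun_inj (x0 : α) {π τ τ' : Perm α} (hm : IsMat τ) (hm' : IsMat τ')
    (h : τ * π = π * τ) (h' : τ' * π = π * τ')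
    (hg : gfun x0 π τ = gfun x0 π τ') {x : α} (hx : x ∈ π.support) : τ x = τ' x := by
  have hc : π.cycleOf x ∈ π.cycleFactorsFinset := Perm.cycleOf_mem_cycleFactorsFinset_iff.mpr hx
  have hxc : x ∈ (π.cycleOf x).support := by
    rw [Perm.mem_support_cycleOf_iff]
    exact ⟨Perm.SameCycle.refl _ _, hx⟩
  set c := π.cycleOf x with hcdef
  have hcyc : c.IsCycle := (Perm.mem_cycleFactorsFinset_iff.mp hc).1
  -- general facts
  have main : ∀ (τ τ' : Perm α), IsMat τ → IsMat τ' → τ * π = π * τ → τ' * π = π * τ' →
      gfun x0 π τ = gfun x0 π τ' → ∀ d ∈ π.cycleFactorsFinset, idx d < idx (τ * d * τ⁻¹) →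
      ∀ y ∈ d.support, τ y = τ' y := by
    intro τ τ' hm hm' h h' hg d hd hlt y hy
    have h1 := congrFun hg ⟨d, hd⟩
    have h2 : gfun x0 π τ ⟨d, hd⟩ = some (τ (rep x0 d)) := by
      unfold gfun
      simp only
      rw [if_pos hlt]
    rw [h2] at h1
    have h3 : gfun x0 π τ' ⟨d, hd⟩ = some (τ' (rep x0 d)) := by
      by_cases hlt' : idx d < idx (τ' * d * τ'⁻¹)
      · unfold gfun
        simp only
        rw [if_pos hlt']
      · have : gfun x0 π τ' ⟨d, hd⟩ = none := by
          unfold gfun
          simp only
          rw [if_neg hlt']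
        rw [this] at h1
        exact absurd h1 (by simp)
    rw [h3] at h1
    have h4 : τ (rep x0 d) = τ' (rep x0 d) := Option.some_injective _ h1
    have hdc : d.IsCycle := (Perm.mem_cycleFactorsFinset_iff.mp hd).1
    exact agree_cycle h h' hd (rep_mem x0 hdc) h4 hy
  have main2 : ∀ (τ τ' : Perm α), IsMat τ → IsMat τ' → τ * π = π * τ → τ' * π = π * τ' →
      gfun x0 π τ = gfun x0 π τ' → idx (τ * c * τ⁻¹) < idx c → τ x = τ' x := by
    intro τ τ' hm hm' h h' hg hlt
    have hd : τ * c * τ⁻¹ ∈ π.cycleFactorsFinset := conj_mem h hc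
    have h1 : idx (τ * c * τ⁻¹) < idx (τ * (τ * c * τ⁻¹) * τ⁻¹) := by
      rw [conj_conj hm]
      exact hlt
    have h2 := main τ τ' hm hm' h h' hg _ hd h1
    refine agree_image hm hm' h2 ?_
    rw [conj_conj hm]
    exact hxc
  rcases lt_trichotomy (idx c) (idx (τ * c * τ⁻¹)) with h1 | h1 | h1
  · exact main τ τ' hm hm' h h' hg c hc h1 x hxc
  · rcases lt_trichotomy (idx c) (idx (τ' * c * τ'⁻¹)) with h2 | h2 | h2
    · exact (main τ' τ hm' hm h' h hg.symm c hc h2 x hxc).symm
    · -- both fix the cycle
      have e1 := (idx_inj h1).symm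
      have e2 := (idx_inj h2).symm
      have aux : ∀ τ : Perm α, IsMat τ → τ * π = π * τ → τ * c * τ⁻¹ = c →
          ∃ k : ℤ, (π ^ k) x = τ x ∧ (π ^ (2 * k)) x = x ∧ (π ^ k) x ≠ x := by
        intro τ hm h e
        have h3 : τ x ∈ c.support := by
          rw [← e, Perm.support_conj]
          simp only [Finset.mem_map, Equiv.coe_toEmbedding]
          exact ⟨x, hxc, rfl⟩
        rw [hcdef, Perm.mem_support_cycleOf_iff] at h3
        obtain ⟨k, hk⟩ := h3.1
        refine ⟨k, hk, ?_, ?_⟩
        · have h4 : (π ^ k) (τ x) = x := by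
            rw [← comm_zpow h, hk, hm.1]
          have : (2 : ℤ) * k = k + k := by ring
          rw [this, zpow_add, Perm.mul_apply, hk, h4]
        · rw [hk]
          exact hm.2 x
      obtain ⟨k, hk1, hk2, hk3⟩ := aux τ hm h e1
      obtain ⟨l, hl1, hl2, hl3⟩ := aux τ' hm' h' e2
      rw [← hk1, ← hl1]
      exact antipode π x k l hk2 hk3 hl2 hl3
    · exact (main2 τ' τ hm' hm h' h hg.symm h2).symm
  · exact main2 τ τ' hm hm' h h' hg h1

/-- The target of the choice functions. -/
noncomputable def gset (π : Perm α) : Finset ({c // c ∈ π.cycleFactorsFinset} → Option α) := by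
  classical
  exact univ.filter (fun g => (∀ c x, g c = some x → x ∈ π.support) ∧
    2 * (univ.filter (fun c => g c ≠ none)).card ≤ π.cycleFactorsFinset.card)

theorem card_gset_le (π : Perm α) : (gset π).card ≤
    2 ^ π.cycleFactorsFinset.card * π.support.card ^ (π.cycleFactorsFinset.card / 2) := by
  classical
  set m := π.support.card with hm
  set o := π.cycleFactorsFinset.card with ho
  have hcardC : Fintype.card {c // c ∈ π.cycleFactorsFinset} = o := by
    rw [Fintype.card_coe]
  let P : Finset {c // c ∈ π.cycleFactorsFinset} →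
      Finset ({c // c ∈ π.cycleFactorsFinset} → Option α) := fun A =>
    Fintype.piFinset (fun c => if c ∈ A then π.support.map ⟨some, Option.some_injective _⟩
      else {none})
  have hP : ∀ A, (P A).card = m ^ A.card := by
    intro A
    simp only [P, Fintype.card_piFinset]
    have : ∀ c, (if c ∈ A then π.support.map ⟨some, Option.some_injective α⟩
        else {none}).card = if c ∈ A then m else 1 := by
      intro c
      split_ifs <;> simp [hm]
    simp only [this]
    rw [Finset.prod_ite, Finset.prod_const, Finset.prod_const_one, mul_one]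
    have h2 : (univ.filter (fun c => c ∈ A)) = A := by
      ext c
      simp only [Finset.mem_filter, Finset.mem_univ, true_and]
    rw [h2]
  have hsub : gset π ⊆ ((univ : Finset (Finset {c // c ∈ π.cycleFactorsFinset})).filter
      (fun A => 2 * A.card ≤ o)).biUnion P := by
    intro g hg
    simp only [gset, Finset.mem_filter, Finset.mem_univ, true_and] at hg
    simp only [Finset.mem_biUnion, Finset.mem_filter, Finset.mem_univ, true_and, P,
      Fintype.mem_piFinset]
    refine ⟨univ.filter (fun c => g c ≠ none), hg.2, fun c => ?_⟩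
    by_cases hc : g c = none
    · simp [hc]
    · obtain ⟨x, hx⟩ := Option.ne_none_iff_exists'.mp hc
      have := hg.1 c x hx
      simp [hx]
      simpa using this
  calc (gset π).card ≤ _ := Finset.card_le_card hsub
    _ ≤ ∑ A ∈ (univ : Finset (Finset {c // c ∈ π.cycleFactorsFinset})).filter
      (fun A => 2 * A.card ≤ o), (P A).card := Finset.card_biUnion_le
    _ ≤ ∑ A ∈ (univ : Finset (Finset {c // c ∈ π.cycleFactorsFinset})).filter
      (fun A => 2 * A.card ≤ o), m ^ (o / 2) := by
        apply Finset.sum_le_sum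
        intro A hA
        simp only [Finset.mem_filter, Finset.mem_univ, true_and] at hA
        rw [hP]
        rcases Nat.eq_zero_or_pos m with h0 | h0
        · have hπ : π = 1 := by
            rw [← Perm.support_eq_empty_iff, ← Finset.card_eq_zero]
            exact h0
          have ho0 : o = 0 := by
            rw [ho, hπ]
            simp
          have : A.card = 0 := by omega
          rw [this, ho0]
        · exact Nat.pow_le_pow_right h0 (by omega)
    _ ≤ 2 ^ o * m ^ (o / 2) := by
        rw [Finset.sum_const, smul_eq_mul]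
        apply Nat.mul_le_mul_right
        calc _ ≤ (univ : Finset (Finset {c // c ∈ π.cycleFactorsFinset})).card :=
              Finset.card_filter_le _ _
          _ = 2 ^ o := by
            rw [Finset.card_univ, Fintype.card_finset, hcardC]

theorem gfun_mem (x0 : α) {π τ : Perm α} (hm : IsMat τ) (h : τ * π = π * τ) :
    gfun x0 π τ ∈ gset π := by
  classical
  simp only [gset, Finset.mem_filter, Finset.mem_univ, true_and]
  constructor
  · intro c x hx
    unfold gfun at hx
    split_ifs at hx with h1
    have h2 : τ (rep x0 (c : Perm α)) = x := Option.some_injective _ hx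
    rw [← h2, comm_support h]
    exact Perm.mem_cycleFactorsFinset_support_le c.2
      (rep_mem x0 (Perm.mem_cycleFactorsFinset_iff.mp c.2).1)
  · set A := univ.filter (fun c => gfun x0 π τ c ≠ none) with hA
    have hAi : ∀ c, c ∈ A ↔ idx (c : Perm α) < idx (τ * (c : Perm α) * τ⁻¹) := by
      intro c
      rw [hA, Finset.mem_filter]
      by_cases h1 : idx (c : Perm α) < idx (τ * (c : Perm α) * τ⁻¹)
      · have : gfun x0 π τ c = some (τ (rep x0 (c : Perm α))) := by
          unfold gfun
          rw [if_pos h1]
        simp [this, h1]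
      · have : gfun x0 π τ c = none := by
          unfold gfun
          rw [if_neg h1]
        simp only [this, ne_eq, not_true_eq_false, and_false, false_iff]
        exact h1
    let f : {c // c ∈ π.cycleFactorsFinset} → {c // c ∈ π.cycleFactorsFinset} :=
      fun c => ⟨τ * (c : Perm α) * τ⁻¹, conj_mem h c.2⟩
    have hfinj : Function.Injective f := by
      intro c d hcd
      have : τ * (c : Perm α) * τ⁻¹ = τ * (d : Perm α) * τ⁻¹ := congrArg Subtype.val hcd
      ext1
      simpa using this
    have hdisj : Disjoint A (A.image f) := by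
      rw [Finset.disjoint_left]
      intro c hc hc'
      rw [Finset.mem_image] at hc'
      obtain ⟨d, hd, rfl⟩ := hc'
      rw [hAi] at hc hd
      simp only [f] at hc
      rw [conj_conj hm] at hc
      omega
    have hcard : (A ∪ A.image f).card = 2 * A.card := by
      rw [Finset.card_union_of_disjoint hdisj, Finset.card_image_of_injective _ hfinj]
      ring
    rw [← hcard]
    calc (A ∪ A.image f).card ≤ (univ : Finset {c // c ∈ π.cycleFactorsFinset}).card :=
          Finset.card_le_card (Finset.subset_univ _)
      _ = π.cycleFactorsFinset.card := by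
          rw [Finset.card_univ, Fintype.card_coe]

/-- The restriction of a commuting matching to the fixed points. -/
noncomputable def rfun (π τ : Perm α) : Perm {x // x ∉ π.support} := by
  classical
  exact if h : ∀ x, (τ x ∉ π.support ↔ x ∉ π.support) then τ.subtypePerm h else 1

theorem rfun_apply {π τ : Perm α} (h : τ * π = π * τ) (x : {x // x ∉ π.support}) :
    (rfun π τ x : α) = τ x := by
  have h1 : ∀ x, (τ x ∉ π.support ↔ x ∉ π.support) := fun x => not_congr (comm_support h x)
  unfold rfun
  rw [dif_pos h1]
  rfl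

theorem card_comm_le [Nonempty α] (π : Perm α) : (comm π).card ≤
    mm (Fintype.card α - π.support.card) *
      (2 ^ π.cycleFactorsFinset.card * π.support.card ^ (π.cycleFactorsFinset.card / 2)) := by
  classical
  obtain ⟨x0⟩ := ‹Nonempty α›
  have hc : Fintype.card {x // x ∉ π.support} = Fintype.card α - π.support.card := by
    rw [Fintype.card_subtype_compl, Fintype.card_coe]
  calc (comm π).card ≤ ((mats {x // x ∉ π.support}) ×ˢ (gset π)).card := by
        refine Finset.card_le_card_of_injOn (fun τ => (rfun π τ, gfun x0 π τ)) ?_ ?_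
        · intro τ hτ
          rw [Finset.mem_coe, mem_comm] at hτ
          rw [Finset.mem_coe, Finset.mem_product]
          refine ⟨?_, gfun_mem x0 hτ.1 hτ.2⟩
          rw [mem_mats]
          refine ⟨fun x => ?_, fun x hx => ?_⟩
          · ext
            rw [rfun_apply hτ.2, rfun_apply hτ.2, hτ.1.1]
          · have := congrArg Subtype.val hx
            rw [rfun_apply hτ.2] at this
            exact hτ.1.2 _ this
        · intro τ hτ τ' hτ' he
          rw [Finset.mem_coe, mem_comm] at hτ hτ'
          simp only [Prod.mk.injEq] at he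
          ext x
          by_cases hx : x ∈ π.support
          · exact gfun_inj x0 hτ.1 hτ'.1 hτ.2 hτ'.2 he.2 hx
          · have h1 := rfun_apply hτ.2 ⟨x, hx⟩
            have h2 := rfun_apply hτ'.2 ⟨x, hx⟩
            rw [he.1] at h1
            rw [h1] at h2
            exact h2
    _ = mm (Fintype.card α - π.support.card) * (gset π).card := by
        rw [Finset.card_product, card_mats, hc]
    _ ≤ _ := Nat.mul_le_mul_left _ (card_gset_le π)

end Pool.Agent.helper49.Wh
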