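import Pool.Agent.helper49.WhMat

/-!
Most matchings of the darts give a connected cubic multigraph.
-/

open Equiv Finset

namespace Pool.Agent.helper49.Wh

theorem choose_mul_le (m n i j : ℕ) : m.choose i * n.choose j ≤ (m + n).choose (i + j) := by
  rw [Nat.add_choose_eq]
  exact Finset.single_le_sum (f := fun ij : ℕ × ℕ => m.choose ij.1 * n.choose ij.2)
    (fun _ _ => Nat.zero_le _) (by simp : (i, j) ∈ antidiagonal (i + j))

theorem mm_split (a b : ℕ) : mm (2 * a) * mm (2 * b) * (a + b).choose a ≤ mm (2 * (a + b)) := by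
  have h1 := mm_even a
  have h2 := mm_even b
  have h3 := mm_even (a + b)
  have h4 : (a + b).choose a * a.factorial * b.factorial = (a + b).factorial := by
    have := Nat.choose_mul_factorial_mul_factorial (Nat.le_add_right a b)
    simpa using this
  have h5 : (2 * (a + b)).choose (2 * a) * (2 * a).factorial * (2 * b).factorial =
      (2 * (a + b)).factorial := by
    have := Nat.choose_mul_factorial_mul_factorial (show 2 * a ≤ 2 * (a + b) by omega)
    have h : 2 * (a + b) - 2 * a = 2 * b := by omega
    rw [h] at this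
    exact this
  have h6 : (a + b).choose a * (a + b).choose a ≤ (2 * (a + b)).choose (2 * a) := by
    have := choose_mul_le (a + b) (a + b) a a
    rw [two_mul, two_mul]
    exact this
  -- identity
  have h7 : mm (2 * (a + b)) * (a + b).choose a =
      mm (2 * a) * mm (2 * b) * (2 * (a + b)).choose (2 * a) := by
    have hpos : 0 < 2 ^ (a + b) * (a.factorial * b.factorial) := by positivity
    apply Nat.eq_of_mul_eq_mul_right hpos
    calc mm (2 * (a + b)) * (a + b).choose a * (2 ^ (a + b) * (a.factorial * b.factorial))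
        = mm (2 * (a + b)) * (2 ^ (a + b) *
            ((a + b).choose a * a.factorial * b.factorial)) := by ring
      _ = (2 * (a + b)).factorial := by rw [h4, h3]
      _ = (2 * (a + b)).choose (2 * a) * (mm (2 * a) * (2 ^ a * a.factorial)) *
            (mm (2 * b) * (2 ^ b * b.factorial)) := by rw [h1, h2, h5]
      _ = _ := by rw [pow_add]; ring
  have hc : 0 < (a + b).choose a := Nat.choose_pos (by omega)
  apply Nat.le_of_mul_le_mul_right _ hc
  calc mm (2 * a) * mm (2 * b) * (a + b).choose a * (a + b).choose a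
      = mm (2 * a) * mm (2 * b) * ((a + b).choose a * (a + b).choose a) := by ring
    _ ≤ mm (2 * a) * mm (2 * b) * (2 * (a + b)).choose (2 * a) := Nat.mul_le_mul_left _ h6
    _ = mm (2 * (a + b)) * (a + b).choose a := h7.symm

theorem disc_term (h r : ℕ) (hr : r ≤ h) :
    (2 * h).choose (2 * r) * (mm (3 * (2 * r)) * mm (3 * (2 * h - 2 * r))) * h.choose r ≤
      mm (2 * (3 * h)) := by
  obtain ⟨t, rfl⟩ := Nat.exists_eq_add_of_le hr
  have h1 := mm_split (3 * r) (3 * t)
  have e1 : 3 * (2 * r) = 2 * (3 * r) := by ring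
  have e2 : 3 * (2 * (r + t) - 2 * r) = 2 * (3 * t) := by omega
  have e3 : 3 * r + 3 * t = 3 * (r + t) := by ring
  rw [e3] at h1
  rw [e1, e2]
  have h2 : (2 * (r + t)).choose (2 * r) * (r + t).choose r ≤ (3 * (r + t)).choose (3 * r) := by
    have := choose_mul_le (2 * (r + t)) (r + t) (2 * r) r
    have e4 : 2 * (r + t) + (r + t) = 3 * (r + t) := by ring
    have e5 : 2 * r + r = 3 * r := by ring
    rw [e4, e5] at this
    exact this
  calc _ = mm (2 * (3 * r)) * mm (2 * (3 * t)) *
        ((2 * (r + t)).choose (2 * r) * (r + t).choose r) := by ring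
    _ ≤ mm (2 * (3 * r)) * mm (2 * (3 * t)) * (3 * (r + t)).choose (3 * r) :=
        Nat.mul_le_mul_left _ h2
    _ ≤ _ := h1

theorem choose_two_le (h r : ℕ) (hr : 2 ≤ r) (hr2 : 2 * r ≤ h) : h.choose 2 ≤ h.choose r := by
  induction r, hr using Nat.le_induction with
  | base => exact le_rfl
  | succ r hr ih =>
    refine (ih (by omega)).trans ?_
    apply Nat.choose_le_succ_of_lt_half_left
    omega

/-- The sum bounding the number of disconnected matchings. -/
theorem disc_sum {h : ℕ} (hh : 2 ≤ h) :
    (∑ s ∈ Finset.Icc 1 h, ((2 * h).choose s * (mm (3 * s) * mm (3 * (2 * h - s))) : ℕ) : ℝ) ≤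
      3 / h * mm (2 * (3 * h)) := by
  have hhr : (2 : ℝ) ≤ h := by exact_mod_cast hh
  have hmm : (0 : ℝ) ≤ mm (2 * (3 * h)) := by positivity
  -- bound of each term
  have hterm : ∀ s ∈ Finset.Icc 1 h,
      (((2 * h).choose s * (mm (3 * s) * mm (3 * (2 * h - s))) : ℕ) : ℝ) ≤
        (if s = 2 then (1 / h : ℝ) else 2 / ((h : ℝ) * (h - 1))) * mm (2 * (3 * h)) := by
    intro s hs
    rw [Finset.mem_Icc] at hs
    have hpos : (0 : ℝ) ≤ (if s = 2 then (1 / h : ℝ) else 2 / ((h : ℝ) * (h - 1))) := by
      split_ifs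
      · positivity
      · apply div_nonneg (by norm_num)
        apply mul_nonneg <;> linarith
    rcases Nat.even_or_odd s with ⟨r, hr⟩ | ⟨r, hr⟩
    · rw [← two_mul] at hr
      subst hr
      have hr1 : 1 ≤ r := by omega
      have hrh : 2 * r ≤ h := hs.2
      have h1 := disc_term h r (by omega)
      have h1' : (((2 * h).choose (2 * r) * (mm (3 * (2 * r)) * mm (3 * (2 * h - 2 * r))) : ℕ) : ℝ)
          * (h.choose r : ℝ) ≤ mm (2 * (3 * h)) := by exact_mod_cast h1
      by_cases hr2 : r = 1
      · subst hr2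
        rw [if_pos (by norm_num)]
        rw [Nat.choose_one_right] at h1'
        have hhpos : (0 : ℝ) < h := by linarith
        rw [div_mul_eq_mul_div, one_mul, le_div_iff₀ hhpos]
        exact h1'
      · rw [if_neg (by omega)]
        have h2 : (h : ℝ) * (h - 1) / 2 ≤ (h.choose r : ℝ) := by
          have h3 : h.choose 2 ≤ h.choose r :=
            choose_two_le h r (by omega) (by omega)
          have h4 : (h.choose 2 : ℝ) = (h : ℝ) * (h - 1) / 2 := Nat.cast_choose_two ℝ h
          rw [← h4]
          exact_mod_cast h3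
        have hhh : (0 : ℝ) < (h : ℝ) * (h - 1) := by
          apply mul_pos <;> linarith
        set X : ℝ := (((2 * h).choose (2 * r) *
          (mm (3 * (2 * r)) * mm (3 * (2 * h - 2 * r))) : ℕ) : ℝ) with hX
        have hX0 : 0 ≤ X := by positivity
        have h5 : X * ((h : ℝ) * (h - 1) / 2) ≤ mm (2 * (3 * h)) := by
          refine le_trans ?_ h1'
          gcongr
        rw [div_mul_eq_mul_div, le_div_iff₀ hhh]
        linarith
    · have h1 : 3 * s = 2 * (3 * r + 1) + 1 := by omega
      rw [h1, mm_odd]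
      simp only [zero_mul, mul_zero, Nat.cast_zero]
      positivity
  calc (∑ s ∈ Finset.Icc 1 h, ((2 * h).choose s * (mm (3 * s) * mm (3 * (2 * h - s))) : ℕ) : ℝ)
      ≤ ∑ s ∈ Finset.Icc 1 h,
        (if s = 2 then (1 / h : ℝ) else 2 / ((h : ℝ) * (h - 1))) * mm (2 * (3 * h)) := by
        push_cast
        push_cast at hterm
        exact Finset.sum_le_sum hterm
    _ = (∑ s ∈ Finset.Icc 1 h, (if s = 2 then (1 / h : ℝ) else 2 / ((h : ℝ) * (h - 1)))) *
        mm (2 * (3 * h)) := by rw [Finset.sum_mul]
    _ ≤ 3 / h * mm (2 * (3 * h)) := by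
        refine mul_le_mul_of_nonneg_right ?_ hmm
        have h2mem : 2 ∈ Finset.Icc 1 h := by
          rw [Finset.mem_Icc]; omega
        rw [← Finset.add_sum_erase _ _ h2mem, if_pos rfl]
        have h3 : ∑ s ∈ (Finset.Icc 1 h).erase 2,
            (if s = 2 then (1 / h : ℝ) else 2 / ((h : ℝ) * (h - 1))) =
            ((h : ℝ) - 1) * (2 / ((h : ℝ) * (h - 1))) := by
          rw [Finset.sum_congr rfl (g := fun _ => 2 / ((h : ℝ) * (h - 1)))]
          · rw [Finset.sum_const, nsmul_eq_mul, Finset.card_erase_of_mem h2mem, Nat.card_Icc]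
            congr 1
            rw [Nat.cast_sub (by omega)]
            push_cast
            ring
          · intro s hs
            rw [Finset.mem_erase] at hs
            rw [if_neg hs.1]
        rw [h3]
        have hh1 : (h : ℝ) - 1 ≠ 0 := by linarith
        have hh0 : (h : ℝ) ≠ 0 := by linarith
        apply le_of_eq
        field_simp
        norm_num

end Pool.Agent.helper49.Wh
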