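import Pool.Agent.helper49.WhAct

/-!
Local double counting: many pairs of moves with isomorphic results.
-/

open Equiv Finset

namespace Pool.Agent.helper49.Wh

variable {n : ℕ}

/-- Triples `(d, f, g)`. -/
abbrev Tr (n : ℕ) : Type := EdgeEnd n × EdgeEnd n × EdgeEnd n

open Classical in
/-- The valid moves which change the quadratic invariant. -/
noncomputable def nmoves (τ : Perm (EdgeEnd n)) : Finset (Tr n) :=
  univ.filter (fun m => Valid τ m.1 m.2.1 m.2.2 ∧ qform (mv τ m.2.1 m.2.2) ≠ qform τ)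

theorem mem_nmoves {τ : Perm (EdgeEnd n)} {m : Tr n} :
    m ∈ nmoves τ ↔ Valid τ m.1 m.2.1 m.2.2 ∧ qform (mv τ m.2.1 m.2.2) ≠ qform τ := by
  simp [nmoves]

theorem card_nmoves {τ : Perm (EdgeEnd n)} (hm : IsMat τ) : n ≤ (nmoves τ).card := by
  classical
  have h : ∀ u : Fin n, ∃ m : Tr n, m ∈ nmoves τ ∧ m.1.1 = u := by
    intro u
    obtain ⟨d, hd1, hd2⟩ := exists_nonloop hm u
    obtain ⟨f, g, h1, h2⟩ := exists_nontrivial hm hd2
    exact ⟨(d, f, g), mem_nmoves.mpr ⟨h1, h2⟩, hd1⟩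
  choose F hF using h
  calc n = (univ : Finset (Fin n)).card := by simp
    _ ≤ (nmoves τ).card := by
      refine Finset.card_le_card_of_injOn F (fun u _ => (hF u).1) ?_
      intro u _ v _ huv
      rw [← (hF u).2, ← (hF v).2, huv]

open Classical in
/-- The moves whose result agrees with that of `m₁` up to a relabelling of edge-ends at each
vertex. -/
noncomputable def P0 (τ : Perm (EdgeEnd n)) (m₁ : Tr n) : Finset (Tr n) :=
  univ.filter (fun m => Valid τ m.1 m.2.1 m.2.2 ∧
    ∃ σ, FP0 σ ∧ σ * mv τ m₁.2.1 m₁.2.2 = mv τ m.2.1 m.2.2 * σ)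

theorem card_P0 {τ : Perm (EdgeEnd n)} (hm : IsMat τ) {m₁ : Tr n} (hm₁ : m₁ ∈ nmoves τ) :
    (P0 τ m₁).card ≤ 108 := by
  classical
  rw [mem_nmoves] at hm₁
  have h1 : amat (mv τ m₁.2.1 m₁.2.2) ≠ amat τ := fun h => hm₁.2 (qform_congr h)
  have h2 : ∃ x y, amat (mv τ m₁.2.1 m₁.2.2) x y ≠ amat τ x y := by
    by_contra hcon
    push Not at hcon
    exact h1 (funext fun x => funext fun y => hcon x y)
  obtain ⟨x, y, hxy⟩ := h2
  let Φ : (Bool × Bool × Fin 3) × Fin 3 × Fin 3 → Tr n := fun a =>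
    let w : Fin n := if a.1.1 then x else y
    let d : EdgeEnd n := if a.1.2.1 then (w, a.1.2.2) else τ (w, a.1.2.2)
    (d, (d.1, a.2.1), ((τ d).1, a.2.2))
  have hsub : P0 τ m₁ ⊆ (univ : Finset ((Bool × Bool × Fin 3) × Fin 3 × Fin 3)).image Φ := by
    rintro ⟨d, f, g⟩ hmem
    simp only [P0, Finset.mem_filter, Finset.mem_univ, true_and] at hmem
    obtain ⟨⟨v1, v2, v3, v4, v5⟩, σ, hσ, hσ2⟩ := hmem
    have h3 : amat (mv τ f g) x y ≠ amat τ x y := by
      have := amat_conj hσ hσ2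
      rw [← this]
      exact hxy
    have h4 : ¬ (x ≠ f.1 ∧ x ≠ g.1 ∧ y ≠ f.1 ∧ y ≠ g.1) := by
      rintro ⟨a1, a2, a3, a4⟩
      exact h3 (amat_mv_eq a1 a2 a3 a4)
    rw [v2, v4] at h4
    rw [Finset.mem_image]
    have hf : f = (d.1, f.2) := Prod.ext v2 rfl
    have hg : g = ((τ d).1, g.2) := Prod.ext v4 rfl
    by_cases b1 : x = d.1
    · refine ⟨((true, true, d.2), f.2, g.2), Finset.mem_univ _, ?_⟩
      have hd : (x, d.2) = d := Prod.ext b1 rfl
      simp only [Φ, if_true, hd]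
      rw [← hf, ← hg]
    · by_cases b2 : x = (τ d).1
      · refine ⟨((true, false, (τ d).2), f.2, g.2), Finset.mem_univ _, ?_⟩
        have hd : τ (x, (τ d).2) = d := by
          have : ((x, (τ d).2) : EdgeEnd n) = τ d := Prod.ext b2 rfl
          rw [this, hm.1]
        simp only [Φ, if_true, hd, Bool.false_eq_true, if_false]
        rw [← hf, ← hg]
      · by_cases b3 : y = d.1
        · refine ⟨((false, true, d.2), f.2, g.2), Finset.mem_univ _, ?_⟩
          have hd : (y, d.2) = d := Prod.ext b3 rfl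
          simp only [Φ, if_true, hd, Bool.false_eq_true, if_false]
          rw [← hf, ← hg]
        · have b4 : y = (τ d).1 := by
            by_contra b4
            exact h4 ⟨b1, b2, b3, b4⟩
          refine ⟨((false, false, (τ d).2), f.2, g.2), Finset.mem_univ _, ?_⟩
          have hd : τ (y, (τ d).2) = d := by
            have : ((y, (τ d).2) : EdgeEnd n) = τ d := Prod.ext b4 rfl
            rw [this, hm.1]
          simp only [Φ, hd, Bool.false_eq_true, if_false]
          rw [← hf, ← hg]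
  calc (P0 τ m₁).card ≤ _ := Finset.card_le_card hsub
    _ ≤ (univ : Finset ((Bool × Bool × Fin 3) × Fin 3 × Fin 3)).card := Finset.card_image_le
    _ = 108 := by simp

open Classical in
/-- The vertex-fixing permutations of edge-ends preserving the matching. -/
noncomputable def Kset (τ : Perm (EdgeEnd n)) : Finset (Perm (EdgeEnd n)) :=
  univ.filter (fun σ => FP0 σ ∧ σ * τ = τ * σ)

theorem mem_Kset {τ σ : Perm (EdgeEnd n)} : σ ∈ Kset τ ↔ FP0 σ ∧ σ * τ = τ * σ := by
  simp [Kset]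

theorem K_ratio (τ : Perm (EdgeEnd n)) (f g : EdgeEnd n) :
    (Kset τ).card ≤ 729 * (Kset (mv τ f g)).card := by
  classical
  let r : Perm (EdgeEnd n) → (Fin 3 → Fin 3) × (Fin 3 → Fin 3) := fun σ =>
    (fun i => (σ (f.1, i)).2, fun i => (σ (g.1, i)).2)
  have hfib : ∀ a ∈ (Kset τ).image r, ((Kset τ).filter (fun σ => r σ = a)).card ≤
      (Kset (mv τ f g)).card := by
    intro a ha
    rw [Finset.mem_image] at ha
    obtain ⟨σ₀, hσ₀, rfl⟩ := ha
    rw [mem_Kset] at hσ₀
    refine Finset.card_le_card_of_injOn (fun σ => σ₀⁻¹ * σ) ?_ ?_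
    · intro σ hσ
      rw [Finset.mem_coe, Finset.mem_filter, mem_Kset] at hσ
      obtain ⟨⟨h1, h2⟩, h3⟩ := hσ
      rw [Finset.mem_coe, mem_Kset]
      refine ⟨hσ₀.1.inv.mul h1, ?_⟩
      have hcomm : (σ₀⁻¹ * σ) * τ = τ * (σ₀⁻¹ * σ) := by
        have c1 : Commute σ τ := h2
        have c2 : Commute σ₀ τ := hσ₀.2
        exact (c2.inv_left.mul_left c1)
      have hff : σ f = σ₀ f := by
        apply Prod.ext
        · rw [h1, hσ₀.1]
        · have := congrFun (congrArg Prod.fst h3) f.2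
          exact this
      have hgg : σ g = σ₀ g := by
        apply Prod.ext
        · rw [h1, hσ₀.1]
        · have := congrFun (congrArg Prod.snd h3) g.2
          exact this
      have hf : (σ₀⁻¹ * σ) f = f := by
        rw [Perm.mul_apply, hff]; simp
      have hg : (σ₀⁻¹ * σ) g = g := by
        rw [Perm.mul_apply, hgg]; simp
      have hs : (σ₀⁻¹ * σ) * swap f g = swap f g * (σ₀⁻¹ * σ) := by
        have := Equiv.mul_swap_eq_swap_mul (σ₀⁻¹ * σ) f g
        rw [this, hf, hg]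
      have c1 : Commute (σ₀⁻¹ * σ) τ := hcomm
      have c2 : Commute (σ₀⁻¹ * σ) (swap f g) := hs
      unfold mv
      exact ((c2.mul_right c1).mul_right c2)
    · intro σ _ σ' _ h
      exact mul_left_cancel h
  calc (Kset τ).card ≤ (Kset (mv τ f g)).card * ((Kset τ).image r).card :=
        Finset.card_le_mul_card_image _ _ hfib
    _ ≤ (Kset (mv τ f g)).card * 729 := by
        apply Nat.mul_le_mul_left
        calc ((Kset τ).image r).card ≤
            (univ : Finset ((Fin 3 → Fin 3) × (Fin 3 → Fin 3))).card :=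
              Finset.card_le_univ _
          _ = 729 := by simp
    _ = _ := by ring

open Classical in
/-- The isomorphisms between two matchings moving some vertex. -/
noncomputable def isos (τ₁ τ₂ : Perm (EdgeEnd n)) : Finset (Perm (EdgeEnd n)) :=
  univ.filter (fun σ => (FP σ ∧ ¬ FP0 σ) ∧ σ * τ₁ = τ₂ * σ)

theorem mem_isos {τ₁ τ₂ σ : Perm (EdgeEnd n)} :
    σ ∈ isos τ₁ τ₂ ↔ (FP σ ∧ ¬ FP0 σ) ∧ σ * τ₁ = τ₂ * σ := by
  simp [isos]

theorem isos_ge {τ₁ τ₂ : Perm (EdgeEnd n)} (h : ∃ σ, FP σ ∧ σ * τ₁ = τ₂ * σ)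
    (h0 : ¬ ∃ σ, FP0 σ ∧ σ * τ₁ = τ₂ * σ) : (Kset τ₁).card ≤ (isos τ₁ τ₂).card := by
  obtain ⟨σ₀, hσ₀, hσ₀2⟩ := h
  refine Finset.card_le_card_of_injOn (fun κ => σ₀ * κ) ?_ ?_
  · intro κ hκ
    rw [Finset.mem_coe, mem_Kset] at hκ
    have h1 : σ₀ * κ * τ₁ = τ₂ * (σ₀ * κ) := by
      rw [mul_assoc, hκ.2, ← mul_assoc, hσ₀2, mul_assoc]
    rw [Finset.mem_coe, mem_isos]
    exact ⟨⟨hσ₀.mul hκ.1.fp, fun h2 => h0 ⟨_, h2, h1⟩⟩, h1⟩
  · intro κ _ κ' _ h
    exact mul_left_cancel h

/-- The number of triples: two nontrivial moves and an isomorphism between the results moving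
some vertex. -/
noncomputable def Ncount (τ : Perm (EdgeEnd n)) : ℕ :=
  ∑ m₁ ∈ nmoves τ, ∑ m₂ ∈ nmoves τ, (isos (mv τ m₁.2.1 m₁.2.2) (mv τ m₂.2.1 m₂.2.2)).card

/-- The local lower bound. -/
theorem Ncount_ge {γ : Type*} [DecidableEq γ] {τ : Perm (EdgeEnd n)} (hm : IsMat τ)
    (cls : Tr n → γ) {d : ℕ} (hd : 0 < d)
    (hcls : ∀ m₁ ∈ nmoves τ, ∀ m₂ ∈ nmoves τ, cls m₁ = cls m₂ →
      ∃ σ, FP σ ∧ σ * mv τ m₁.2.1 m₁.2.2 = mv τ m₂.2.1 m₂.2.2 * σ)
    (himg : ((nmoves τ).image cls).card ≤ d) (hn : 216 * d ≤ n) :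
    (Kset τ).card * n ^ 2 ≤ 1458 * d * Ncount τ := by
  classical
  set M := nmoves τ with hM
  have hMn : n ≤ M.card := card_nmoves hm
  -- pairs with the same class
  set P := (M ×ˢ M).filter (fun p => cls p.1 = cls p.2) with hP
  have hPcard : M.card ^ 2 ≤ d * P.card := by
    have h1 : M.card = ∑ y ∈ M.image cls, (M.filter (fun m => cls m = y)).card :=
      Finset.card_eq_sum_card_image cls M
    have h2 : P.card = ∑ y ∈ M.image cls, (M.filter (fun m => cls m = y)).card ^ 2 := by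
      have h3 : P.card = ∑ y ∈ M.image cls, (P.filter (fun p => cls p.1 = y)).card := by
        apply Finset.card_eq_sum_card_fiberwise
        intro p hp
        rw [Finset.mem_coe, hP, Finset.mem_filter, Finset.mem_product] at hp
        exact Finset.mem_image_of_mem _ hp.1.1
      rw [h3]
      apply Finset.sum_congr rfl
      intro y _
      have h4 : P.filter (fun p => cls p.1 = y) =
          (M.filter (fun m => cls m = y)) ×ˢ (M.filter (fun m => cls m = y)) := by
        ext p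
        simp only [hP, Finset.mem_filter, Finset.mem_product]
        constructor
        · rintro ⟨⟨⟨a, b⟩, c⟩, e⟩
          exact ⟨⟨a, e⟩, ⟨b, by rw [← c, e]⟩⟩
        · rintro ⟨⟨a, e⟩, ⟨b, e'⟩⟩
          exact ⟨⟨⟨a, b⟩, by rw [e, e']⟩, e⟩
      rw [h4, Finset.card_product, sq]
    have h5 := sq_sum_le_card_mul_sum_sq (s := M.image cls)
      (f := fun y => (M.filter (fun m => cls m = y)).card)
    rw [← h1, ← h2] at h5
    exact h5.trans (Nat.mul_le_mul_right _ himg)
  -- pairs with a vertex-fixing isomorphism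
  set Q := (M ×ˢ M).filter (fun p => p.2 ∈ P0 τ p.1) with hQ
  have hQcard : Q.card ≤ 108 * M.card := by
    have h3 : Q.card = ∑ m ∈ M, (Q.filter (fun p => p.1 = m)).card := by
      apply Finset.card_eq_sum_card_fiberwise
      intro p hp
      rw [Finset.mem_coe, hQ, Finset.mem_filter, Finset.mem_product] at hp
      exact hp.1.1
    rw [h3]
    calc ∑ m ∈ M, (Q.filter (fun p => p.1 = m)).card ≤ ∑ m ∈ M, 108 := by
          apply Finset.sum_le_sum
          intro m hmM
          refine le_trans ?_ (card_P0 hm hmM)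
          refine Finset.card_le_card_of_injOn (fun p => p.2) ?_ ?_
          · intro p hp
            rw [Finset.mem_coe, Finset.mem_filter, hQ, Finset.mem_filter] at hp
            rw [Finset.mem_coe, ← hp.2]
            exact hp.1.2
          · intro p hp q hq hpq
            rw [Finset.mem_coe, Finset.mem_filter] at hp hq
            exact Prod.ext (hp.2.trans hq.2.symm) hpq
      _ = 108 * M.card := by rw [Finset.sum_const, smul_eq_mul, mul_comm]
  have hPQ : P.card ≤ (P \ Q).card + Q.card := by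
    have := Finset.card_le_card_sdiff_add_card (s := P) (t := Q)
    exact this
  -- the lower bound for each remaining pair
  have hN : (P \ Q).card * (Kset τ).card ≤ 729 * Ncount τ := by
    have h1 : ∑ p ∈ P \ Q, (Kset τ).card ≤ ∑ p ∈ P \ Q,
        729 * (isos (mv τ p.1.2.1 p.1.2.2) (mv τ p.2.2.1 p.2.2.2)).card := by
      apply Finset.sum_le_sum
      intro p hp
      rw [Finset.mem_sdiff, hP, hQ, Finset.mem_filter, Finset.mem_filter,
        Finset.mem_product] at hp
      obtain ⟨⟨⟨hp1, hp2⟩, hp3⟩, hp4⟩ := hp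
      have h2 := hcls p.1 hp1 p.2 hp2 hp3
      have h3 : ¬ ∃ σ, FP0 σ ∧ σ * mv τ p.1.2.1 p.1.2.2 = mv τ p.2.2.1 p.2.2.2 * σ := by
        intro h
        apply hp4
        refine ⟨⟨hp1, hp2⟩, ?_⟩
        simp only [P0, Finset.mem_filter, Finset.mem_univ, true_and]
        exact ⟨(mem_nmoves.mp hp2).1, h⟩
      refine (K_ratio τ p.1.2.1 p.1.2.2).trans ?_
      exact Nat.mul_le_mul_left _ (isos_ge h2 h3)
    rw [Finset.sum_const, smul_eq_mul, ← Finset.mul_sum] at h1
    refine h1.trans (Nat.mul_le_mul_left _ ?_)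
    unfold Ncount
    rw [← hM, ← Finset.sum_product']
    apply Finset.sum_le_sum_of_subset
    intro p hp
    rw [Finset.mem_sdiff, hP, Finset.mem_filter] at hp
    exact hp.1.1
  -- combine
  have h1 : n ^ 2 ≤ 2 * d * (P \ Q).card := by
    have h2 : M.card ^ 2 ≤ d * (P \ Q).card + d * (108 * M.card) := by
      calc M.card ^ 2 ≤ d * P.card := hPcard
        _ ≤ d * ((P \ Q).card + Q.card) := Nat.mul_le_mul_left _ hPQ
        _ ≤ d * ((P \ Q).card + 108 * M.card) := by gcongr
        _ = _ := by ring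
    have h3 : 216 * d * M.card ≤ M.card ^ 2 := by
      rw [sq]
      exact Nat.mul_le_mul_right _ (hn.trans hMn)
    have h4 : n ^ 2 ≤ M.card ^ 2 := Nat.pow_le_pow_left hMn 2
    nlinarith
  calc (Kset τ).card * n ^ 2 ≤ (Kset τ).card * (2 * d * (P \ Q).card) :=
        Nat.mul_le_mul_left _ h1
    _ = 2 * d * ((P \ Q).card * (Kset τ).card) := by ring
    _ ≤ 2 * d * (729 * Ncount τ) := Nat.mul_le_mul_left _ hN
    _ = _ := by ring

end Pool.Agent.helper49.Wh
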