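import Mathlib

/-!
Summation over permutations, weighted by the factorial of the number of cycles.
-/

open Equiv Finset

namespace Pool.Agent.helper49.Wh

theorem bern {Z w : ℝ} (hZ : 0 ≤ Z) (hw : 0 ≤ w) (c : ℕ) :
    Z ^ (c + 1) + ((c : ℝ) + 1) * w * Z ^ c ≤ (Z + w) ^ (c + 1) := by
  induction c with
  | zero => simp
  | succ c ih =>
    have h1 : (Z + w) ^ (c + 1 + 1) = (Z + w) * (Z + w) ^ (c + 1) := by rw [pow_succ]; ring
    rw [h1]
    have h2 : (Z + w) * (Z ^ (c + 1) + ((c : ℝ) + 1) * w * Z ^ c) ≤
        (Z + w) * (Z + w) ^ (c + 1) := by gcongr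
    refine le_trans ?_ h2
    have h3 : 0 ≤ ((c : ℝ) + 1) * w ^ 2 * Z ^ c := by positivity
    push_cast
    have h4 : (Z + w) * (Z ^ (c + 1) + ((c : ℝ) + 1) * w * Z ^ c) =
        Z ^ (c + 1 + 1) + ((c : ℝ) + 1 + 1) * w * Z ^ (c + 1) +
          ((c : ℝ) + 1) * w ^ 2 * Z ^ c := by ring
    rw [h4]
    linarith

theorem esymm_le {ι : Type*} [DecidableEq ι] (w : ι → ℝ) (hw : ∀ i, 0 ≤ w i) (s : Finset ι) :
    ∀ c : ℕ, (c.factorial : ℝ) * ∑ T ∈ s.powersetCard c, ∏ i ∈ T, w i ≤ (∑ i ∈ s, w i) ^ c := by
  induction s using Finset.induction with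
  | empty =>
    intro c
    rcases Nat.eq_zero_or_pos c with rfl | hc
    · simp
    · have : (∅ : Finset ι).powersetCard c = ∅ := by
        rw [Finset.powersetCard_eq_empty]
        simpa using hc
      rw [this]
      simp
  | insert a s ha ih =>
    intro c
    rcases c with _ | c
    · simp
    · rw [Finset.powersetCard_succ_insert ha, Finset.sum_union, Finset.sum_image,
        Finset.sum_insert ha]
      · have h1 : ∑ T ∈ s.powersetCard c, ∏ i ∈ insert a T, w i =
            w a * ∑ T ∈ s.powersetCard c, ∏ i ∈ T, w i := by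
          rw [Finset.mul_sum]
          apply Finset.sum_congr rfl
          intro T hT
          rw [Finset.mem_powersetCard] at hT
          rw [Finset.prod_insert (fun h => ha (hT.1 h))]
        rw [h1]
        have hZ : 0 ≤ ∑ i ∈ s, w i := Finset.sum_nonneg fun i _ => hw i
        have h2 := ih (c + 1)
        have h3 := ih c
        have h4 := bern hZ (hw a) c
        rw [add_comm (w a)]
        refine le_trans ?_ h4
        have h5 : ((c + 1).factorial : ℝ) = ((c : ℝ) + 1) * (c.factorial : ℝ) := by
          rw [Nat.factorial_succ]; push_cast; ring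
        rw [mul_add]
        have h6 : ((c + 1).factorial : ℝ) * (w a * ∑ T ∈ s.powersetCard c, ∏ i ∈ T, w i) =
            ((c : ℝ) + 1) * w a *
              ((c.factorial : ℝ) * ∑ T ∈ s.powersetCard c, ∏ i ∈ T, w i) := by
          rw [h5]; ring
        rw [h6]
        have h7 : ((c : ℝ) + 1) * w a *
              ((c.factorial : ℝ) * ∑ T ∈ s.powersetCard c, ∏ i ∈ T, w i) ≤
            ((c : ℝ) + 1) * w a * (∑ i ∈ s, w i) ^ c := by
          have : 0 ≤ ((c : ℝ) + 1) * w a := mul_nonneg (by positivity) (hw a)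
          gcongr
        linarith
      · intro T hT T' hT' h
        rw [Finset.mem_coe, Finset.mem_powersetCard] at hT hT'
        have hTa : a ∉ T := fun h => ha (hT.1 h)
        have hTa' : a ∉ T' := fun h => ha (hT'.1 h)
        rw [← Finset.erase_insert hTa, ← Finset.erase_insert hTa', h]
      · rw [Finset.disjoint_left]
        intro T hT hT'
        rw [Finset.mem_powersetCard] at hT
        rw [Finset.mem_image] at hT'
        obtain ⟨U, _, rfl⟩ := hT'
        exact ha (hT.1 (Finset.mem_insert_self _ _))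

variable {V : Type*} [Fintype V] [DecidableEq V]

theorem supp_eq_sum (ρ : Perm V) :
    ρ.support.card = ∑ C ∈ ρ.cycleFactorsFinset, C.support.card := by
  rw [← Perm.sum_cycleType, Perm.cycleType_def]
  rfl

theorem two_mul_cyc_le (ρ : Perm V) : 2 * ρ.cycleFactorsFinset.card ≤ ρ.support.card := by
  rw [supp_eq_sum, mul_comm, ← smul_eq_mul, ← Finset.sum_const]
  apply Finset.sum_le_sum
  intro C hC
  exact (Perm.mem_cycleFactorsFinset_iff.mp hC).1.two_le_card_support

open scoped Classical in
theorem card_cycles_le (k : ℕ) :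
    (univ.filter (fun C : Perm V => C.IsCycle ∧ C.support.card = k)).card ≤
      (Fintype.card V) ^ k := by
  classical
  by_cases hk : 2 ≤ k ∧ k ≤ Fintype.card V
  · have h1 := Perm.card_of_cycleType_singleton (α := V) hk.1 hk.2
    have h2 : (univ.filter (fun C : Perm V => C.IsCycle ∧ C.support.card = k)) =
        (univ.filter (fun g : Perm V => g.cycleType = {k})) := by
      ext C
      simp only [Finset.mem_filter, Finset.mem_univ, true_and]
      constructor
      · rintro ⟨h, h'⟩
        rw [h.cycleType, h']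
      · intro h
        have hC : C.IsCycle := by
          rw [← Perm.card_cycleType_eq_one, h]; simp
        refine ⟨hC, ?_⟩
        rw [hC.cycleType] at h
        simpa using h
    rw [h2, h1]
    calc (k - 1).factorial * (Fintype.card V).choose k
        ≤ k.factorial * (Fintype.card V).choose k := by
          apply Nat.mul_le_mul_right
          exact Nat.factorial_le (by omega)
      _ = (Fintype.card V).descFactorial k := (Nat.descFactorial_eq_factorial_mul_choose _ _).symm
      _ ≤ _ := Nat.descFactorial_le_pow _ _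
  · have h2 : (univ.filter (fun C : Perm V => C.IsCycle ∧ C.support.card = k)) = ∅ := by
      rw [Finset.filter_eq_empty_iff]
      rintro C - ⟨h, h'⟩
      apply hk
      rw [← h']
      exact ⟨h.two_le_card_support, Finset.card_le_univ _⟩
    rw [h2]
    simp

theorem geom_aux {z : ℝ} (hz : 0 ≤ z) (hz2 : z ≤ 1 / 2) (a N : ℕ) :
    ∑ k ∈ Finset.Ico a N, z ^ k ≤ 2 * z ^ a := by
  have h1 : ∀ N, ∑ k ∈ range N, z ^ k ≤ 2 := by
    intro N
    have h := geom_sum_eq (x := z) (by linarith) N
    rw [h, div_le_iff_of_neg (by linarith)]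
    have : 0 ≤ z ^ N := by positivity
    linarith
  rw [Finset.sum_Ico_eq_sum_range]
  have : ∀ k, z ^ (a + k) = z ^ a * z ^ k := fun k => pow_add _ _ _
  simp only [this]
  rw [← Finset.mul_sum]
  have := h1 (N - a)
  have h3 : 0 ≤ z ^ a := by positivity
  nlinarith

open scoped Classical in
theorem sum_cycles {x : ℝ} (hx : 0 ≤ x) (hx2 : (Fintype.card V : ℝ) * x ≤ 1 / 2) :
    ∑ C ∈ univ.filter (fun C : Perm V => C.IsCycle), x ^ C.support.card ≤
      2 * ((Fintype.card V : ℝ) * x) ^ 2 := by
  classical
  have h1 : ∑ C ∈ univ.filter (fun C : Perm V => C.IsCycle), x ^ C.support.card =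
      ∑ k ∈ Finset.Ico 2 (Fintype.card V + 1),
        ∑ C ∈ (univ.filter (fun C : Perm V => C.IsCycle)).filter (fun C => C.support.card = k),
          x ^ C.support.card := by
    symm
    apply Finset.sum_fiberwise_of_maps_to
    intro C hC
    simp only [Finset.mem_filter, Finset.mem_univ, true_and] at hC
    rw [Finset.mem_Ico]
    exact ⟨hC.two_le_card_support, Nat.lt_succ_of_le (Finset.card_le_univ _)⟩
  rw [h1]
  refine le_trans ?_ (geom_aux (z := (Fintype.card V : ℝ) * x) (by positivity) hx2 2
    (Fintype.card V + 1))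
  apply Finset.sum_le_sum
  intro k _
  rw [Finset.filter_filter]
  calc ∑ C ∈ univ.filter (fun C : Perm V => C.IsCycle ∧ C.support.card = k), x ^ C.support.card
      = ∑ C ∈ univ.filter (fun C : Perm V => C.IsCycle ∧ C.support.card = k), x ^ k := by
        apply Finset.sum_congr rfl
        intro C hC
        simp only [Finset.mem_filter, Finset.mem_univ, true_and] at hC
        rw [hC.2]
    _ = ((univ.filter (fun C : Perm V => C.IsCycle ∧ C.support.card = k)).card : ℝ) * x ^ k := by
        rw [Finset.sum_const, nsmul_eq_mul]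
    _ ≤ ((Fintype.card V : ℝ) ^ k) * x ^ k := by
        gcongr
        exact_mod_cast card_cycles_le k
    _ = _ := by rw [mul_pow]

open scoped Classical in
theorem sum_perms_cyc {x : ℝ} (hx : 0 ≤ x) (c : ℕ) :
    ∑ ρ ∈ univ.filter (fun ρ : Perm V => ρ.cycleFactorsFinset.card = c),
      (ρ.cycleFactorsFinset.card.factorial : ℝ) * x ^ ρ.support.card ≤
      (∑ C ∈ univ.filter (fun C : Perm V => C.IsCycle), x ^ C.support.card) ^ c := by
  classical
  refine le_trans ?_ (esymm_le (fun C : Perm V => x ^ C.support.card) (fun _ => by positivity)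
    (univ.filter (fun C : Perm V => C.IsCycle)) c)
  calc ∑ ρ ∈ univ.filter (fun ρ : Perm V => ρ.cycleFactorsFinset.card = c),
      (ρ.cycleFactorsFinset.card.factorial : ℝ) * x ^ ρ.support.card
      = ∑ ρ ∈ univ.filter (fun ρ : Perm V => ρ.cycleFactorsFinset.card = c),
      (c.factorial : ℝ) * ∏ C ∈ ρ.cycleFactorsFinset, x ^ C.support.card := by
        apply Finset.sum_congr rfl
        intro ρ hρ
        simp only [Finset.mem_filter, Finset.mem_univ, true_and] at hρ
        rw [hρ, Finset.prod_pow_eq_pow_sum, ← supp_eq_sum]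
    _ = (c.factorial : ℝ) * ∑ ρ ∈ univ.filter (fun ρ : Perm V => ρ.cycleFactorsFinset.card = c),
        ∏ C ∈ ρ.cycleFactorsFinset, x ^ C.support.card := by rw [Finset.mul_sum]
    _ = (c.factorial : ℝ) * ∑ T ∈ (univ.filter (fun ρ : Perm V =>
        ρ.cycleFactorsFinset.card = c)).image Perm.cycleFactorsFinset,
        ∏ C ∈ T, x ^ C.support.card := by
        rw [Finset.sum_image]
        intro ρ _ ρ' _ h
        exact Perm.cycleFactorsFinset_injective h
    _ ≤ _ := by
        refine mul_le_mul_of_nonneg_left ?_ (by positivity)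
        apply Finset.sum_le_sum_of_subset_of_nonneg
        · intro T hT
          rw [Finset.mem_image] at hT
          obtain ⟨ρ, hρ, rfl⟩ := hT
          simp only [Finset.mem_filter, Finset.mem_univ, true_and] at hρ
          rw [Finset.mem_powersetCard]
          refine ⟨fun C hC => ?_, hρ⟩
          simp only [Finset.mem_filter, Finset.mem_univ, true_and]
          exact (Perm.mem_cycleFactorsFinset_iff.mp hC).1
        · intro T _ _
          exact Finset.prod_nonneg fun C _ => by positivity

open scoped Classical in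
theorem sum_perms {x : ℝ} (hx : 0 ≤ x) (hx2 : (Fintype.card V : ℝ) * x ≤ 1 / 2) :
    ∑ ρ ∈ univ.filter (fun ρ : Perm V => ρ ≠ 1),
      (ρ.cycleFactorsFinset.card.factorial : ℝ) * x ^ ρ.support.card ≤
      4 * ((Fintype.card V : ℝ) * x) ^ 2 := by
  classical
  set Z := ∑ C ∈ univ.filter (fun C : Perm V => C.IsCycle), x ^ C.support.card with hZ
  have hZ0 : 0 ≤ Z := Finset.sum_nonneg fun _ _ => by positivity
  have hZ1 := sum_cycles (V := V) hx hx2
  rw [← hZ] at hZ1
  have hnx : 0 ≤ (Fintype.card V : ℝ) * x := by positivity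
  have hZ2 : Z ≤ 1 / 2 := by
    refine hZ1.trans ?_
    nlinarith
  have h1 : ∑ ρ ∈ univ.filter (fun ρ : Perm V => ρ ≠ 1),
      (ρ.cycleFactorsFinset.card.factorial : ℝ) * x ^ ρ.support.card =
      ∑ c ∈ Finset.Ico 1 (Fintype.card V + 1),
        ∑ ρ ∈ (univ.filter (fun ρ : Perm V => ρ ≠ 1)).filter
          (fun ρ => ρ.cycleFactorsFinset.card = c),
          (ρ.cycleFactorsFinset.card.factorial : ℝ) * x ^ ρ.support.card := by
    symm
    apply Finset.sum_fiberwise_of_maps_to
    intro ρ hρ
    simp only [Finset.mem_filter, Finset.mem_univ, true_and] at hρ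
    rw [Finset.mem_Ico]
    constructor
    · rw [Nat.succ_le_iff, Finset.card_pos, Finset.nonempty_iff_ne_empty, Ne,
        Perm.cycleFactorsFinset_eq_empty_iff]
      exact hρ
    · have h2 := two_mul_cyc_le ρ
      have h3 : ρ.support.card ≤ Fintype.card V := Finset.card_le_univ _
      omega
  rw [h1]
  calc _ ≤ ∑ c ∈ Finset.Ico 1 (Fintype.card V + 1), Z ^ c := by
        apply Finset.sum_le_sum
        intro c _
        refine le_trans ?_ (sum_perms_cyc (V := V) hx c)
        apply Finset.sum_le_sum_of_subset_of_nonneg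
        · intro ρ hρ
          simp only [Finset.mem_filter, Finset.mem_univ, true_and] at hρ ⊢
          exact hρ.2
        · intro ρ _ _
          positivity
    _ ≤ 2 * Z ^ 1 := geom_aux hZ0 hZ2 1 _
    _ ≤ 4 * ((Fintype.card V : ℝ) * x) ^ 2 := by
        rw [pow_one]
        linarith

end Pool.Agent.helper49.Wh
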