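import Pool.Agent.helper49.WhAct
import Pool.Agent.helper49.WhConn

/-!
The number of disconnected matchings.
-/

open Equiv Finset

namespace Pool.Agent.helper49.Wh

variable {n : ℕ}

open Classical in
/-- The matchings for which no edge leaves the vertex set `S`. -/
noncomputable def closedSet (S : Finset (Fin n)) : Finset (Perm (EdgeEnd n)) :=
  (mats (EdgeEnd n)).filter (fun τ => ∀ x : EdgeEnd n, (τ x).1 ∈ S ↔ x.1 ∈ S)

theorem card_fibre (S : Finset (Fin n)) :
    Fintype.card {x : EdgeEnd n // x.1 ∈ S} = 3 * S.card := by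
  classical
  rw [Fintype.card_subtype]
  have : (univ.filter (fun x : EdgeEnd n => x.1 ∈ S)) = S ×ˢ (univ : Finset (Fin 3)) := by
    ext x
    simp
  rw [this, Finset.card_product, Finset.card_univ, Fintype.card_fin, mul_comm]

theorem card_closedSet (S : Finset (Fin n)) :
    (closedSet S).card ≤ mm (3 * S.card) * mm (3 * (n - S.card)) := by
  classical
  let r1 : Perm (EdgeEnd n) → Perm {x : EdgeEnd n // x.1 ∈ S} := fun τ =>
    if h : ∀ x : EdgeEnd n, (τ x).1 ∈ S ↔ x.1 ∈ S then τ.subtypePerm h else 1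
  let r2 : Perm (EdgeEnd n) → Perm {x : EdgeEnd n // x.1 ∈ Sᶜ} := fun τ =>
    if h : ∀ x : EdgeEnd n, (τ x).1 ∈ Sᶜ ↔ x.1 ∈ Sᶜ then τ.subtypePerm h else 1
  have hr1 : ∀ τ ∈ closedSet S, ∀ x, (r1 τ x : EdgeEnd n) = τ x := by
    intro τ hτ x
    simp only [closedSet, Finset.mem_filter] at hτ
    simp only [r1]
    rw [dif_pos hτ.2]
    rfl
  have hr2 : ∀ τ ∈ closedSet S, ∀ x, (r2 τ x : EdgeEnd n) = τ x := by
    intro τ hτ x
    simp only [closedSet, Finset.mem_filter] at hτ
    have h2 : ∀ x : EdgeEnd n, (τ x).1 ∈ Sᶜ ↔ x.1 ∈ Sᶜ := by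
      intro x
      rw [Finset.mem_compl, Finset.mem_compl, hτ.2]
    simp only [r2]
    rw [dif_pos h2]
    rfl
  have hcompl : Fintype.card {x : EdgeEnd n // x.1 ∈ Sᶜ} = 3 * (n - S.card) := by
    rw [card_fibre, Finset.card_compl, Fintype.card_fin]
  calc (closedSet S).card ≤ ((mats {x : EdgeEnd n // x.1 ∈ S}) ×ˢ
        (mats {x : EdgeEnd n // x.1 ∈ Sᶜ})).card := by
        refine Finset.card_le_card_of_injOn (fun τ => (r1 τ, r2 τ)) ?_ ?_
        · intro τ hτ
          have hm : IsMat τ := by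
            rw [Finset.mem_coe, closedSet, Finset.mem_filter, mem_mats] at hτ
            exact hτ.1
          rw [Finset.mem_coe] at hτ
          rw [Finset.mem_coe, Finset.mem_product, mem_mats, mem_mats]
          refine ⟨⟨fun x => ?_, fun x hx => ?_⟩, ⟨fun x => ?_, fun x hx => ?_⟩⟩
          · apply Subtype.ext
            rw [hr1 τ hτ, hr1 τ hτ, hm.1]
          · have := congrArg Subtype.val hx
            rw [hr1 τ hτ] at this
            exact hm.2 _ this
          · apply Subtype.ext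
            rw [hr2 τ hτ, hr2 τ hτ, hm.1]
          · have := congrArg Subtype.val hx
            rw [hr2 τ hτ] at this
            exact hm.2 _ this
        · intro τ hτ τ' hτ' h
          rw [Finset.mem_coe] at hτ hτ'
          simp only [Prod.mk.injEq] at h
          apply Equiv.ext
          intro x
          by_cases hx : x.1 ∈ S
          · have h1 := hr1 τ hτ ⟨x, hx⟩
            have h2 := hr1 τ' hτ' ⟨x, hx⟩
            rw [h.1] at h1
            rw [← h1, ← h2]
          · have hx' : x.1 ∈ Sᶜ := Finset.mem_compl.mpr hx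
            have h1 := hr2 τ hτ ⟨x, hx'⟩
            have h2 := hr2 τ' hτ' ⟨x, hx'⟩
            rw [h.2] at h1
            rw [← h1, ← h2]
    _ = _ := by
        rw [Finset.card_product, card_mats, card_mats, card_fibre, hcompl]

theorem exists_closed {h : ℕ} {τ : Perm (EdgeEnd (2 * h))} (hm : IsMat τ) (hc : ¬ Conn τ) :
    ∃ S : Finset (Fin (2 * h)), 1 ≤ S.card ∧ S.card ≤ h ∧ τ ∈ closedSet S := by
  classical
  unfold Conn at hc
  push Not at hc
  obtain ⟨u, v, huv⟩ := hc
  set R := fun a b : Fin (2 * h) => ∃ i j, τ (a, i) = (b, j) with hR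
  set S₀ : Finset (Fin (2 * h)) := univ.filter (fun w => Relation.ReflTransGen R u w) with hS₀
  have hcl : ∀ x : EdgeEnd (2 * h), x.1 ∈ S₀ → (τ x).1 ∈ S₀ := by
    intro x hx
    rw [hS₀, Finset.mem_filter] at hx ⊢
    refine ⟨Finset.mem_univ _, hx.2.tail ⟨x.2, (τ x).2, rfl⟩⟩
  have hcl' : ∀ x : EdgeEnd (2 * h), (τ x).1 ∈ S₀ ↔ x.1 ∈ S₀ := by
    intro x
    refine ⟨fun hx => ?_, hcl x⟩
    have := hcl _ hx
    rwa [hm.1] at this
  have hu : u ∈ S₀ := by
    rw [hS₀, Finset.mem_filter]
    exact ⟨Finset.mem_univ _, Relation.ReflTransGen.refl⟩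
  have hv : v ∉ S₀ := by
    rw [hS₀, Finset.mem_filter]
    exact fun h => huv h.2
  by_cases hcard : S₀.card ≤ h
  · refine ⟨S₀, Finset.card_pos.mpr ⟨u, hu⟩, hcard, ?_⟩
    simp only [closedSet, Finset.mem_filter, mem_mats]
    exact ⟨hm, hcl'⟩
  · refine ⟨S₀ᶜ, Finset.card_pos.mpr ⟨v, Finset.mem_compl.mpr hv⟩, ?_, ?_⟩
    · rw [Finset.card_compl, Fintype.card_fin]
      omega
    · simp only [closedSet, Finset.mem_filter, mem_mats]
      refine ⟨hm, fun x => ?_⟩
      rw [Finset.mem_compl, Finset.mem_compl, hcl']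

open Classical in
theorem card_disc {h : ℕ} (hh : 2 ≤ h) :
    (((mats (EdgeEnd (2 * h))).filter (fun τ => ¬ Conn τ)).card : ℝ) ≤
      3 / h * mm (2 * (3 * h)) := by
  refine le_trans ?_ (disc_sum hh)
  have hsub : (mats (EdgeEnd (2 * h))).filter (fun τ => ¬ Conn τ) ⊆
      (Finset.Icc 1 h).biUnion (fun s =>
        ((univ : Finset (Fin (2 * h))).powersetCard s).biUnion (fun S => closedSet S)) := by
    intro τ hτ
    rw [Finset.mem_filter, mem_mats] at hτ
    obtain ⟨S, h1, h2, h3⟩ := exists_closed hτ.1 hτ.2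
    rw [Finset.mem_biUnion]
    refine ⟨S.card, Finset.mem_Icc.mpr ⟨h1, h2⟩, ?_⟩
    rw [Finset.mem_biUnion]
    exact ⟨S, Finset.mem_powersetCard.mpr ⟨Finset.subset_univ _, rfl⟩, h3⟩
  have h1 : ((mats (EdgeEnd (2 * h))).filter (fun τ => ¬ Conn τ)).card ≤
      ∑ s ∈ Finset.Icc 1 h, ((2 * h).choose s * (mm (3 * s) * mm (3 * (2 * h - s)))) := by
    refine (Finset.card_le_card hsub).trans (Finset.card_biUnion_le.trans ?_)
    apply Finset.sum_le_sum
    intro s _
    refine Finset.card_biUnion_le.trans ?_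
    calc ∑ S ∈ (univ : Finset (Fin (2 * h))).powersetCard s, (closedSet S).card
        ≤ ∑ S ∈ (univ : Finset (Fin (2 * h))).powersetCard s,
          (mm (3 * s) * mm (3 * (2 * h - s))) := by
          apply Finset.sum_le_sum
          intro S hS
          have h2 := card_closedSet S
          rw [(Finset.mem_powersetCard.mp hS).2] at h2
          exact h2
      _ = _ := by
          rw [Finset.sum_const, Finset.card_powersetCard, Finset.card_univ, Fintype.card_fin,
            smul_eq_mul]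
  exact_mod_cast h1

end Pool.Agent.helper49.Wh
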