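import Pool.Agent.helper49.WhGlobal
import Pool.Agent.helper49.WhDisc

/-!
Counting isomorphism classes of small degree.
-/

open Equiv Finset Filter Topology

namespace Pool.Agent.helper49.Wh

variable {n : ℕ}

theorem mate_inj : Function.Injective (fun G : CubicGraph n => G.mate) := by
  intro G H h
  cases G
  cases H
  simp only at h
  subst h
  rfl

theorem isMat_mate (G : CubicGraph n) : IsMat G.mate := ⟨G.mate_mate, G.mate_ne⟩

theorem conn_mate (G : CubicGraph n) : Conn G.mate := G.connected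

noncomputable instance : Fintype (CubicGraph n) := Fintype.ofInjective _ mate_inj

noncomputable instance : DecidableEq (CubicGraph n) := Classical.decEq _

noncomputable instance : DecidableEq (IsoClass n) := Classical.decEq _

noncomputable instance : Fintype (IsoClass n) := by
  classical
  exact Quotient.fintype (isoSetoid n)

/-- The class of a graph. -/
def toClass (G : CubicGraph n) : IsoClass n := Quotient.mk _ G

theorem toClass_eq {G H : CubicGraph n} : toClass G = toClass H ↔ Isomorphic G H := by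
  unfold toClass
  exact Quotient.eq (r := isoSetoid n)

theorem isomorphic_iff {G H : CubicGraph n} :
    Isomorphic G H ↔ ∃ σ, FP σ ∧ σ * G.mate = H.mate * σ := by
  constructor
  · rintro ⟨ρ, σ, h1, h2⟩
    refine ⟨σ, ⟨ρ, h1⟩, ?_⟩
    ext1 x
    exact h2 x
  · rintro ⟨σ, ⟨ρ, h1⟩, h2⟩
    refine ⟨ρ, σ, h1, fun x => ?_⟩
    have := congrArg (fun f : Perm (EdgeEnd n) => f x) h2
    simpa using this

/-- Build a cubic graph from a connected matching. -/
def mkGraph (τ : Perm (EdgeEnd n)) (hm : IsMat τ) (hc : Conn τ) : CubicGraph n :=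
  ⟨τ, hm.1, hm.2, hc⟩

open Classical in
/-- All fibre-preserving permutations. -/
noncomputable def Wset (n : ℕ) : Finset (Perm (EdgeEnd n)) := univ.filter (fun σ => FP σ)

theorem mem_Wset {σ : Perm (EdgeEnd n)} : σ ∈ Wset n ↔ FP σ := by
  simp [Wset]

theorem Wset_pos (n : ℕ) : 0 < (Wset n).card :=
  Finset.card_pos.mpr ⟨1, mem_Wset.mpr ⟨1, fun _ => rfl⟩⟩

open Classical in
/-- The stabilizer. -/
noncomputable def Stab (τ : Perm (EdgeEnd n)) : Finset (Perm (EdgeEnd n)) :=
  univ.filter (fun σ => FP σ ∧ σ * τ = τ * σ)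

theorem mem_Stab {τ σ : Perm (EdgeEnd n)} : σ ∈ Stab τ ↔ FP σ ∧ σ * τ = τ * σ := by
  simp [Stab]

theorem card_Stab_le (τ : Perm (EdgeEnd n)) :
    (Stab τ).card ≤ (Kset τ).card + (isos τ τ).card := by
  classical
  have : Stab τ ⊆ Kset τ ∪ isos τ τ := by
    intro σ hσ
    rw [mem_Stab] at hσ
    rw [Finset.mem_union, mem_Kset, mem_isos]
    by_cases h : FP0 σ
    · exact Or.inl ⟨h, hσ.2⟩
    · exact Or.inr ⟨⟨hσ.1, h⟩, hσ.2⟩
  exact (Finset.card_le_card this).trans (Finset.card_union_le _ _)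

open Classical in
/-- The action on graphs. -/
noncomputable def act (σ : Perm (EdgeEnd n)) (G : CubicGraph n) : CubicGraph n :=
  if h : FP σ then mkGraph (σ * G.mate * σ⁻¹) (isMat_conj (isMat_mate G))
    (conj_conn (conn_mate G) h) else G

theorem act_mate {σ : Perm (EdgeEnd n)} (h : FP σ) (G : CubicGraph n) :
    (act σ G).mate = σ * G.mate * σ⁻¹ := by
  unfold act
  rw [dif_pos h]
  rfl

/-- Every class is large in the weighted count. -/
theorem card_W_le (x : IsoClass n) :
    (Wset n).card ≤ ∑ G ∈ univ.filter (fun G : CubicGraph n => toClass G = x),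
      (Stab G.mate).card := by
  classical
  obtain ⟨G₀, rfl⟩ := Quotient.exists_rep x
  change (Wset n).card ≤ ∑ G ∈ univ.filter (fun G : CubicGraph n => toClass G = toClass G₀), _
  have h1 : (Wset n).card = ∑ G ∈ univ.filter (fun G : CubicGraph n => toClass G = toClass G₀),
      ((Wset n).filter (fun σ => act σ G₀ = G)).card := by
    apply Finset.card_eq_sum_card_fiberwise
    intro σ hσ
    rw [Finset.mem_coe, mem_Wset] at hσ
    rw [Finset.mem_coe, Finset.mem_filter]
    refine ⟨Finset.mem_univ _, ?_⟩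
    symm
    rw [toClass_eq, isomorphic_iff]
    refine ⟨σ, hσ, ?_⟩
    rw [act_mate hσ]
    simp
  rw [h1]
  apply Finset.sum_le_sum
  intro G _
  by_cases hne : ((Wset n).filter (fun σ => act σ G₀ = G)).Nonempty
  · obtain ⟨σ₀, hσ₀⟩ := hne
    rw [Finset.mem_filter, mem_Wset] at hσ₀
    refine Finset.card_le_card_of_injOn (fun σ => σ * σ₀⁻¹) ?_ ?_
    · intro σ hσ
      rw [Finset.mem_coe, Finset.mem_filter, mem_Wset] at hσ
      rw [Finset.mem_coe, mem_Stab]
      refine ⟨hσ.1.mul hσ₀.1.inv, ?_⟩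
      have e1 : G.mate = σ * G₀.mate * σ⁻¹ := by rw [← hσ.2, act_mate hσ.1]
      have e2 : G.mate = σ₀ * G₀.mate * σ₀⁻¹ := by rw [← hσ₀.2, act_mate hσ₀.1]
      calc σ * σ₀⁻¹ * G.mate = σ * σ₀⁻¹ * (σ₀ * G₀.mate * σ₀⁻¹) := by rw [← e2]
        _ = (σ * G₀.mate * σ⁻¹) * (σ * σ₀⁻¹) := by group
        _ = G.mate * (σ * σ₀⁻¹) := by rw [← e1]
    · intro σ _ σ' _ h
      exact mul_right_cancel h
  · rw [Finset.not_nonempty_iff_eq_empty] at hne
    rw [hne]
    simp

/-- Every class has at most `|W|` members. -/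
theorem card_class_le (x : IsoClass n) :
    (univ.filter (fun G : CubicGraph n => toClass G = x)).card ≤ (Wset n).card := by
  classical
  obtain ⟨G₀, rfl⟩ := Quotient.exists_rep x
  have h : ∀ G : CubicGraph n, ∃ σ, toClass G = toClass G₀ →
      FP σ ∧ σ * G₀.mate = G.mate * σ := by
    intro G
    by_cases hG : toClass G = toClass G₀
    · obtain ⟨σ, hσ⟩ := isomorphic_iff.mp (toClass_eq.mp hG.symm)
      exact ⟨σ, fun _ => hσ⟩
    · exact ⟨1, fun h => absurd h hG⟩
  choose F hF using h
  refine Finset.card_le_card_of_injOn F ?_ ?_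
  · intro G hG
    rw [Finset.mem_coe, Finset.mem_filter] at hG
    rw [Finset.mem_coe, mem_Wset]
    exact (hF G hG.2).1
  · intro G hG G' hG' he
    rw [Finset.mem_coe, Finset.mem_filter] at hG hG'
    have h1 := (hF G hG.2).2
    have h2 := (hF G' hG'.2).2
    rw [← he, h1] at h2
    exact mate_inj (mul_right_cancel h2)

/-- A graph whose class has small degree has many pairs of moves with isomorphic results. -/
theorem low_degree {d : ℕ} (hd : 0 < d) (hn : 216 * d ≤ n) (G : CubicGraph n)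
    (hdeg : deg (toClass G) < d) : (Kset G.mate).card * n ^ 2 ≤ 1458 * d * Ncount G.mate := by
  classical
  have hm := isMat_mate G
  let cls : Tr n → IsoClass n := fun m =>
    if h : Valid G.mate m.1 m.2.1 m.2.2 then
      toClass (mkGraph (mv G.mate m.2.1 m.2.2) (mv_isMat hm _ _) (mv_conn hm (conn_mate G) h))
    else toClass G
  have hcls : ∀ m ∈ nmoves G.mate, ∃ H : CubicGraph n, cls m = toClass H ∧
      H.mate = mv G.mate m.2.1 m.2.2 ∧ WhiteheadMove G H := by
    intro m hmem
    rw [mem_nmoves] at hmem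
    refine ⟨mkGraph (mv G.mate m.2.1 m.2.2) (mv_isMat hm _ _)
      (mv_conn hm (conn_mate G) hmem.1), ?_, rfl, ?_⟩
    · simp only [cls]
      rw [dif_pos hmem.1]
    · obtain ⟨h1, h2, h3, h4, h5⟩ := hmem.1
      exact ⟨m.1, m.2.1, m.2.2, h1, h2, h3, h4, h5, rfl⟩
  refine Ncount_ge hm cls hd ?_ ?_ hn
  · intro m₁ h₁ m₂ h₂ he
    obtain ⟨H₁, a1, a2, _⟩ := hcls m₁ h₁
    obtain ⟨H₂, b1, b2, _⟩ := hcls m₂ h₂
    rw [a1, b1, toClass_eq, isomorphic_iff, a2, b2] at he
    exact he
  · have hfin : ((Gamma n).neighborSet (toClass G)).Finite := Set.toFinite _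
    have hsub : (nmoves G.mate).image cls ⊆ insert (toClass G) hfin.toFinset := by
      intro y hy
      rw [Finset.mem_image] at hy
      obtain ⟨m, hmem, rfl⟩ := hy
      obtain ⟨H, h1, _, h3⟩ := hcls m hmem
      rw [Finset.mem_insert, h1]
      by_cases he : toClass H = toClass G
      · exact Or.inl he
      · right
        rw [Set.Finite.mem_toFinset, SimpleGraph.mem_neighborSet]
        unfold Gamma
        rw [SimpleGraph.fromRel_adj]
        exact ⟨fun h => he h.symm, Or.inl ⟨G, H, rfl, rfl, h3⟩⟩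
    calc ((nmoves G.mate).image cls).card ≤ _ := Finset.card_le_card hsub
      _ ≤ hfin.toFinset.card + 1 := Finset.card_insert_le _ _
      _ = deg (toClass G) + 1 := by
          unfold deg
          rw [Set.ncard_eq_toFinset_card _ hfin]
      _ ≤ d := hdeg

/-- The number of classes of degree less than `d`. -/
noncomputable def nbad (n d : ℕ) : ℕ := (univ.filter (fun x : IsoClass n => deg x < d)).card

theorem nbad_bound {h d : ℕ} (hd : 0 < d) (hn : 216 * d ≤ 2 * h) :
    ((2 * h : ℕ) : ℝ) ^ 2 * (nbad (2 * h) d * (Wset (2 * h)).card) ≤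
      (13122 * d + 1) * bigSum h := by
  classical
  set B := univ.filter (fun G : CubicGraph (2 * h) => deg (toClass G) < d) with hB
  -- the classes
  have h1 : nbad (2 * h) d * (Wset (2 * h)).card ≤ ∑ G ∈ B, (Stab G.mate).card := by
    have e1 : ∑ G ∈ B, (Stab G.mate).card =
        ∑ x ∈ univ.filter (fun x : IsoClass (2 * h) => deg x < d),
          ∑ G ∈ B.filter (fun G => toClass G = x), (Stab G.mate).card := by
      symm
      apply Finset.sum_fiberwise_of_maps_to
      intro G hG
      rw [hB, Finset.mem_filter] at hG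
      rw [Finset.mem_filter]
      exact ⟨Finset.mem_univ _, hG.2⟩
    rw [e1]
    unfold nbad
    rw [← smul_eq_mul, ← Finset.sum_const]
    apply Finset.sum_le_sum
    intro x hx
    rw [Finset.mem_filter] at hx
    refine (card_W_le x).trans (le_of_eq ?_)
    apply Finset.sum_congr _ (fun _ _ => rfl)
    ext G
    simp only [hB, Finset.mem_filter, Finset.mem_univ, true_and]
    exact ⟨fun h => ⟨by rw [h]; exact hx.2, h⟩, fun h => h.2⟩
  have h2 : ∑ G ∈ B, (Stab G.mate).card ≤
      ∑ G ∈ B, (Kset G.mate).card + ∑ G ∈ B, (isos G.mate G.mate).card := by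
    rw [← Finset.sum_add_distrib]
    exact Finset.sum_le_sum fun G _ => card_Stab_le _
  have himg : ∀ F : Perm (EdgeEnd (2 * h)) → ℕ, ∑ G ∈ B, F G.mate ≤
      ∑ τ ∈ mats (EdgeEnd (2 * h)), F τ := by
    intro F
    rw [← Finset.sum_image (f := F) (g := fun G : CubicGraph (2 * h) => G.mate)
      (fun G _ H _ h => mate_inj h)]
    apply Finset.sum_le_sum_of_subset
    intro τ hτ
    rw [Finset.mem_image] at hτ
    obtain ⟨G, _, rfl⟩ := hτ
    rw [mem_mats]
    exact isMat_mate G
  have h3 : (∑ G ∈ B, (Kset G.mate).card) * (2 * h) ^ 2 ≤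
      1458 * d * ∑ τ ∈ mats (EdgeEnd (2 * h)), Ncount τ := by
    rw [Finset.sum_mul]
    calc ∑ G ∈ B, (Kset G.mate).card * (2 * h) ^ 2 ≤ ∑ G ∈ B, 1458 * d * Ncount G.mate := by
          apply Finset.sum_le_sum
          intro G hG
          rw [hB, Finset.mem_filter] at hG
          exact low_degree hd hn G hG.2
      _ = 1458 * d * ∑ G ∈ B, Ncount G.mate := by rw [Finset.mul_sum]
      _ ≤ _ := Nat.mul_le_mul_left _ (himg Ncount)
  have h4 := sum_Ncount (2 * h)
  have h5 := sum_auto (2 * h)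
  have h6 := himg (fun τ => (isos τ τ).card)
  set S : ℕ := ∑ ρ ∈ univ.filter (fun ρ : Perm (Fin (2 * h)) => ρ ≠ 1),
      ∑ κ : Fin (2 * h) → Perm (Fin 3), ∑ f₁ : EdgeEnd (2 * h), ∑ g₁ : EdgeEnd (2 * h),
        ∑ f₂ : EdgeEnd (2 * h), ∑ g₂ : EdgeEnd (2 * h),
          (comm (swap f₂ g₂ * sh ρ κ * swap f₁ g₁)).card with hS
  have hSr : (S : ℝ) = bigSum h := by
    rw [hS]
    unfold bigSum
    push_cast
    rfl
  have h7 : (2 * h) ^ 2 * (nbad (2 * h) d * (Wset (2 * h)).card) ≤ (13122 * d + 1) * S := by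
    have a1 : (2 * h) ^ 2 * ∑ G ∈ B, (isos G.mate G.mate).card ≤ S := by
      calc (2 * h) ^ 2 * ∑ G ∈ B, (isos G.mate G.mate).card
          ≤ (3 * (2 * h)) ^ 2 * ∑ τ ∈ mats (EdgeEnd (2 * h)), (isos τ τ).card :=
            Nat.mul_le_mul (Nat.pow_le_pow_left (by omega) 2) h6
        _ ≤ S := h5
    have a2 : (∑ G ∈ B, (Kset G.mate).card) * (2 * h) ^ 2 ≤ 1458 * d * (9 * S) :=
      h3.trans (Nat.mul_le_mul_left _ h4)
    calc (2 * h) ^ 2 * (nbad (2 * h) d * (Wset (2 * h)).card)
        ≤ (2 * h) ^ 2 * (∑ G ∈ B, (Kset G.mate).card +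
            ∑ G ∈ B, (isos G.mate G.mate).card) := Nat.mul_le_mul_left _ (h1.trans h2)
      _ = (∑ G ∈ B, (Kset G.mate).card) * (2 * h) ^ 2 +
            (2 * h) ^ 2 * ∑ G ∈ B, (isos G.mate G.mate).card := by ring
      _ ≤ 1458 * d * (9 * S) + S := Nat.add_le_add a2 a1
      _ = _ := by ring
  rw [← hSr]
  exact_mod_cast h7

theorem ntotal_bound {h : ℕ} (hh : 6 ≤ h) :
    (mm (2 * (3 * h)) : ℝ) / 2 ≤ (Fintype.card (IsoClass (2 * h)) : ℝ) *
      (Wset (2 * h)).card := by
  classical
  -- classes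
  have h1 : Fintype.card (CubicGraph (2 * h)) ≤
      Fintype.card (IsoClass (2 * h)) * (Wset (2 * h)).card := by
    have e1 : Fintype.card (CubicGraph (2 * h)) = ∑ x : IsoClass (2 * h),
        (univ.filter (fun G : CubicGraph (2 * h) => toClass G = x)).card := by
      rw [← Finset.card_univ]
      exact Finset.card_eq_sum_card_fiberwise (fun _ _ => Finset.mem_univ _)
    rw [e1]
    calc _ ≤ ∑ x : IsoClass (2 * h), (Wset (2 * h)).card :=
          Finset.sum_le_sum fun x _ => card_class_le x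
      _ = _ := by rw [Finset.sum_const, Finset.card_univ, smul_eq_mul]
  have h2 : ((mats (EdgeEnd (2 * h))).filter (fun τ => Conn τ)).card ≤
      Fintype.card (CubicGraph (2 * h)) := by
    have hsub : (mats (EdgeEnd (2 * h))).filter (fun τ => Conn τ) ⊆
        (univ : Finset (CubicGraph (2 * h))).image (fun G => G.mate) := by
      intro τ hτ
      rw [Finset.mem_filter, mem_mats] at hτ
      rw [Finset.mem_image]
      exact ⟨mkGraph τ hτ.1 hτ.2, Finset.mem_univ _, rfl⟩
    refine (Finset.card_le_card hsub).trans (Finset.card_image_le.trans ?_)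
    rw [Finset.card_univ]
  have h3 := Finset.card_filter_add_card_filter_not (s := mats (EdgeEnd (2 * h)))
    (fun τ => Conn τ)
  have h4 := card_disc (h := h) (by omega)
  have h5 : (mats (EdgeEnd (2 * h))).card = mm (2 * (3 * h)) := by
    rw [card_mats]
    congr 1
    simp
    ring
  have hhr : (6 : ℝ) ≤ h := by exact_mod_cast hh
  have hmm : (0 : ℝ) ≤ mm (2 * (3 * h)) := by positivity
  have h6 : 3 / (h : ℝ) * mm (2 * (3 * h)) ≤ (mm (2 * (3 * h)) : ℝ) / 2 := by
    have : 3 / (h : ℝ) ≤ 1 / 2 := by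
      rw [div_le_div_iff₀ (by linarith) (by norm_num)]
      linarith
    nlinarith
  have h7 : (((mats (EdgeEnd (2 * h))).filter (fun τ => Conn τ)).card : ℝ) +
      (((mats (EdgeEnd (2 * h))).filter (fun τ => ¬ Conn τ)).card : ℝ) =
        mm (2 * (3 * h)) := by
    rw [← h5, ← h3]
    push_cast
    rfl
  have h8 : (((mats (EdgeEnd (2 * h))).filter (fun τ => Conn τ)).card : ℝ) ≤
      (Fintype.card (IsoClass (2 * h)) : ℝ) * (Wset (2 * h)).card := by
    exact_mod_cast h2.trans h1
  linarith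

/-- The proportion of isomorphism classes of degree at least `d`. -/
noncomputable def prop (n d : ℕ) : ℝ :=
  (Nat.card {x : IsoClass n // d ≤ deg x} : ℝ) / Nat.card (IsoClass n)

theorem prop_eq (n d : ℕ) (hN : 0 < Fintype.card (IsoClass n)) :
    prop n d = 1 - (nbad n d : ℝ) / Fintype.card (IsoClass n) := by
  classical
  have h1 : Nat.card {x : IsoClass n // d ≤ deg x} + nbad n d = Fintype.card (IsoClass n) := by
    rw [Nat.card_eq_fintype_card, Fintype.card_subtype]
    unfold nbad
    have h2 := Finset.card_filter_add_card_filter_not (s := (univ : Finset (IsoClass n)))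
      (fun x => d ≤ deg x)
    rw [Finset.card_univ] at h2
    rw [← h2]
    congr 2
    ext x
    simp
  have hNr : (0 : ℝ) < Fintype.card (IsoClass n) := by exact_mod_cast hN
  unfold prop
  rw [Nat.card_eq_fintype_card (α := IsoClass n), eq_sub_iff_add_eq, ← add_div,
    div_eq_one_iff_eq hNr.ne']
  exact_mod_cast h1

theorem nbad_mono (n : ℕ) {d d' : ℕ} (h : d ≤ d') : nbad n d ≤ nbad n d' := by
  classical
  unfold nbad
  apply Finset.card_le_card
  intro x hx
  rw [Finset.mem_filter] at hx ⊢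
  exact ⟨hx.1, lt_of_lt_of_le hx.2 h⟩

/-- For every sequence `d n = o(√n)`, almost all isomorphism classes of cubic graphs have degree
at least `d n` in the graph of Whitehead moves. -/
theorem main (d : ℕ → ℕ) (hd : Tendsto (fun n : ℕ => (d n : ℝ) / √(n : ℝ)) atTop (𝓝 0)) :
    Tendsto (fun m : ℕ => prop (2 * m) (d (2 * m))) atTop (𝓝 1) := by
  obtain ⟨C, hC, h0, hbound⟩ := bigSum_le
  have h2m : Tendsto (fun m : ℕ => 2 * m) atTop atTop :=
    tendsto_id.const_mul_atTop' (by norm_num)
  have hd2 : Tendsto (fun m : ℕ => (d (2 * m) : ℝ) / √((2 * m : ℕ) : ℝ)) atTop (𝓝 0) :=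
    hd.comp h2m
  have hinv : Tendsto (fun m : ℕ => 1 / √(m : ℝ)) atTop (𝓝 0) := by
    have h1 : Tendsto (fun m : ℕ => √(m : ℝ)) atTop atTop :=
      Real.tendsto_sqrt_atTop.comp tendsto_natCast_atTop_atTop
    refine h1.inv_tendsto_atTop.congr (fun m => ?_)
    simp
  -- (d + 1) / √m tends to zero
  have hD : Tendsto (fun m : ℕ => ((d (2 * m) : ℝ) + 1) / √(m : ℝ)) atTop (𝓝 0) := by
    have e : ∀ m : ℕ, ((d (2 * m) : ℝ) + 1) / √(m : ℝ) =
        √2 * ((d (2 * m) : ℝ) / √((2 * m : ℕ) : ℝ)) + 1 / √(m : ℝ) := by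
      intro m
      push_cast
      rw [Real.sqrt_mul (by norm_num)]
      have h2 : (0 : ℝ) < √2 := by positivity
      rcases Nat.eq_zero_or_pos m with rfl | hm
      · simp
      · have : (0 : ℝ) < √(m : ℝ) := by
          apply Real.sqrt_pos.mpr
          exact_mod_cast hm
        field_simp
    simp only [e]
    have := (hd2.const_mul √2).add hinv
    simpa using this
  -- the bound for the bad proportion
  have hmain : ∀ᶠ m : ℕ in atTop, 1 - (13123 * C / 2) * (((d (2 * m) : ℝ) + 1) / √(m : ℝ)) ≤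
      prop (2 * m) (d (2 * m)) ∧ prop (2 * m) (d (2 * m)) ≤ 1 := by
    have ev1 : ∀ᶠ m : ℕ in atTop, ((d (2 * m) : ℝ) + 1) / √(m : ℝ) ≤ 1 / 216 := by
      have := hD.eventually (ge_mem_nhds (show (0 : ℝ) < 1 / 216 by norm_num))
      exact this
    filter_upwards [ev1, eventually_ge_atTop h0, eventually_ge_atTop 6] with m hm1 hm2 hm3
    have hmr : (6 : ℝ) ≤ m := by exact_mod_cast hm3
    have hmpos : (0 : ℝ) < m := by linarith
    have hsq : 0 < √(m : ℝ) := Real.sqrt_pos.mpr hmpos
    have hsq1 : √(m : ℝ) ≤ m := by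
      rw [Real.sqrt_le_left hmpos.le]
      nlinarith
    set D : ℕ := d (2 * m) + 1 with hDdef
    have hDr : (D : ℝ) = (d (2 * m) : ℝ) + 1 := by rw [hDdef]; push_cast; ring
    have h216 : 216 * D ≤ 2 * m := by
      rw [div_le_iff₀ hsq] at hm1
      have : (216 : ℝ) * D ≤ 2 * m := by
        rw [hDr]
        linarith
      exact_mod_cast this
    have b1 := nbad_bound (h := m) (d := D) (by omega) h216
    have b2 := hbound m hm2 (by omega)
    have b3 := ntotal_bound hm3
    have hmm : (0 : ℝ) < mm (2 * (3 * m)) := by exact_mod_cast mm_pos (3 * m)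
    have hW : (0 : ℝ) < (Wset (2 * m)).card := by exact_mod_cast Wset_pos (2 * m)
    have hN : (0 : ℝ) < Fintype.card (IsoClass (2 * m)) := by
      by_contra hcon
      have h3 : (Fintype.card (IsoClass (2 * m)) : ℝ) ≤ 0 := not_lt.mp hcon
      have h4 : (Fintype.card (IsoClass (2 * m)) : ℝ) * (Wset (2 * m)).card ≤ 0 :=
        mul_nonpos_of_nonpos_of_nonneg h3 hW.le
      linarith
    have hNn : 0 < Fintype.card (IsoClass (2 * m)) := by exact_mod_cast hN
    rw [prop_eq _ _ hNn]
    constructor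
    · have h3 : (nbad (2 * m) (d (2 * m)) : ℝ) ≤ nbad (2 * m) D := by
        exact_mod_cast nbad_mono (2 * m) (by omega)
      have h4 : (nbad (2 * m) D : ℝ) / Fintype.card (IsoClass (2 * m)) ≤
          (13123 * C / 2) * (((d (2 * m) : ℝ) + 1) / √(m : ℝ)) := by
        rw [div_le_iff₀ hN]
        have h5 : (nbad (2 * m) D : ℝ) * (Wset (2 * m)).card ≤
            (13123 * C / 4) * ((D : ℝ) / √(m : ℝ)) * mm (2 * (3 * m)) := by
          have h6 : ((2 * m : ℕ) : ℝ) ^ 2 * ((nbad (2 * m) D : ℝ) * (Wset (2 * m)).card) ≤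
              (13123 * D) * (C * (m : ℝ) ^ 2 / √(m : ℝ) * mm (2 * (3 * m))) := by
            refine b1.trans ?_
            have hbs : bigSum m ≤ C * (m : ℝ) ^ 2 / √(m : ℝ) * mm (2 * (3 * m)) := b2
            have hX : (0 : ℝ) ≤ C * (m : ℝ) ^ 2 / √(m : ℝ) * mm (2 * (3 * m)) := by positivity
            have h1D : (1 : ℝ) ≤ D := by
              rw [hDr]
              have : (0 : ℝ) ≤ d (2 * m) := by positivity
              linarith
            calc (13122 * (D : ℝ) + 1) * bigSum m
                ≤ (13122 * (D : ℝ) + 1) *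
                  (C * (m : ℝ) ^ 2 / √(m : ℝ) * mm (2 * (3 * m))) := by gcongr
              _ ≤ (13123 * D) * (C * (m : ℝ) ^ 2 / √(m : ℝ) * mm (2 * (3 * m))) := by
                  apply mul_le_mul_of_nonneg_right _ hX
                  linarith
          push_cast at h6
          have h7 : (0 : ℝ) < (2 * (m : ℝ)) ^ 2 := by positivity
          have h8 : (2 * (m : ℝ)) ^ 2 * ((nbad (2 * m) D : ℝ) * (Wset (2 * m)).card) ≤
              (2 * (m : ℝ)) ^ 2 *
                ((13123 * C / 4) * ((D : ℝ) / √(m : ℝ)) * mm (2 * (3 * m))) := by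
            refine h6.trans (le_of_eq ?_)
            field_simp
            ring
          exact le_of_mul_le_mul_left h8 h7
        have h9 : (13123 * C / 4) * ((D : ℝ) / √(m : ℝ)) * mm (2 * (3 * m)) ≤
            (13123 * C / 2) * ((D : ℝ) / √(m : ℝ)) *
              ((Fintype.card (IsoClass (2 * m)) : ℝ) * (Wset (2 * m)).card) := by
          have h10 : (13123 * C / 4) * ((D : ℝ) / √(m : ℝ)) * mm (2 * (3 * m)) =
              (13123 * C / 2) * ((D : ℝ) / √(m : ℝ)) * ((mm (2 * (3 * m)) : ℝ) / 2) := by ring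
          rw [h10]
          gcongr
        rw [← hDr]
        have h11 : (nbad (2 * m) D : ℝ) * (Wset (2 * m)).card ≤
            ((13123 * C / 2) * ((D : ℝ) / √(m : ℝ)) *
              (Fintype.card (IsoClass (2 * m)) : ℝ)) * (Wset (2 * m)).card := by
          refine (h5.trans h9).trans (le_of_eq ?_)
          ring
        exact le_of_mul_le_mul_right h11 hW
      have h12 : (nbad (2 * m) (d (2 * m)) : ℝ) / Fintype.card (IsoClass (2 * m)) ≤
          (nbad (2 * m) D : ℝ) / Fintype.card (IsoClass (2 * m)) := by gcongr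
      linarith
    · have : (0 : ℝ) ≤ (nbad (2 * m) (d (2 * m)) : ℝ) / Fintype.card (IsoClass (2 * m)) := by
        positivity
      linarith
  have hlow : Tendsto (fun m : ℕ =>
      1 - (13123 * C / 2) * (((d (2 * m) : ℝ) + 1) / √(m : ℝ))) atTop (𝓝 1) := by
    have := (hD.const_mul (13123 * C / 2)).const_sub 1
    simpa using this
  exact tendsto_of_tendsto_of_tendsto_of_le_of_le' hlow tendsto_const_nhds
    (hmain.mono fun m h => h.1) (hmain.mono fun m h => h.2)

end Pool.Agent.helper49.Wh
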