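import Pool.Agent.helper49.WhTerm
import Pool.Agent.helper49.WhCycSum

/-!
The first-moment sum over almost-automorphisms.
-/

open Equiv Finset

namespace Pool.Agent.helper49.Wh

/-- The number of quintuples: a fibre-preserving permutation not fixing all vertices, two
transpositions of darts, and a matching commuting with the product. -/
noncomputable def bigSum (h : ℕ) : ℝ :=
  ∑ ρ ∈ univ.filter (fun ρ : Perm (Fin (2 * h)) => ρ ≠ 1),
    ∑ κ : Fin (2 * h) → Perm (Fin 3),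
      ∑ f₁ : Fin (2 * h) × Fin 3, ∑ g₁ : Fin (2 * h) × Fin 3,
      ∑ f₂ : Fin (2 * h) × Fin 3, ∑ g₂ : Fin (2 * h) × Fin 3,
        ((comm (swap f₂ g₂ * sh ρ κ * swap f₁ g₁)).card : ℝ)

theorem sqrt_fact_le {n c s : ℕ} (hn : 1 ≤ n) (hcn : c ≤ n) (hcs : 2 * c ≤ s) :
    (√(c.factorial : ℝ)) ^ 3 ≤ (c.factorial : ℝ) * (√(√(n : ℝ))) ^ s := by
  have hf : (0 : ℝ) ≤ c.factorial := by positivity
  have h1 : (√(c.factorial : ℝ)) ^ 3 = (c.factorial : ℝ) * √(c.factorial : ℝ) := by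
    rw [pow_succ, Real.sq_sqrt hf]
  rw [h1]
  have hu : 1 ≤ √(√(n : ℝ)) := by
    rw [Real.one_le_sqrt, Real.one_le_sqrt]
    exact_mod_cast hn
  have h2 : √(c.factorial : ℝ) ≤ (√(√(n : ℝ))) ^ s := by
    calc √(c.factorial : ℝ) ≤ √((n : ℝ) ^ c) := by
          apply Real.sqrt_le_sqrt
          have h3 : c.factorial ≤ n ^ c :=
            (Nat.factorial_le_pow c).trans (Nat.pow_le_pow_left hcn c)
          exact_mod_cast h3
      _ = √(((√(n : ℝ)) ^ c) ^ 2) := by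
          rw [← pow_mul, mul_comm c 2, pow_mul, Real.sq_sqrt (by positivity)]
      _ = (√(n : ℝ)) ^ c := Real.sqrt_sq (by positivity)
      _ = (√(√(n : ℝ))) ^ (2 * c) := by
          rw [pow_mul, Real.sq_sqrt (Real.sqrt_nonneg _)]
      _ ≤ (√(√(n : ℝ))) ^ s := pow_le_pow_right₀ hu hcs
  gcongr

theorem bigSum_le : ∃ C : ℝ, 0 < C ∧ ∃ h0 : ℕ, ∀ h : ℕ, h0 ≤ h → 1 ≤ h →
    bigSum h ≤ C * (h : ℝ) ^ 2 / √(h : ℝ) * mm (2 * (3 * h)) := by
  have hepos : (0 : ℝ) < Real.exp 1 := Real.exp_pos 1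
  set A0 : ℝ := 7 * Real.exp 10 with hA0
  set C4 : ℝ := 9216 * Real.exp 21 * √2 / 27 with hC4
  have hC4pos : 0 < C4 := by positivity
  set C0 : ℝ := 11520 * Real.exp 27 * (2 * Real.exp (2 * A0 ^ 2)) * (4 * C4) with hC0
  refine ⟨9 / (Real.exp 1) ^ 2 * C0, by positivity, ⌈16 * C4 ^ 2⌉₊, ?_⟩
  intro h hh0 hh1
  have hhr : (1 : ℝ) ≤ h := by exact_mod_cast hh1
  have hhpos : (0 : ℝ) < h := by linarith
  have hh16 : 16 * C4 ^ 2 ≤ h := (Nat.le_ceil _).trans (by exact_mod_cast hh0)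
  set q : ℝ := √(Real.exp 1 / ((3 * h : ℕ) : ℝ)) with hq
  have hq0 : 0 ≤ q := Real.sqrt_nonneg _
  have hM3 : (3 : ℝ) ≤ ((3 * h : ℕ) : ℝ) := by push_cast; linarith
  have hMpos : (0 : ℝ) < ((3 * h : ℕ) : ℝ) := by linarith
  have he3 : Real.exp 1 < 3 := lt_trans Real.exp_one_lt_d9 (by norm_num)
  have hq2 : q ^ 2 = Real.exp 1 / ((3 * h : ℕ) : ℝ) := Real.sq_sqrt (by positivity)
  have hq1 : q ≤ 1 := by
    rw [hq, Real.sqrt_le_one, div_le_one hMpos]
    linarith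
  set u : ℝ := √(√((2 * h : ℕ) : ℝ)) with hu
  set x : ℝ := 48 * Real.exp 9 * q ^ 3 * u with hx
  have hx0 : 0 ≤ x := by positivity
  have hn : (Fintype.card (Fin (2 * h)) : ℝ) = 2 * h := by simp
  -- the square of n x
  have hnx2 : ((Fintype.card (Fin (2 * h)) : ℝ) * x) ^ 2 = C4 / √(h : ℝ) := by
    rw [hn, hx]
    have e1 : (2 * (h : ℝ) * (48 * Real.exp 9 * q ^ 3 * u)) ^ 2 =
        9216 * (Real.exp 9) ^ 2 * (h : ℝ) ^ 2 * (q ^ 2) ^ 3 * u ^ 2 := by ring
    rw [e1, hq2, hu, Real.sq_sqrt (Real.sqrt_nonneg _)]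
    have e2 : √((2 * h : ℕ) : ℝ) = √2 * √(h : ℝ) := by
      push_cast
      rw [Real.sqrt_mul (by norm_num)]
    rw [e2]
    have e3 : √(h : ℝ) * √(h : ℝ) = h := Real.mul_self_sqrt hhpos.le
    have e4 : (0 : ℝ) < √(h : ℝ) := Real.sqrt_pos.mpr hhpos
    have e5 : Real.exp 21 = (Real.exp 9) ^ 2 * (Real.exp 1) ^ 3 := by
      rw [← Real.exp_nat_mul, ← Real.exp_nat_mul, ← Real.exp_add]
      congr 1; push_cast; norm_num
    rw [hC4, e5, eq_div_iff e4.ne']
    push_cast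
    have e6 : 9216 * Real.exp 9 ^ 2 * (h : ℝ) ^ 2 * (Real.exp 1 / (3 * (h : ℝ))) ^ 3 *
        (√2 * √(h : ℝ)) * √(h : ℝ) = 9216 * Real.exp 9 ^ 2 * (h : ℝ) ^ 2 *
          (Real.exp 1 / (3 * (h : ℝ))) ^ 3 * √2 * (√(h : ℝ) * √(h : ℝ)) := by ring
    rw [e6, e3]
    field_simp
    norm_num
  have hnx : (Fintype.card (Fin (2 * h)) : ℝ) * x ≤ 1 / 2 := by
    have hnn : 0 ≤ (Fintype.card (Fin (2 * h)) : ℝ) * x := by positivity
    have e1 : ((Fintype.card (Fin (2 * h)) : ℝ) * x) ^ 2 ≤ (1 / 2) ^ 2 := by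
      rw [hnx2, div_le_iff₀ (Real.sqrt_pos.mpr hhpos)]
      have : 4 * C4 ≤ √(h : ℝ) := by
        apply Real.le_sqrt_of_sq_le
        nlinarith
      nlinarith
    exact (pow_le_pow_iff_left₀ hnn (by norm_num) (by norm_num)).mp e1
  have hA : 5 * (2 * Real.exp 9 * q ^ 2) * Fintype.card (Fin (2 * h)) ≤ A0 := by
    rw [hn, hq2, hA0]
    push_cast
    have e1 : 5 * (2 * Real.exp 9 * (Real.exp 1 / (3 * (h : ℝ)))) * (2 * (h : ℝ)) =
        20 / 3 * (Real.exp 9 * Real.exp 1) := by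
      field_simp
      norm_num
    rw [e1, ← Real.exp_add]
    norm_num
    have := Real.exp_pos 10
    linarith
  have : Nonempty (Fin (2 * h)) := ⟨⟨0, by omega⟩⟩
  have : Nonempty (Fin (2 * h) × Fin 3) := inferInstance
  have hcardα : Fintype.card (Fin (2 * h) × Fin 3) = 2 * (3 * h) := by
    simp; ring
  -- one permutation of the vertices
  have hρ : ∀ ρ : Perm (Fin (2 * h)),
      (Real.exp 1 / ((3 * h : ℕ) : ℝ)) ^ 2 * ∑ κ : Fin (2 * h) → Perm (Fin 3),
      ∑ f₁ : Fin (2 * h) × Fin 3, ∑ g₁ : Fin (2 * h) × Fin 3,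
      ∑ f₂ : Fin (2 * h) × Fin 3, ∑ g₂ : Fin (2 * h) × Fin 3,
        ((comm (swap f₂ g₂ * sh ρ κ * swap f₁ g₁)).card : ℝ) ≤
      (mm (2 * (3 * h)) * (11520 * Real.exp 27) * (2 * Real.exp (2 * A0 ^ 2))) *
        ((ρ.cycleFactorsFinset.card.factorial : ℝ) * x ^ ρ.support.card) := by
    intro ρ
    set s := ρ.support.card with hs
    set c := ρ.cycleFactorsFinset.card with hc
    have hcs : 2 * c ≤ s := two_mul_cyc_le ρ
    have hsn : s ≤ 2 * h := by
      have := Finset.card_le_univ ρ.support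
      simpa using this
    rw [Finset.mul_sum]
    calc _ ≤ ∑ κ : Fin (2 * h) → Perm (Fin 3), (mm (2 * (3 * h)) * (11520 * Real.exp 27) *
          ((8 * Real.exp 9 * q ^ 3) ^ s * (√(c.factorial : ℝ)) ^ 3)) *
            ((2 * Real.exp 9 * q ^ 2) ^ (loc ρ κ).card * √((loc ρ κ).card.factorial : ℝ)) := by
          apply Finset.sum_le_sum
          intro κ _
          have h1 := sum_comm_two (M := 3 * h) (by omega) hcardα (sh ρ κ)
          rw [← hq] at h1
          refine h1.trans ?_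
          have h2 := supp_sh ρ κ
          have h3 := cyc_sh ρ κ
          have h4 := term_bound hq0 hq1 h2.1 h2.2 h3 (by omega : c ≤ s)
          calc _ = (mm (2 * (3 * h)) : ℝ) * (q ^ (sh ρ κ).support.card *
                (2 * √(((sh ρ κ).support.card : ℝ) + 9)) ^
                  ((sh ρ κ).cycleFactorsFinset.card + 4) *
                (((sh ρ κ).support.card : ℝ) + 9) ^ 4) := by ring
            _ ≤ (mm (2 * (3 * h)) : ℝ) * ((11520 * Real.exp 27) *
                ((8 * Real.exp 9 * q ^ 3) ^ s * (√(c.factorial : ℝ)) ^ 3) *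
                ((2 * Real.exp 9 * q ^ 2) ^ (loc ρ κ).card *
                  √((loc ρ κ).card.factorial : ℝ))) := by
                refine mul_le_mul_of_nonneg_left h4 (by positivity)
            _ = _ := by ring
      _ = (mm (2 * (3 * h)) * (11520 * Real.exp 27) *
          ((8 * Real.exp 9 * q ^ 3) ^ s * (√(c.factorial : ℝ)) ^ 3)) *
          ∑ κ : Fin (2 * h) → Perm (Fin 3),
            ((2 * Real.exp 9 * q ^ 2) ^ (loc ρ κ).card * √((loc ρ κ).card.factorial : ℝ)) := by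
          rw [Finset.mul_sum]
      _ ≤ (mm (2 * (3 * h)) * (11520 * Real.exp 27) *
          ((8 * Real.exp 9 * q ^ 3) ^ s * (√(c.factorial : ℝ)) ^ 3)) *
          (6 ^ s * (2 * Real.exp (2 * A0 ^ 2))) := by
          refine mul_le_mul_of_nonneg_left ?_ (by positivity)
          exact sum_kappa ρ (by positivity) hA
      _ ≤ (mm (2 * (3 * h)) * (11520 * Real.exp 27) *
          ((8 * Real.exp 9 * q ^ 3) ^ s * ((c.factorial : ℝ) * u ^ s))) *
          (6 ^ s * (2 * Real.exp (2 * A0 ^ 2))) := by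
          have h5 := sqrt_fact_le (n := 2 * h) (c := c) (s := s) (by omega) (by omega) hcs
          rw [← hu] at h5
          gcongr
      _ = _ := by
          have e : x = (8 * Real.exp 9 * q ^ 3) * 6 * u := by rw [hx]; ring
          have e' : x ^ s = (8 * Real.exp 9 * q ^ 3) ^ s * 6 ^ s * u ^ s := by
            rw [e, mul_pow, mul_pow]
          rw [e']
          ring
  have hsum := sum_perms (V := Fin (2 * h)) hx0 hnx
  rw [hnx2] at hsum
  have htot : (Real.exp 1 / ((3 * h : ℕ) : ℝ)) ^ 2 * bigSum h ≤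
      mm (2 * (3 * h)) * C0 / √(h : ℝ) := by
    unfold bigSum
    rw [Finset.mul_sum]
    calc _ ≤ ∑ ρ ∈ univ.filter (fun ρ : Perm (Fin (2 * h)) => ρ ≠ 1),
          (mm (2 * (3 * h)) * (11520 * Real.exp 27) * (2 * Real.exp (2 * A0 ^ 2))) *
        ((ρ.cycleFactorsFinset.card.factorial : ℝ) * x ^ ρ.support.card) :=
          Finset.sum_le_sum fun ρ _ => hρ ρ
      _ = (mm (2 * (3 * h)) * (11520 * Real.exp 27) * (2 * Real.exp (2 * A0 ^ 2))) *
          ∑ ρ ∈ univ.filter (fun ρ : Perm (Fin (2 * h)) => ρ ≠ 1),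
        ((ρ.cycleFactorsFinset.card.factorial : ℝ) * x ^ ρ.support.card) := by
          rw [Finset.mul_sum]
      _ ≤ (mm (2 * (3 * h)) * (11520 * Real.exp 27) * (2 * Real.exp (2 * A0 ^ 2))) *
          (4 * (C4 / √(h : ℝ))) := by
          refine mul_le_mul_of_nonneg_left ?_ (by positivity)
          convert! hsum using 2
      _ = _ := by
          rw [hC0]; ring
  have hfac : (0 : ℝ) < (Real.exp 1 / ((3 * h : ℕ) : ℝ)) ^ 2 := by positivity
  have h6 : bigSum h ≤ (mm (2 * (3 * h)) * C0 / √(h : ℝ)) /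
      (Real.exp 1 / ((3 * h : ℕ) : ℝ)) ^ 2 := by
    rw [le_div_iff₀ hfac]
    linarith
  refine h6.trans (le_of_eq ?_)
  push_cast
  have e4 : (0 : ℝ) < √(h : ℝ) := Real.sqrt_pos.mpr hhpos
  field_simp
  norm_num

end Pool.Agent.helper49.Wh
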