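import Pool.Agent.helper49.WhCount
import Pool.Agent.helper49.WhSum

/-!
Global double counting: the sum of the local counts is bounded by the first-moment sum.
-/

open Equiv Finset

namespace Pool.Agent.helper49.Wh

variable {n : ℕ}

open Classical in
/-- Fibre-preserving permutations moving some vertex. -/
noncomputable def FPn (n : ℕ) : Finset (Perm (EdgeEnd n)) := univ.filter (fun σ => FP σ ∧ ¬ FP0 σ)

theorem mem_FPn {σ : Perm (EdgeEnd n)} : σ ∈ FPn n ↔ FP σ ∧ ¬ FP0 σ := by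
  simp [FPn]

theorem sh_inj {ρ ρ' : Perm (Fin n)} {κ κ' : Fin n → Perm (Fin 3)}
    (h : sh ρ κ = sh ρ' κ') : ρ = ρ' ∧ κ = κ' := by
  constructor
  · ext v
    have := congrArg (fun f : Perm (EdgeEnd n) => (f (v, 0)).1) h
    simp only [sh_apply] at this
    rw [this]
  · funext v
    ext i
    have := congrArg (fun f : Perm (EdgeEnd n) => (f (v, i)).2) h
    simp only [sh_apply] at this
    rw [this]

theorem sum_FPn_le (F : Perm (EdgeEnd n) → ℕ) :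
    ∑ σ ∈ FPn n, F σ ≤ ∑ ρ ∈ univ.filter (fun ρ : Perm (Fin n) => ρ ≠ 1),
      ∑ κ : Fin n → Perm (Fin 3), F (sh ρ κ) := by
  classical
  rw [← Finset.sum_product']
  have hinj : Set.InjOn (fun p : Perm (Fin n) × (Fin n → Perm (Fin 3)) => sh p.1 p.2)
      (↑((univ.filter (fun ρ : Perm (Fin n) => ρ ≠ 1)) ×ˢ
        (univ : Finset (Fin n → Perm (Fin 3)))) : Set (Perm (Fin n) × (Fin n → Perm (Fin 3)))) := by
    intro p _ q _ h
    have := sh_inj h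
    exact Prod.ext this.1 this.2
  rw [← Finset.sum_image (f := F) hinj]
  apply Finset.sum_le_sum_of_subset
  intro σ hσ
  rw [mem_FPn] at hσ
  obtain ⟨ρ, κ, rfl⟩ := hσ.1.exists_sh
  rw [Finset.mem_image]
  refine ⟨(ρ, κ), ?_, rfl⟩
  rw [Finset.mem_product, Finset.mem_filter]
  refine ⟨⟨Finset.mem_univ _, ?_⟩, Finset.mem_univ _⟩
  intro h
  exact hσ.2 (sh_fp0 h)

theorem conj_iff (σ τ : Perm (EdgeEnd n)) (f₁ g₁ f₂ g₂ : EdgeEnd n) :
    σ * mv τ f₁ g₁ = mv τ f₂ g₂ * σ ↔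
      τ * (swap f₂ g₂ * σ * swap f₁ g₁) = (swap f₂ g₂ * σ * swap f₁ g₁) * τ := by
  set s₁ := swap f₁ g₁ with hs₁
  set s₂ := swap f₂ g₂ with hs₂
  have h1 : s₁ * s₁ = 1 := swap_mul_self _ _
  have h2 : s₂ * s₂ = 1 := swap_mul_self _ _
  unfold mv
  rw [← hs₁, ← hs₂]
  constructor
  · intro h
    have h3 : s₂ * (σ * (s₁ * τ * s₁)) * s₁ = s₂ * (s₂ * τ * s₂ * σ) * s₁ := by rw [h]
    have h4 : s₂ * (σ * (s₁ * τ * s₁)) * s₁ = (s₂ * σ * s₁) * τ * (s₁ * s₁) := by group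
    have h5 : s₂ * (s₂ * τ * s₂ * σ) * s₁ = (s₂ * s₂) * τ * (s₂ * σ * s₁) := by group
    rw [h4, h5, h1, h2] at h3
    simpa using h3.symm
  · intro h
    have h3 : s₂ * (τ * (s₂ * σ * s₁)) * s₁ = s₂ * ((s₂ * σ * s₁) * τ) * s₁ := by rw [h]
    have h4 : s₂ * (τ * (s₂ * σ * s₁)) * s₁ = (s₂ * τ * s₂ * σ) * (s₁ * s₁) := by group
    have h5 : s₂ * ((s₂ * σ * s₁) * τ) * s₁ = (s₂ * s₂) * (σ * (s₁ * τ * s₁)) := by group
    rw [h4, h5, h1, h2] at h3
    simpa using h3.symm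

theorem sum_isos (f₁ g₁ f₂ g₂ : EdgeEnd n) :
    ∑ τ ∈ mats (EdgeEnd n), (isos (mv τ f₁ g₁) (mv τ f₂ g₂)).card =
      ∑ σ ∈ FPn n, (comm (swap f₂ g₂ * σ * swap f₁ g₁)).card := by
  classical
  have h1 : ∀ τ, (isos (mv τ f₁ g₁) (mv τ f₂ g₂)).card =
      ∑ σ ∈ FPn n, if σ * mv τ f₁ g₁ = mv τ f₂ g₂ * σ then 1 else 0 := by
    intro τ
    rw [← Finset.card_filter]
    congr 1
    ext σ
    rw [mem_isos, Finset.mem_filter, mem_FPn]
  simp only [h1]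
  rw [Finset.sum_comm]
  apply Finset.sum_congr rfl
  intro σ _
  rw [← Finset.card_filter]
  congr 1
  ext τ
  rw [Finset.mem_filter, mem_comm, mem_mats, conj_iff]

theorem sum_Ncount (n : ℕ) :
    ∑ τ ∈ mats (EdgeEnd n), Ncount τ ≤ 9 * ∑ ρ ∈ univ.filter (fun ρ : Perm (Fin n) => ρ ≠ 1),
      ∑ κ : Fin n → Perm (Fin 3), ∑ f₁ : EdgeEnd n, ∑ g₁ : EdgeEnd n,
        ∑ f₂ : EdgeEnd n, ∑ g₂ : EdgeEnd n, (comm (swap f₂ g₂ * sh ρ κ * swap f₁ g₁)).card := by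
  classical
  set T : Finset (Tr n) := univ.filter (fun m : Tr n => m.2.1.1 = m.1.1) with hT
  have hsubT : ∀ τ : Perm (EdgeEnd n), nmoves τ ⊆ T := by
    intro τ m hm
    rw [mem_nmoves] at hm
    rw [hT, Finset.mem_filter]
    exact ⟨Finset.mem_univ _, hm.1.2.1⟩
  -- summation over T
  have hsumT : ∀ F : EdgeEnd n → EdgeEnd n → ℕ,
      ∑ m ∈ T, F m.2.1 m.2.2 = 3 * ∑ f : EdgeEnd n, ∑ g : EdgeEnd n, F f g := by
    intro F
    rw [hT, Finset.sum_filter, Fintype.sum_prod_type]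
    rw [Finset.sum_comm, Finset.mul_sum, Fintype.sum_prod_type]
    apply Finset.sum_congr rfl
    intro f _
    rw [Finset.mul_sum]
    apply Finset.sum_congr rfl
    intro g _
    simp only
    rw [← Finset.sum_filter, Finset.sum_const, smul_eq_mul]
    congr 1
    have : (univ.filter (fun d : EdgeEnd n => f.1 = d.1)) =
        ({f.1} : Finset (Fin n)) ×ˢ (univ : Finset (Fin 3)) := by
      ext d
      rw [Finset.mem_filter, Finset.mem_product, Finset.mem_singleton]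
      exact ⟨fun h => ⟨h.2.symm, Finset.mem_univ _⟩, fun h => ⟨Finset.mem_univ _, h.1.symm⟩⟩
    rw [this, Finset.card_product]
    simp
  calc ∑ τ ∈ mats (EdgeEnd n), Ncount τ
      ≤ ∑ τ ∈ mats (EdgeEnd n), ∑ m₁ ∈ T, ∑ m₂ ∈ T,
        (isos (mv τ m₁.2.1 m₁.2.2) (mv τ m₂.2.1 m₂.2.2)).card := by
        apply Finset.sum_le_sum
        intro τ _
        unfold Ncount
        calc _ ≤ ∑ m₁ ∈ nmoves τ, ∑ m₂ ∈ T,
              (isos (mv τ m₁.2.1 m₁.2.2) (mv τ m₂.2.1 m₂.2.2)).card := by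
              apply Finset.sum_le_sum
              intro m₁ _
              exact Finset.sum_le_sum_of_subset (hsubT τ)
          _ ≤ _ := Finset.sum_le_sum_of_subset (hsubT τ)
    _ = ∑ m₁ ∈ T, ∑ m₂ ∈ T, ∑ τ ∈ mats (EdgeEnd n),
        (isos (mv τ m₁.2.1 m₁.2.2) (mv τ m₂.2.1 m₂.2.2)).card := by
        rw [Finset.sum_comm]
        apply Finset.sum_congr rfl
        intro m₁ _
        rw [Finset.sum_comm]
    _ = ∑ m₁ ∈ T, ∑ m₂ ∈ T, ∑ σ ∈ FPn n,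
        (comm (swap m₂.2.1 m₂.2.2 * σ * swap m₁.2.1 m₁.2.2)).card := by
        simp only [sum_isos]
    _ = ∑ σ ∈ FPn n, ∑ m₁ ∈ T, ∑ m₂ ∈ T,
        (comm (swap m₂.2.1 m₂.2.2 * σ * swap m₁.2.1 m₁.2.2)).card := by
        have e : ∀ m₁ ∈ T, ∑ m₂ ∈ T, ∑ σ ∈ FPn n,
            (comm (swap m₂.2.1 m₂.2.2 * σ * swap m₁.2.1 m₁.2.2)).card =
            ∑ σ ∈ FPn n, ∑ m₂ ∈ T,
            (comm (swap m₂.2.1 m₂.2.2 * σ * swap m₁.2.1 m₁.2.2)).card :=
          fun m₁ _ => Finset.sum_comm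
        rw [Finset.sum_congr rfl e, Finset.sum_comm]
    _ = ∑ σ ∈ FPn n, 9 * ∑ f₁ : EdgeEnd n, ∑ g₁ : EdgeEnd n,
        ∑ f₂ : EdgeEnd n, ∑ g₂ : EdgeEnd n, (comm (swap f₂ g₂ * σ * swap f₁ g₁)).card := by
        apply Finset.sum_congr rfl
        intro σ _
        have h1 : ∀ m₁ : Tr n, ∑ m₂ ∈ T,
            (comm (swap m₂.2.1 m₂.2.2 * σ * swap m₁.2.1 m₁.2.2)).card =
            3 * ∑ f₂ : EdgeEnd n, ∑ g₂ : EdgeEnd n,
              (comm (swap f₂ g₂ * σ * swap m₁.2.1 m₁.2.2)).card := fun m₁ =>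
          hsumT (fun f₂ g₂ => (comm (swap f₂ g₂ * σ * swap m₁.2.1 m₁.2.2)).card)
        simp only [h1]
        rw [← Finset.mul_sum]
        rw [hsumT (fun f₁ g₁ => ∑ f₂ : EdgeEnd n, ∑ g₂ : EdgeEnd n,
          (comm (swap f₂ g₂ * σ * swap f₁ g₁)).card)]
        ring
    _ = 9 * ∑ σ ∈ FPn n, ∑ f₁ : EdgeEnd n, ∑ g₁ : EdgeEnd n,
        ∑ f₂ : EdgeEnd n, ∑ g₂ : EdgeEnd n, (comm (swap f₂ g₂ * σ * swap f₁ g₁)).card := by
        rw [Finset.mul_sum]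
    _ ≤ _ := Nat.mul_le_mul_left _ (sum_FPn_le _)

/-- Matchings with an automorphism moving some vertex. -/
theorem sum_auto (n : ℕ) :
    (3 * n) ^ 2 * ∑ τ ∈ mats (EdgeEnd n), (isos τ τ).card ≤
      ∑ ρ ∈ univ.filter (fun ρ : Perm (Fin n) => ρ ≠ 1),
      ∑ κ : Fin n → Perm (Fin 3), ∑ f₁ : EdgeEnd n, ∑ g₁ : EdgeEnd n,
        ∑ f₂ : EdgeEnd n, ∑ g₂ : EdgeEnd n, (comm (swap f₂ g₂ * sh ρ κ * swap f₁ g₁)).card := by
  classical
  have h0 : ∑ τ ∈ mats (EdgeEnd n), (isos τ τ).card = ∑ σ ∈ FPn n, (comm σ).card := by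
    have h1 : ∀ τ : Perm (EdgeEnd n), (isos τ τ).card =
        ∑ σ ∈ FPn n, if σ * τ = τ * σ then 1 else 0 := by
      intro τ
      rw [← Finset.card_filter]
      congr 1
      ext σ
      rw [mem_isos, Finset.mem_filter, mem_FPn]
    simp only [h1]
    rw [Finset.sum_comm]
    apply Finset.sum_congr rfl
    intro σ _
    rw [← Finset.card_filter]
    congr 1
    ext τ
    rw [Finset.mem_filter, mem_comm, mem_mats]
    exact ⟨fun h => ⟨h.1, h.2.symm⟩, fun h => ⟨h.1, h.2.symm⟩⟩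
  rw [h0]
  have h2 : ∀ σ : Perm (EdgeEnd n), (3 * n) ^ 2 * (comm σ).card ≤
      ∑ f₁ : EdgeEnd n, ∑ g₁ : EdgeEnd n,
        ∑ f₂ : EdgeEnd n, ∑ g₂ : EdgeEnd n, (comm (swap f₂ g₂ * σ * swap f₁ g₁)).card := by
    intro σ
    have hcard : (univ : Finset (EdgeEnd n)).card = 3 * n := by
      rw [Finset.card_univ, Fintype.card_prod, Fintype.card_fin, Fintype.card_fin, mul_comm]
    calc (3 * n) ^ 2 * (comm σ).card = ∑ f₁ : EdgeEnd n, ∑ f₂ : EdgeEnd n, (comm σ).card := by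
          rw [Finset.sum_const, Finset.sum_const, hcard, smul_eq_mul, smul_eq_mul]
          ring
      _ ≤ ∑ f₁ : EdgeEnd n, ∑ g₁ : EdgeEnd n,
        ∑ f₂ : EdgeEnd n, ∑ g₂ : EdgeEnd n, (comm (swap f₂ g₂ * σ * swap f₁ g₁)).card := by
          apply Finset.sum_le_sum
          intro f₁ _
          calc ∑ f₂ : EdgeEnd n, (comm σ).card
              ≤ ∑ f₂ : EdgeEnd n, ∑ g₂ : EdgeEnd n,
                (comm (swap f₂ g₂ * σ * swap f₁ f₁)).card := by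
                apply Finset.sum_le_sum
                intro f₂ _
                have h3 : (comm σ).card = (comm (swap f₂ f₂ * σ * swap f₁ f₁)).card := by
                  rw [swap_self, swap_self]
                  congr 2
                rw [h3]
                exact Finset.single_le_sum
                  (f := fun g₂ => (comm (swap f₂ g₂ * σ * swap f₁ f₁)).card)
                  (fun _ _ => Nat.zero_le _) (Finset.mem_univ f₂)
            _ ≤ _ := Finset.single_le_sum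
                  (f := fun g₁ => ∑ f₂ : EdgeEnd n, ∑ g₂ : EdgeEnd n,
                    (comm (swap f₂ g₂ * σ * swap f₁ g₁)).card)
                  (fun _ _ => Nat.zero_le _) (Finset.mem_univ f₁)
  calc (3 * n) ^ 2 * ∑ σ ∈ FPn n, (comm σ).card
      = ∑ σ ∈ FPn n, (3 * n) ^ 2 * (comm σ).card := by rw [Finset.mul_sum]
    _ ≤ ∑ σ ∈ FPn n, ∑ f₁ : EdgeEnd n, ∑ g₁ : EdgeEnd n,
        ∑ f₂ : EdgeEnd n, ∑ g₂ : EdgeEnd n, (comm (swap f₂ g₂ * σ * swap f₁ g₁)).card :=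
        Finset.sum_le_sum fun σ _ => h2 σ
    _ ≤ _ := sum_FPn_le _

end Pool.Agent.helper49.Wh
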