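import Mathlib

/-!
Perfect matchings of a finite type, as fixed-point-free involutions: their number, and a bound
for the number of those commuting with a given permutation.
-/

open Equiv Finset

namespace Pool.Agent.helper49.Wh

/-- A perfect matching of `α`, as a fixed-point-free involution. -/
def IsMat {α : Type*} (τ : Perm α) : Prop := (∀ x, τ (τ x) = x) ∧ ∀ x, τ x ≠ x

open Classical in
/-- The finset of all perfect matchings. -/
noncomputable def mats (α : Type*) [Fintype α] [DecidableEq α] : Finset (Perm α) :=
  univ.filter IsMat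

theorem mem_mats {α : Type*} [Fintype α] [DecidableEq α] {τ : Perm α} :
    τ ∈ mats α ↔ IsMat τ := by
  simp [mats]

/-- The number of perfect matchings of `N` points. -/
noncomputable def mm (N : ℕ) : ℕ := (mats (Fin N)).card

theorem card_mats (α : Type*) [Fintype α] [DecidableEq α] :
    (mats α).card = mm (Fintype.card α) := by
  unfold mm
  refine Finset.card_bij (fun τ _ => (Fintype.equivFin α).permCongr τ) ?_ ?_ ?_
  · intro τ hτ
    rw [mem_mats] at hτ ⊢
    refine ⟨fun x => ?_, fun x => ?_⟩
    · simp [Equiv.permCongr_apply, hτ.1]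
    · intro h
      apply hτ.2 ((Fintype.equivFin α).symm x)
      have := congrArg (Fintype.equivFin α).symm h
      simpa [Equiv.permCongr_apply] using this
  · intro a _ b _ h
    exact (Fintype.equivFin α).permCongr.injective h
  · intro τ hτ
    rw [mem_mats] at hτ
    refine ⟨(Fintype.equivFin α).permCongr.symm τ, ?_, Equiv.apply_symm_apply _ _⟩
    rw [mem_mats]
    refine ⟨fun x => ?_, fun x => ?_⟩
    · simp [Equiv.permCongr_apply, Equiv.permCongr_symm, hτ.1]
    · intro h
      apply hτ.2 ((Fintype.equivFin α) x)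
      have := congrArg (Fintype.equivFin α) h
      simpa [Equiv.permCongr_apply] using this

theorem IsMat.sq {α : Type*} {τ : Perm α} (h : IsMat τ) : τ ^ 2 = 1 := by
  ext x
  simp [pow_two, h.1]

theorem IsMat.support {α : Type*} [Fintype α] [DecidableEq α] {τ : Perm α} (h : IsMat τ) :
    τ.support = univ := by
  ext x
  simp [h.2 x]

theorem isMat_iff_cycleType {α : Type*} [Fintype α] [DecidableEq α] {τ : Perm α} {k : ℕ}
    (hk : Fintype.card α = 2 * k) : IsMat τ ↔ τ.cycleType = Multiset.replicate k 2 := by
  constructor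
  · intro h
    have h1 := Perm.cycleType_of_pow_prime_eq_one (p := 2) h.sq
    have h2 : τ.cycleType.sum = 2 * k := by
      rw [Perm.sum_cycleType, h.support, Finset.card_univ, hk]
    rw [h1] at h2 ⊢
    simp only [Multiset.sum_replicate, smul_eq_mul] at h2
    have h3 : τ.cycleType.card = k := by omega
    rw [h3]
  · intro h
    have h1 : τ ^ 2 = 1 := by
      rw [Perm.pow_prime_eq_one_iff]
      intro c hc
      rw [h] at hc
      exact Multiset.eq_of_mem_replicate hc
    have h2 : τ.support.card = Fintype.card α := by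
      rw [← Perm.sum_cycleType, h, hk]
      simp [mul_comm]
    rw [Finset.card_eq_iff_eq_univ] at h2
    refine ⟨fun x => ?_, fun x => ?_⟩
    · have := congrArg (fun f : Perm α => f x) h1
      simpa [pow_two] using this
    · have : x ∈ τ.support := by rw [h2]; exact mem_univ x
      simpa using this

theorem mm_even (k : ℕ) : mm (2 * k) * (2 ^ k * k.factorial) = (2 * k).factorial := by
  have h := Perm.card_of_cycleType_mul_eq (Fin (2 * k)) (Multiset.replicate k 2)
  have h1 : ((Finset.univ.filter (fun g : Perm (Fin (2 * k)) =>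
      g.cycleType = Multiset.replicate k 2)) : Finset _) = mats (Fin (2 * k)) := by
    ext τ
    rw [mem_mats, isMat_iff_cycleType (k := k) (by simp)]
    simp
  have h2 : mm (2 * k) = ((Finset.univ.filter (fun g : Perm (Fin (2 * k)) =>
      g.cycleType = Multiset.replicate k 2)) : Finset _).card := by
    rw [h1]; rfl
  rw [h2]
  rw [if_pos] at h
  · have hp : (∏ n ∈ (Multiset.replicate k 2).toFinset,
        ((Multiset.replicate k 2).count n).factorial) = k.factorial := by
      rcases Nat.eq_zero_or_pos k with rfl | hk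
      · simp
      · rw [Multiset.toFinset_replicate, if_neg (by omega)]
        simp
    rw [hp] at h
    have hs : (Fintype.card (Fin (2 * k)) - (Multiset.replicate k 2).sum) = 0 := by
      simp [mul_comm]
    rw [hs] at h
    simp only [Nat.factorial_zero, one_mul, Multiset.prod_replicate, Fintype.card_fin] at h
    exact h
  · constructor
    · simp [mul_comm]
    · intro a ha
      rw [Multiset.eq_of_mem_replicate ha]

theorem mm_odd (k : ℕ) : mm (2 * k + 1) = 0 := by
  unfold mm
  rw [Finset.card_eq_zero]
  by_contra hne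
  obtain ⟨τ, hτ⟩ := Finset.nonempty_iff_ne_empty.mpr hne
  rw [mem_mats] at hτ
  have h := Perm.two_dvd_card_support hτ.sq
  rw [hτ.support, Finset.card_univ, Fintype.card_fin] at h
  omega

theorem mm_pos (k : ℕ) : 0 < mm (2 * k) := by
  have h := mm_even k
  rcases Nat.eq_zero_or_pos (mm (2 * k)) with h0 | h0
  · rw [h0] at h
    have := Nat.factorial_pos (2 * k)
    omega
  · exact h0

theorem mm_zero : mm 0 = 1 := by
  have := mm_even 0
  simpa using this

/-- The recursion for the number of perfect matchings. -/
theorem mm_succ (k : ℕ) : mm (2 * (k + 1)) = (2 * k + 1) * mm (2 * k) := by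
  have h1 := mm_even k
  have h2 := mm_even (k + 1)
  have h3 : (2 * (k + 1)).factorial = (2 * k + 2) * ((2 * k + 1) * (2 * k).factorial) := by
    rw [show 2 * (k + 1) = (2 * k + 1) + 1 by ring, Nat.factorial_succ, Nat.factorial_succ]
  rw [h3, ← h1, Nat.factorial_succ, pow_succ] at h2
  have h4 : 0 < 2 ^ k * k.factorial := by positivity
  have h5 : mm (2 * (k + 1)) * (2 * (k + 1) * (2 ^ k * k.factorial)) =
      ((2 * k + 1) * mm (2 * k)) * (2 * (k + 1) * (2 ^ k * k.factorial)) := by
    nlinarith [h2]
  exact Nat.eq_of_mul_eq_mul_right (by positivity) h5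

/-- `mm (2M-2j) * (M/e)^j ≤ mm (2M)`. -/
theorem mm_ratio (M : ℕ) : ∀ j : ℕ, j ≤ M →
    (mm (2 * (M - j)) : ℝ) * (M / Real.exp 1) ^ j ≤ mm (2 * M) := by
  intro j
  induction j generalizing M with
  | zero => intro _; simp
  | succ j ih =>
    intro hj
    obtain ⟨N, rfl⟩ : ∃ N, M = N + 1 := ⟨M - 1, by omega⟩
    have hjN : j ≤ N := by omega
    have h1 := ih N hjN
    have h2 : N + 1 - (j + 1) = N - j := by omega
    rw [h2, mm_succ]
    have he : (1 : ℝ) ≤ Real.exp 1 := Real.one_le_exp (by norm_num)
    have hepos : (0 : ℝ) < Real.exp 1 := Real.exp_pos 1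
    rcases Nat.eq_zero_or_pos N with rfl | hN
    · have hj0 : j = 0 := by omega
      subst hj0
      simp only [Nat.sub_zero, mul_zero, zero_add, mm_zero, Nat.cast_one, pow_one, one_mul,
        Nat.cast_zero, mul_one]
      rw [div_le_one hepos]
      exact he
    · have hNr : (0 : ℝ) < N := by exact_mod_cast hN
      have hkey : (((N : ℝ) + 1) / Real.exp 1) ^ (j + 1) ≤
          ((N : ℝ) + 1) * ((N : ℝ) / Real.exp 1) ^ j := by
        have e1 : ((N : ℝ) + 1) / Real.exp 1 = (1 + 1 / N) * (N / Real.exp 1) := by
          field_simp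
        have e2 : (1 + 1 / (N : ℝ)) ^ j ≤ Real.exp 1 := by
          calc (1 + 1 / (N : ℝ)) ^ j ≤ (1 + 1 / (N : ℝ)) ^ N := by
                apply pow_le_pow_right₀ _ hjN
                have : 0 ≤ 1 / (N : ℝ) := by positivity
                linarith
            _ ≤ (Real.exp (1 / N)) ^ N := by
                apply pow_le_pow_left₀ (by positivity)
                have := Real.add_one_le_exp (1 / (N : ℝ))
                linarith
            _ = Real.exp 1 := by
                rw [← Real.exp_nat_mul]
                congr 1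
                field_simp
        calc (((N : ℝ) + 1) / Real.exp 1) ^ (j + 1)
            = (((N : ℝ) + 1) / Real.exp 1) ^ j * (((N : ℝ) + 1) / Real.exp 1) := pow_succ _ _
          _ = (1 + 1 / (N : ℝ)) ^ j * (N / Real.exp 1) ^ j * (((N : ℝ) + 1) / Real.exp 1) := by
              rw [e1, mul_pow]
          _ ≤ Real.exp 1 * (N / Real.exp 1) ^ j * (((N : ℝ) + 1) / Real.exp 1) := by
              gcongr
          _ = ((N : ℝ) + 1) * ((N : ℝ) / Real.exp 1) ^ j := by
              field_simp
      push_cast at h1 ⊢
      calc (mm (2 * (N - j)) : ℝ) * (((N : ℝ) + 1) / Real.exp 1) ^ (j + 1)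
          ≤ (mm (2 * (N - j)) : ℝ) * (((N : ℝ) + 1) * ((N : ℝ) / Real.exp 1) ^ j) := by
            gcongr
        _ = ((N : ℝ) + 1) * ((mm (2 * (N - j)) : ℝ) * ((N : ℝ) / Real.exp 1) ^ j) := by ring
        _ ≤ ((N : ℝ) + 1) * (mm (2 * N) : ℝ) := by gcongr
        _ ≤ (2 * (N : ℝ) + 1) * (mm (2 * N) : ℝ) := by
            gcongr
            linarith

end Pool.Agent.helper49.Wh
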