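import Pool.Agent.helper49.WhWeight

/-!
Fibre-preserving permutations of `V × Fin 3`: supports and cycles.
-/

open Equiv Finset

namespace Pool.Agent.helper49.Wh

variable {V : Type*} [Fintype V] [DecidableEq V]

/-- The fibre-preserving permutation given by `ρ` and the family `κ`. -/
def sh (ρ : Perm V) (κ : V → Perm (Fin 3)) : Perm (V × Fin 3) := Equiv.prodShear ρ κ

omit [Fintype V] [DecidableEq V] in
@[simp] theorem sh_apply (ρ : Perm V) (κ : V → Perm (Fin 3)) (x : V × Fin 3) :
    sh ρ κ x = (ρ x.1, κ x.1 x.2) := rfl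

/-- The vertices fixed by `ρ` but with a nontrivial permutation of the darts. -/
def loc (ρ : Perm V) (κ : V → Perm (Fin 3)) : Finset V :=
  univ.filter (fun v => ρ v = v ∧ κ v ≠ 1)

theorem supp_sh (ρ : Perm V) (κ : V → Perm (Fin 3)) :
    3 * ρ.support.card + 2 * (loc ρ κ).card ≤ (sh ρ κ).support.card ∧
    (sh ρ κ).support.card ≤ 3 * ρ.support.card + 3 * (loc ρ κ).card := by
  have h0 : (sh ρ κ).support.card = ∑ v : V, (univ.filter (fun i : Fin 3 =>
      sh ρ κ (v, i) ≠ (v, i))).card := by
    have : (sh ρ κ).support = univ.filter (fun x => sh ρ κ x ≠ x) := by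
      ext x
      rw [Perm.mem_support, Finset.mem_filter]
      simp
    rw [this, Finset.card_filter, Fintype.sum_prod_type]
    apply Finset.sum_congr rfl
    intro v _
    rw [Finset.card_filter]
  have hs : ρ.support.card = ∑ v : V, if ρ v ≠ v then 1 else 0 := by
    rw [← Finset.card_filter]
    congr 1
  have hl : (loc ρ κ).card = ∑ v : V, if ρ v = v ∧ κ v ≠ 1 then 1 else 0 := by
    rw [← Finset.card_filter]; rfl
  have hv : ∀ v : V,
      3 * (if ρ v ≠ v then 1 else 0) + 2 * (if ρ v = v ∧ κ v ≠ 1 then 1 else 0) ≤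
        (univ.filter (fun i : Fin 3 => sh ρ κ (v, i) ≠ (v, i))).card ∧
      (univ.filter (fun i : Fin 3 => sh ρ κ (v, i) ≠ (v, i))).card ≤
      3 * (if ρ v ≠ v then 1 else 0) + 3 * (if ρ v = v ∧ κ v ≠ 1 then 1 else 0) := by
    intro v
    by_cases h1 : ρ v = v
    · have h2 : (univ.filter (fun i : Fin 3 => sh ρ κ (v, i) ≠ (v, i))) = (κ v).support := by
        ext i
        simp [h1]
      rw [h2]
      by_cases h3 : κ v = 1
      · simp [h1, h3]
      · have h4 := Perm.two_le_card_support_of_ne_one h3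
        have h5 : (κ v).support.card ≤ 3 := by
          have := Finset.card_le_univ (κ v).support
          simpa using this
        simp [h1, h3, h4, h5]
    · have h2 : (univ.filter (fun i : Fin 3 => sh ρ κ (v, i) ≠ (v, i))) = univ := by
        ext i
        simp [h1]
      rw [h2]
      simp [h1]
  rw [h0, hs, hl, Finset.mul_sum, Finset.mul_sum, Finset.mul_sum, ← Finset.sum_add_distrib,
    ← Finset.sum_add_distrib]
  exact ⟨Finset.sum_le_sum fun v _ => (hv v).1, Finset.sum_le_sum fun v _ => (hv v).2⟩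

omit [Fintype V] [DecidableEq V] in
theorem sh_pow_fst (ρ : Perm V) (κ : V → Perm (Fin 3)) (k : ℕ) (x : V × Fin 3) :
    ((sh ρ κ ^ k) x).1 = (ρ ^ k) x.1 := by
  induction k with
  | zero => simp
  | succ k ih =>
    rw [pow_succ', Perm.mul_apply, sh_apply, pow_succ', Perm.mul_apply, ih]

omit [Fintype V] [DecidableEq V] in
theorem sh_pow_fix (ρ : Perm V) (κ : V → Perm (Fin 3)) (k : ℕ) (v : V) (hv : ρ v = v)
    (i : Fin 3) : (sh ρ κ ^ k) (v, i) = (v, (κ v ^ k) i) := by
  induction k with
  | zero => simp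
  | succ k ih =>
    rw [pow_succ', Perm.mul_apply, ih, sh_apply, pow_succ', Perm.mul_apply]
    simp [hv]

theorem perm3 : ∀ (p : Perm (Fin 3)) (i j : Fin 3), p i ≠ i → p j ≠ j →
    ∃ k : Fin 3, (p ^ (k : ℕ)) i = j := by
  decide

theorem cyc_sh [Nonempty V] (ρ : Perm V) (κ : V → Perm (Fin 3)) :
    (sh ρ κ).cycleFactorsFinset.card ≤ 3 * ρ.cycleFactorsFinset.card + (loc ρ κ).card := by
  classical
  obtain ⟨v0⟩ := ‹Nonempty V›
  set σ := sh ρ κ with hσ
  let A : Finset (V × Fin 3) :=
    (ρ.cycleFactorsFinset ×ˢ (univ : Finset (Fin 3))).image (fun p => (rep v0 p.1, p.2))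
  let jf : V → Fin 3 := fun v => if h : ∃ j, κ v j ≠ j then h.choose else 0
  let B : Finset (V × Fin 3) := (loc ρ κ).image (fun v => (v, jf v))
  have hA : A.card ≤ 3 * ρ.cycleFactorsFinset.card := by
    refine Finset.card_image_le.trans ?_
    rw [Finset.card_product, Finset.card_univ, Fintype.card_fin, mul_comm]
  have hB : B.card ≤ (loc ρ κ).card := Finset.card_image_le
  have hsub : σ.cycleFactorsFinset ⊆ (A ∪ B).image (fun x => σ.cycleOf x) := by
    intro c hc
    rw [Finset.mem_image]
    have hcc := (Perm.mem_cycleFactorsFinset_iff.mp hc).1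
    obtain ⟨⟨v, i⟩, hx⟩ := hcc.nonempty_support
    have hxs : (v, i) ∈ σ.support := Perm.mem_cycleFactorsFinset_support_le hc hx
    have hceq := Perm.cycle_is_cycleOf hx hc
    by_cases hv : ρ v = v
    · -- local cycle
      have hki : κ v i ≠ i := by
        rw [Perm.mem_support, hσ, sh_apply] at hxs
        intro h
        apply hxs
        simp [hv, h]
      have hex : ∃ j, κ v j ≠ j := ⟨i, hki⟩
      have hj : κ v (jf v) ≠ jf v := by
        have : jf v = hex.choose := by
          simp only [jf]
          rw [dif_pos hex]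
        rw [this]
        exact hex.choose_spec
      have hvl : v ∈ loc ρ κ := by
        simp only [loc, Finset.mem_filter, Finset.mem_univ, true_and]
        refine ⟨hv, ?_⟩
        intro h
        rw [h] at hki
        simp at hki
      refine ⟨(v, jf v), ?_, ?_⟩
      · rw [Finset.mem_union]
        right
        exact Finset.mem_image_of_mem _ hvl
      · obtain ⟨k, hk⟩ := perm3 (κ v) i (jf v) hki hj
        rw [hceq]
        symm
        apply Perm.SameCycle.cycleOf_eq
        refine ⟨(k : ℕ), ?_⟩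
        rw [zpow_natCast, hσ, sh_pow_fix ρ κ k v hv, hk]
    · have hvs : v ∈ ρ.support := by simpa using hv
      have hd : ρ.cycleOf v ∈ ρ.cycleFactorsFinset :=
        Perm.cycleOf_mem_cycleFactorsFinset_iff.mpr hvs
      have hdc := (Perm.mem_cycleFactorsFinset_iff.mp hd).1
      have hb := rep_mem v0 hdc
      rw [Perm.mem_support_cycleOf_iff] at hb
      obtain ⟨k, hk⟩ := hb.1.exists_nat_pow_eq
      refine ⟨(σ ^ k) (v, i), ?_, ?_⟩
      · rw [Finset.mem_union]
        left
        rw [Finset.mem_image]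
        refine ⟨(ρ.cycleOf v, ((σ ^ k) (v, i)).2), ?_, ?_⟩
        · rw [Finset.mem_product]
          exact ⟨hd, Finset.mem_univ _⟩
        · apply Prod.ext
          · simp only
            rw [hσ, sh_pow_fst]
            exact hk.symm
          · rfl
      · rw [hceq, Perm.cycleOf_self_apply_pow]
  calc σ.cycleFactorsFinset.card ≤ _ := Finset.card_le_card hsub
    _ ≤ (A ∪ B).card := Finset.card_image_le
    _ ≤ A.card + B.card := Finset.card_union_le _ _
    _ ≤ _ := by omega

end Pool.Agent.helper49.Wh
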