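import Pool.Agent.helper49.WhShear

/-!
Numerical bounds for one term and the summation over the local permutations.
-/

open Equiv Finset

namespace Pool.Agent.helper49.Wh

theorem pow_le_fact_exp {R : ℝ} (hR : 0 ≤ R) (c : ℕ) :
    (√R) ^ c ≤ √(c.factorial : ℝ) * Real.exp (R / 2) := by
  have h1 : R ^ c ≤ (c.factorial : ℝ) * Real.exp R := by
    have h := Real.pow_div_factorial_le_exp R hR c
    rw [div_le_iff₀ (by positivity)] at h
    linarith
  have h2 : Real.exp R = Real.exp (R / 2) ^ 2 := by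
    rw [← Real.exp_nat_mul]
    congr 1
    push_cast
    ring
  have h3 : (√R) ^ c = √(R ^ c) := by
    rw [Real.sqrt_eq_rpow, Real.sqrt_eq_rpow, ← Real.rpow_natCast, ← Real.rpow_natCast,
      ← Real.rpow_mul hR, ← Real.rpow_mul hR, mul_comm]
  rw [h3]
  calc √(R ^ c) ≤ √((c.factorial : ℝ) * Real.exp (R / 2) ^ 2) := by
        apply Real.sqrt_le_sqrt
        rw [← h2]; exact h1
    _ = √(c.factorial : ℝ) * Real.exp (R / 2) := by
        rw [Real.sqrt_mul (by positivity), Real.sqrt_sq (Real.exp_pos _).le]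

theorem term_bound {q : ℝ} (hq0 : 0 ≤ q) (hq1 : q ≤ 1) {m o s c l : ℕ}
    (hm1 : 3 * s + 2 * l ≤ m) (hm2 : m ≤ 3 * s + 3 * l) (ho : o ≤ 3 * c + l) (hc : c ≤ s) :
    q ^ m * (2 * √((m : ℝ) + 9)) ^ (o + 4) * ((m : ℝ) + 9) ^ 4 ≤
      (11520 * Real.exp 27) * ((8 * Real.exp 9 * q ^ 3) ^ s * (√(c.factorial : ℝ)) ^ 3) *
        ((2 * Real.exp 9 * q ^ 2) ^ l * √(l.factorial : ℝ)) := by
  set R : ℝ := (m : ℝ) + 9 with hR
  have hR0 : 0 ≤ R := by positivity
  have hR9 : 9 ≤ R := by
    have : (0 : ℝ) ≤ m := by positivity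
    linarith
  have hsR : 1 ≤ √R := by
    rw [Real.one_le_sqrt]; linarith
  have h1 : (2 * √R) ^ (o + 4) ≤ 2 ^ (3 * c + l) * (√R) ^ (3 * c) * (√R) ^ l * (16 * R ^ 2) := by
    calc (2 * √R) ^ (o + 4) ≤ (2 * √R) ^ (3 * c + l + 4) :=
          pow_le_pow_right₀ (by linarith) (by omega)
      _ = 2 ^ (3 * c + l) * (√R) ^ (3 * c) * (√R) ^ l * (16 * ((√R) ^ 2) ^ 2) := by
          rw [mul_pow, pow_add, pow_add, pow_add, pow_add]
          ring
      _ = _ := by rw [Real.sq_sqrt hR0]
  have h2 : (√R) ^ (3 * c) ≤ (√(c.factorial : ℝ)) ^ 3 * Real.exp (3 * R / 2) := by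
    calc (√R) ^ (3 * c) = ((√R) ^ c) ^ 3 := by rw [mul_comm, pow_mul]
      _ ≤ (√(c.factorial : ℝ) * Real.exp (R / 2)) ^ 3 := by
          gcongr
          exact pow_le_fact_exp hR0 c
      _ = (√(c.factorial : ℝ)) ^ 3 * Real.exp (3 * R / 2) := by
          rw [mul_pow, ← Real.exp_nat_mul]
          congr 2
          push_cast; ring
  have h3 : (√R) ^ l ≤ √(l.factorial : ℝ) * Real.exp (R / 2) := pow_le_fact_exp hR0 l
  have h4 : R ^ 6 ≤ 720 * Real.exp R := by
    have h := Real.pow_div_factorial_le_exp R hR0 6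
    rw [div_le_iff₀ (by positivity)] at h
    have : ((Nat.factorial 6 : ℕ) : ℝ) = 720 := by norm_num [Nat.factorial]
    rw [this] at h
    linarith
  have h5 : (2 : ℝ) ^ (3 * c + l) ≤ 8 ^ s * 2 ^ l := by
    rw [pow_add, pow_mul]
    have : ((2 : ℝ) ^ 3) ^ c ≤ 8 ^ s := by
      norm_num
      exact pow_le_pow_right₀ (by norm_num) hc
    gcongr
  have h6 : q ^ m ≤ (q ^ 3) ^ s * (q ^ 2) ^ l := by
    rw [← pow_mul, ← pow_mul, ← pow_add]
    exact pow_le_pow_of_le_one hq0 hq1 hm1
  have h7 : Real.exp (3 * R / 2) * Real.exp (R / 2) * Real.exp R ≤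
      Real.exp 27 * Real.exp 9 ^ s * Real.exp 9 ^ l := by
    rw [← Real.exp_add, ← Real.exp_add, ← Real.exp_nat_mul, ← Real.exp_nat_mul, ← Real.exp_add,
      ← Real.exp_add]
    apply Real.exp_le_exp.mpr
    have : (m : ℝ) ≤ 3 * s + 3 * l := by exact_mod_cast hm2
    rw [hR]
    linarith
  calc q ^ m * (2 * √R) ^ (o + 4) * R ^ 4
      ≤ q ^ m * (2 ^ (3 * c + l) * (√R) ^ (3 * c) * (√R) ^ l * (16 * R ^ 2)) * R ^ 4 := by
        gcongr
    _ = 16 * q ^ m * 2 ^ (3 * c + l) * (√R) ^ (3 * c) * (√R) ^ l * R ^ 6 := by ring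
    _ ≤ 16 * ((q ^ 3) ^ s * (q ^ 2) ^ l) * (8 ^ s * 2 ^ l) *
        ((√(c.factorial : ℝ)) ^ 3 * Real.exp (3 * R / 2)) *
        (√(l.factorial : ℝ) * Real.exp (R / 2)) * (720 * Real.exp R) := by
        gcongr
    _ = 11520 * ((q ^ 3) ^ s * (q ^ 2) ^ l) * (8 ^ s * 2 ^ l) *
        (√(c.factorial : ℝ)) ^ 3 * √(l.factorial : ℝ) *
          (Real.exp (3 * R / 2) * Real.exp (R / 2) * Real.exp R) := by ring
    _ ≤ 11520 * ((q ^ 3) ^ s * (q ^ 2) ^ l) * (8 ^ s * 2 ^ l) *
        (√(c.factorial : ℝ)) ^ 3 * √(l.factorial : ℝ) *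
          (Real.exp 27 * Real.exp 9 ^ s * Real.exp 9 ^ l) := by gcongr
    _ = _ := by
        rw [mul_pow, mul_pow, mul_pow, mul_pow]
        ring

/-- The constant bounding the local sums. -/
theorem sum_sqrt_fact (A : ℝ) (hA : 0 ≤ A) (n : ℕ) :
    ∑ j ∈ range n, A ^ j / √(j.factorial : ℝ) ≤ 2 * Real.exp (2 * A ^ 2) := by
  have h1 : ∀ j : ℕ, A ^ j / √(j.factorial : ℝ) ≤ Real.exp (2 * A ^ 2) * (1 / 2) ^ j := by
    intro j
    have hf : (0 : ℝ) < j.factorial := by positivity
    have h2 : (4 * A ^ 2) ^ j ≤ (j.factorial : ℝ) * Real.exp (4 * A ^ 2) := by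
      have h := Real.pow_div_factorial_le_exp (4 * A ^ 2) (by positivity) j
      rw [div_le_iff₀ hf] at h
      linarith
    have h3 : (2 * A) ^ j ≤ √(j.factorial : ℝ) * Real.exp (2 * A ^ 2) := by
      have e1 : (2 * A) ^ j = √((4 * A ^ 2) ^ j) := by
        rw [show (4 * A ^ 2) ^ j = ((2 * A) ^ j) ^ 2 by
          rw [← pow_mul, mul_comm j 2, pow_mul]; congr 1; ring]
        rw [Real.sqrt_sq (by positivity)]
      rw [e1]
      calc √((4 * A ^ 2) ^ j) ≤ √((j.factorial : ℝ) * Real.exp (4 * A ^ 2)) :=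
            Real.sqrt_le_sqrt h2
        _ = √(j.factorial : ℝ) * Real.exp (2 * A ^ 2) := by
            rw [Real.sqrt_mul hf.le]
            congr 1
            rw [show Real.exp (4 * A ^ 2) = Real.exp (2 * A ^ 2) ^ 2 by
              rw [← Real.exp_nat_mul]; congr 1; push_cast; ring]
            rw [Real.sqrt_sq (Real.exp_pos _).le]
    rw [div_le_iff₀ (by positivity)]
    have h4 : A ^ j = (2 * A) ^ j * (1 / 2) ^ j := by
      rw [← mul_pow]; congr 1; ring
    rw [h4]
    calc (2 * A) ^ j * (1 / 2) ^ j ≤ (√(j.factorial : ℝ) * Real.exp (2 * A ^ 2)) * (1 / 2) ^ j := by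
          gcongr
      _ = _ := by ring
  calc ∑ j ∈ range n, A ^ j / √(j.factorial : ℝ)
      ≤ ∑ j ∈ range n, Real.exp (2 * A ^ 2) * (1 / 2) ^ j := Finset.sum_le_sum fun j _ => h1 j
    _ = Real.exp (2 * A ^ 2) * ∑ j ∈ range n, (1 / 2 : ℝ) ^ j := by rw [Finset.mul_sum]
    _ ≤ Real.exp (2 * A ^ 2) * 2 := by
        gcongr
        have h := geom_sum_eq (x := (1 / 2 : ℝ)) (by norm_num) n
        rw [h]
        have : (0 : ℝ) ≤ (1 / 2) ^ n := by positivity
        rw [div_le_iff_of_neg (by norm_num)]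
        linarith
    _ = _ := by ring

variable {V : Type*} [Fintype V] [DecidableEq V]

theorem card_kappa_le (ρ : Perm V) (A : Finset V) :
    (univ.filter (fun κ : V → Perm (Fin 3) => loc ρ κ = A)).card ≤
      6 ^ ρ.support.card * 5 ^ A.card := by
  classical
  let T : V → Finset (Perm (Fin 3)) := fun v =>
    if ρ v ≠ v then univ else if v ∈ A then univ.erase 1 else {1}
  have hsub : univ.filter (fun κ : V → Perm (Fin 3) => loc ρ κ = A) ⊆ Fintype.piFinset T := by
    intro κ hκ
    simp only [Finset.mem_filter, Finset.mem_univ, true_and] at hκ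
    rw [Fintype.mem_piFinset]
    intro v
    simp only [T]
    split_ifs with h1 h2
    · exact Finset.mem_univ _
    · rw [← hκ] at h2
      simp only [loc, Finset.mem_filter, Finset.mem_univ, true_and] at h2
      simp [h2.2]
    · rw [← hκ] at h2
      simp only [loc, Finset.mem_filter, Finset.mem_univ, true_and, not_and, not_not] at h2
      rw [Finset.mem_singleton]
      exact h2 (by simpa using h1)
  refine (Finset.card_le_card hsub).trans ?_
  rw [Fintype.card_piFinset]
  have hT : ∀ v, (T v).card ≤ (if v ∈ ρ.support then 6 else 1) * (if v ∈ A then 5 else 1) := by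
    intro v
    simp only [T, Perm.mem_support]
    split_ifs with h1 h2 h2
    · simp [Fintype.card_perm, Nat.factorial]
    · simp [Fintype.card_perm, Nat.factorial]
    · rw [Finset.card_erase_of_mem (Finset.mem_univ _)]
      simp [Fintype.card_perm, Nat.factorial]
    · simp
  calc ∏ v, (T v).card ≤ ∏ v, ((if v ∈ ρ.support then 6 else 1) * (if v ∈ A then 5 else 1)) :=
        Finset.prod_le_prod' fun v _ => hT v
    _ = 6 ^ ρ.support.card * 5 ^ A.card := by
        rw [Finset.prod_mul_distrib]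
        congr 1
        · rw [Finset.prod_ite_mem, Finset.univ_inter, Finset.prod_const]
        · rw [Finset.prod_ite_mem, Finset.univ_inter, Finset.prod_const]

theorem sum_kappa (ρ : Perm V) {y A0 : ℝ} (hy : 0 ≤ y) (hA : 5 * y * Fintype.card V ≤ A0) :
    ∑ κ : V → Perm (Fin 3), y ^ (loc ρ κ).card * √((loc ρ κ).card.factorial : ℝ) ≤
      6 ^ ρ.support.card * (2 * Real.exp (2 * A0 ^ 2)) := by
  classical
  have hA0 : 0 ≤ A0 := le_trans (by positivity) hA
  have h1 : ∑ κ : V → Perm (Fin 3), y ^ (loc ρ κ).card * √((loc ρ κ).card.factorial : ℝ) =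
      ∑ A : Finset V, ∑ κ ∈ univ.filter (fun κ : V → Perm (Fin 3) => loc ρ κ = A),
        y ^ (loc ρ κ).card * √((loc ρ κ).card.factorial : ℝ) := by
    rw [Finset.sum_fiberwise_of_maps_to (fun _ _ => Finset.mem_univ _)]
  rw [h1]
  have h2 : ∀ A : Finset V, ∑ κ ∈ univ.filter (fun κ : V → Perm (Fin 3) => loc ρ κ = A),
        y ^ (loc ρ κ).card * √((loc ρ κ).card.factorial : ℝ) ≤
      6 ^ ρ.support.card * ((5 * y) ^ A.card * √(A.card.factorial : ℝ)) := by
    intro A
    calc ∑ κ ∈ univ.filter (fun κ : V → Perm (Fin 3) => loc ρ κ = A),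
        y ^ (loc ρ κ).card * √((loc ρ κ).card.factorial : ℝ)
        = ∑ κ ∈ univ.filter (fun κ : V → Perm (Fin 3) => loc ρ κ = A),
        y ^ A.card * √(A.card.factorial : ℝ) := by
          apply Finset.sum_congr rfl
          intro κ hκ
          simp only [Finset.mem_filter, Finset.mem_univ, true_and] at hκ
          rw [hκ]
      _ = ((univ.filter (fun κ : V → Perm (Fin 3) => loc ρ κ = A)).card : ℝ) *
          (y ^ A.card * √(A.card.factorial : ℝ)) := by
          rw [Finset.sum_const, nsmul_eq_mul]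
      _ ≤ (6 ^ ρ.support.card * 5 ^ A.card) * (y ^ A.card * √(A.card.factorial : ℝ)) := by
          gcongr
          exact_mod_cast card_kappa_le ρ A
      _ = _ := by rw [mul_pow]; ring
  calc _ ≤ ∑ A : Finset V, 6 ^ ρ.support.card *
        ((5 * y) ^ A.card * √(A.card.factorial : ℝ)) := Finset.sum_le_sum fun A _ => h2 A
    _ = 6 ^ ρ.support.card * ∑ A : Finset V, ((5 * y) ^ A.card * √(A.card.factorial : ℝ)) := by
        rw [Finset.mul_sum]
    _ ≤ 6 ^ ρ.support.card * (2 * Real.exp (2 * A0 ^ 2)) := by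
        gcongr
        have h3 : ∑ A : Finset V, ((5 * y) ^ A.card * √(A.card.factorial : ℝ)) =
            ∑ j ∈ range (Fintype.card V + 1), ((Fintype.card V).choose j) •
              ((5 * y) ^ j * √(j.factorial : ℝ)) := by
          have := Finset.sum_powerset_apply_card (fun j : ℕ => (5 * y) ^ j * √(j.factorial : ℝ))
            (x := (univ : Finset V))
          rw [Finset.powerset_univ, Finset.card_univ] at this
          exact this
        rw [h3]
        refine le_trans ?_ (sum_sqrt_fact A0 hA0 (Fintype.card V + 1))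
        apply Finset.sum_le_sum
        intro j _
        rw [nsmul_eq_mul]
        have hf : (0 : ℝ) < j.factorial := by positivity
        have h4 : ((Fintype.card V).choose j : ℝ) ≤ (Fintype.card V : ℝ) ^ j / (j.factorial : ℝ) :=
          Nat.choose_le_pow_div j (Fintype.card V)
        have hsf : √(j.factorial : ℝ) * √(j.factorial : ℝ) = (j.factorial : ℝ) :=
          Real.mul_self_sqrt hf.le
        calc ((Fintype.card V).choose j : ℝ) * ((5 * y) ^ j * √(j.factorial : ℝ))
            ≤ ((Fintype.card V : ℝ) ^ j / (j.factorial : ℝ)) *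
              ((5 * y) ^ j * √(j.factorial : ℝ)) := by gcongr
          _ = (5 * y * Fintype.card V) ^ j / √(j.factorial : ℝ) := by
              have hw : √(j.factorial : ℝ) ≠ 0 := by positivity
              have hgen : ∀ a b w : ℝ, w ≠ 0 → a / (w * w) * (b * w) = b * a / w := by
                intro a b w hw
                field_simp
              rw [mul_pow (5 * y)]
              nth_rewrite 1 [← hsf]
              exact hgen _ _ _ hw
          _ ≤ A0 ^ j / √(j.factorial : ℝ) := by gcongr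

end Pool.Agent.helper49.Wh
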