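import Pool.Agent.helper49.WhComm

/-!
Real-valued bounds and the summation over two transpositions.
-/

open Equiv Finset

namespace Pool.Agent.helper49.Wh

variable {α : Type*} [Fintype α] [DecidableEq α]

theorem card_comm_real [Nonempty α] {M : ℕ} (hM : 0 < M)
    (hα : Fintype.card α = 2 * M) (π : Perm α) :
    ((comm π).card : ℝ) ≤ mm (2 * M) * (√(Real.exp 1 / M)) ^ π.support.card *
      (2 * √(π.support.card)) ^ π.cycleFactorsFinset.card := by
  set m := π.support.card with hm
  set o := π.cycleFactorsFinset.card with ho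
  have h1 := card_comm_le π
  rw [← hm, ← ho, hα] at h1
  have hMr : (0 : ℝ) < M := by exact_mod_cast hM
  have hm2 : m ≤ 2 * M := by
    rw [hm, ← hα]
    exact Finset.card_le_univ _
  have hq0 : 0 ≤ √(Real.exp 1 / M) := Real.sqrt_nonneg _
  rcases Nat.even_or_odd m with ⟨j, hj⟩ | ⟨j, hj⟩
  · have hj2 : 2 * M - m = 2 * (M - j) := by omega
    have hjM : j ≤ M := by omega
    rw [hj2] at h1
    have h2 := mm_ratio M j hjM
    have hepos : (0 : ℝ) < Real.exp 1 := Real.exp_pos 1
    have h3 : (mm (2 * (M - j)) : ℝ) ≤ mm (2 * M) * (√(Real.exp 1 / M)) ^ m := by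
      have e1 : (√(Real.exp 1 / M)) ^ m = (Real.exp 1 / M) ^ j := by
        rw [hj, ← two_mul, pow_mul, Real.sq_sqrt (by positivity)]
      rw [e1]
      have e2 : (M / Real.exp 1) ^ j * (Real.exp 1 / M) ^ j = 1 := by
        rw [← mul_pow]
        have : (M : ℝ) / Real.exp 1 * (Real.exp 1 / M) = 1 := by field_simp
        rw [this, one_pow]
      calc (mm (2 * (M - j)) : ℝ)
          = (mm (2 * (M - j)) : ℝ) * ((M / Real.exp 1) ^ j * (Real.exp 1 / M) ^ j) := by
            rw [e2, mul_one]
        _ = ((mm (2 * (M - j)) : ℝ) * (M / Real.exp 1) ^ j) * (Real.exp 1 / M) ^ j := by ring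
        _ ≤ (mm (2 * M) : ℝ) * (Real.exp 1 / M) ^ j := by gcongr
    have h4 : ((2 ^ o * m ^ (o / 2) : ℕ) : ℝ) ≤ (2 * √(m : ℝ)) ^ o := by
      push_cast
      rw [mul_pow]
      rcases Nat.eq_zero_or_pos m with h0 | h0
      · have hπ : π = 1 := by
          rw [← Perm.support_eq_empty_iff, ← Finset.card_eq_zero]
          exact h0
        have ho0 : o = 0 := by
          rw [ho, hπ]
          simp
        rw [ho0]
        simp
      · have hs1 : 1 ≤ √(m : ℝ) := by
          rw [Real.one_le_sqrt]
          exact_mod_cast h0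
        have e3 : (m : ℝ) ^ (o / 2) = (√(m : ℝ)) ^ (2 * (o / 2)) := by
          rw [pow_mul, Real.sq_sqrt (by positivity)]
        rw [e3]
        gcongr
        omega
    calc ((comm π).card : ℝ) ≤ ((mm (2 * (M - j)) * (2 ^ o * m ^ (o / 2)) : ℕ) : ℝ) := by
          exact_mod_cast h1
      _ = (mm (2 * (M - j)) : ℝ) * ((2 ^ o * m ^ (o / 2) : ℕ) : ℝ) := by push_cast; ring
      _ ≤ (mm (2 * M) * (√(Real.exp 1 / M)) ^ m) * (2 * √(m : ℝ)) ^ o := by gcongr
  · have hj2 : 2 * M - m = 2 * (M - j - 1) + 1 := by omega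
    rw [hj2, mm_odd, zero_mul] at h1
    have h5 : ((comm π).card : ℝ) = 0 := by
      have : (comm π).card = 0 := by omega
      rw [this]; simp
    rw [h5]
    positivity

/-- Multiplying by one transposition on the right. -/
theorem supp_mul_swap (σ : Perm α) (f g : α) :
    σ.support.card + 2 * (({f, g} : Finset α) \ σ.support).card ≤
      (σ * swap f g).support.card + 2 := by
  classical
  by_cases hfg : f = g
  · subst hfg
    have h1 : (({f, f} : Finset α) \ σ.support).card ≤ 1 := by
      calc _ ≤ ({f, f} : Finset α).card := Finset.card_le_card Finset.sdiff_subset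
        _ = 1 := by simp
    simp only [swap_self]
    have : σ * (Equiv.refl α) = σ := by ext; simp
    rw [this]
    omega
  · have hout : ∀ x ∈ σ.support, x ≠ f → x ≠ g → x ∈ (σ * swap f g).support := by
      intro x hx hxf hxg
      rw [Perm.mem_support] at hx ⊢
      rw [Perm.mul_apply, swap_apply_of_ne_of_ne hxf hxg]
      exact hx
    by_cases hf : f ∈ σ.support <;> by_cases hg : g ∈ σ.support
    · have h0 : (({f, g} : Finset α) \ σ.support) = ∅ := by
        ext x; simp only [Finset.mem_sdiff, Finset.mem_insert, Finset.mem_singleton]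
        constructor
        · rintro ⟨rfl | rfl, h⟩
          · exact absurd hf h
          · exact absurd hg h
        · simp
      rw [h0]
      have h1 : (σ.support \ {f, g}) ⊆ (σ * swap f g).support := by
        intro x hx
        simp only [Finset.mem_sdiff, Finset.mem_insert, Finset.mem_singleton, not_or] at hx
        exact hout x hx.1 hx.2.1 hx.2.2
      have h2 := Finset.card_le_card h1
      have h3 : σ.support.card - ({f, g} : Finset α).card ≤ (σ.support \ {f, g}).card :=
        Finset.le_card_sdiff _ _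
      have h4 : ({f, g} : Finset α).card ≤ 2 := Finset.card_le_two
      simp only [Finset.card_empty]
      omega
    · -- f in, g out
      have hgg : σ g = g := by simpa using hg
      have h1 : insert g σ.support ⊆ (σ * swap f g).support := by
        intro x hx
        rw [Finset.mem_insert] at hx
        by_cases hxf : x = f
        · subst hxf
          rw [Perm.mem_support, Perm.mul_apply, swap_apply_left, hgg]
          exact fun h => hfg h.symm
        · by_cases hxg : x = g
          · subst hxg
            rw [Perm.mem_support, Perm.mul_apply, swap_apply_right]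
            intro h
            rw [← hgg] at h
            have := σ.injective h
            exact hxf (this ▸ rfl : x = f)
          · rcases hx with h | h
            · exact absurd h hxg
            · exact hout x h hxf hxg
      have h2 := Finset.card_le_card h1
      rw [Finset.card_insert_of_notMem hg] at h2
      have h5 : (({f, g} : Finset α) \ σ.support).card ≤ 1 := by
        have : (({f, g} : Finset α) \ σ.support) ⊆ {g} := by
          intro x
          simp only [Finset.mem_sdiff, Finset.mem_insert, Finset.mem_singleton]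
          rintro ⟨rfl | rfl, h⟩
          · exact absurd hf h
          · rfl
        exact (Finset.card_le_card this).trans (by simp)
      omega
    · have hff : σ f = f := by simpa using hf
      have h1 : insert f σ.support ⊆ (σ * swap f g).support := by
        intro x hx
        rw [Finset.mem_insert] at hx
        by_cases hxg : x = g
        · subst hxg
          rw [Perm.mem_support, Perm.mul_apply, swap_apply_right, hff]
          exact hfg
        · by_cases hxf : x = f
          · subst hxf
            rw [Perm.mem_support, Perm.mul_apply, swap_apply_left]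
            intro h
            rw [← hff] at h
            have := σ.injective h
            exact hxg (this ▸ rfl : x = g)
          · rcases hx with h | h
            · exact absurd h hxf
            · exact hout x h hxf hxg
      have h2 := Finset.card_le_card h1
      rw [Finset.card_insert_of_notMem hf] at h2
      have h5 : (({f, g} : Finset α) \ σ.support).card ≤ 1 := by
        have : (({f, g} : Finset α) \ σ.support) ⊆ {f} := by
          intro x
          simp only [Finset.mem_sdiff, Finset.mem_insert, Finset.mem_singleton]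
          rintro ⟨rfl | rfl, h⟩
          · rfl
          · exact absurd hg h
        exact (Finset.card_le_card this).trans (by simp)
      omega
    · have hff : σ f = f := by simpa using hf
      have hgg : σ g = g := by simpa using hg
      have h1 : insert f (insert g σ.support) ⊆ (σ * swap f g).support := by
        intro x hx
        rw [Finset.mem_insert, Finset.mem_insert] at hx
        by_cases hxg : x = g
        · subst hxg
          rw [Perm.mem_support, Perm.mul_apply, swap_apply_right, hff]
          exact hfg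
        · by_cases hxf : x = f
          · subst hxf
            rw [Perm.mem_support, Perm.mul_apply, swap_apply_left, hgg]
            exact fun h => hfg h.symm
          · rcases hx with h | h | h
            · exact absurd h hxf
            · exact absurd h hxg
            · exact hout x h hxf hxg
      have h2 := Finset.card_le_card h1
      rw [Finset.card_insert_of_notMem, Finset.card_insert_of_notMem hg] at h2
      · have h5 : (({f, g} : Finset α) \ σ.support).card ≤ 2 :=
          (Finset.card_le_card Finset.sdiff_subset).trans Finset.card_le_two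
        omega
      · rw [Finset.mem_insert]
        rintro (h | h)
        · exact hfg h
        · exact hf h

theorem supp_swap_mul (σ : Perm α) (f g : α) :
    σ.support.card + 2 * (({f, g} : Finset α) \ σ.support).card ≤
      (swap f g * σ).support.card + 2 := by
  have h := supp_mul_swap σ⁻¹ f g
  rw [Perm.support_inv] at h
  have h2 : (swap f g * σ).support = (σ⁻¹ * swap f g).support := by
    rw [← Perm.support_inv (swap f g * σ)]
    simp
  rw [h2]
  exact h

theorem supp_two (σ : Perm α) (f₁ g₁ f₂ g₂ : α) :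
    σ.support.card + 2 * (({g₂, f₂, g₁, f₁} : Finset α) \ σ.support).card ≤
      (swap f₂ g₂ * σ * swap f₁ g₁).support.card + 4 := by
  classical
  have h1 := supp_mul_swap σ f₁ g₁
  have h2 := supp_swap_mul (σ * swap f₁ g₁) f₂ g₂
  rw [← mul_assoc] at h2
  have h3 : (({g₂, f₂, g₁, f₁} : Finset α) \ σ.support) ⊆
      (({f₁, g₁} : Finset α) \ σ.support) ∪
        (({f₂, g₂} : Finset α) \ (σ * swap f₁ g₁).support) := by
    intro x hx
    simp only [Finset.mem_sdiff, Finset.mem_insert, Finset.mem_singleton, Finset.mem_union] at hx ⊢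
    by_cases hx1 : x = f₁ ∨ x = g₁
    · left
      exact ⟨hx1, hx.2⟩
    · right
      push Not at hx1
      refine ⟨by tauto, ?_⟩
      rw [Perm.mem_support, not_not, Perm.mul_apply, swap_apply_of_ne_of_ne hx1.1 hx1.2]
      simpa using hx.2
  have h4 := Finset.card_le_card h3
  have h5 := Finset.card_union_le (({f₁, g₁} : Finset α) \ σ.support)
        (({f₂, g₂} : Finset α) \ (σ * swap f₁ g₁).support)
  omega

theorem supp_two_upper (σ : Perm α) (f₁ g₁ f₂ g₂ : α) :
    (swap f₂ g₂ * σ * swap f₁ g₁).support.card ≤ σ.support.card + 4 := by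
  classical
  have h : (swap f₂ g₂ * σ * swap f₁ g₁).support ⊆ ({f₂, g₂} ∪ σ.support) ∪ {f₁, g₁} := by
    intro x hx
    by_contra hcon
    simp only [Finset.mem_union, Finset.mem_insert, Finset.mem_singleton, not_or] at hcon
    obtain ⟨⟨⟨h1, h2⟩, h3⟩, h4, h5⟩ := hcon
    rw [Perm.mem_support] at hx
    apply hx
    have h6 : σ x = x := by simpa using h3
    rw [Perm.mul_apply, Perm.mul_apply, swap_apply_of_ne_of_ne h4 h5, h6,
      swap_apply_of_ne_of_ne h1 h2]
  have h1 := Finset.card_le_card h
  have h2 := Finset.card_union_le ({f₂, g₂} ∪ σ.support) ({f₁, g₁} : Finset α)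
  have h3 := Finset.card_union_le ({f₂, g₂} : Finset α) σ.support
  have h4 : ({f₂, g₂} : Finset α).card ≤ 2 := Finset.card_le_two
  have h5 : ({f₁, g₁} : Finset α).card ≤ 2 := Finset.card_le_two
  omega

theorem cyc_two (σ : Perm α) (f₁ g₁ f₂ g₂ : α) :
    (swap f₂ g₂ * σ * swap f₁ g₁).cycleFactorsFinset.card ≤ σ.cycleFactorsFinset.card + 4 := by
  classical
  set π := swap f₂ g₂ * σ * swap f₁ g₁ with hπ
  have h : π.cycleFactorsFinset ⊆ σ.cycleFactorsFinset ∪
      ({f₁, g₁, f₂, g₂} : Finset α).image (fun x => π.cycleOf x) := by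
    intro c hc
    rw [Finset.mem_union]
    by_cases hx : ∃ x ∈ ({f₁, g₁, f₂, g₂} : Finset α), x ∈ c.support
    · right
      obtain ⟨x, hx1, hx2⟩ := hx
      rw [Finset.mem_image]
      exact ⟨x, hx1, (Perm.cycle_is_cycleOf hx2 hc).symm⟩
    · left
      push Not at hx
      have hc' := Perm.mem_cycleFactorsFinset_iff.mp hc
      rw [Perm.mem_cycleFactorsFinset_iff]
      refine ⟨hc'.1, fun a ha => ?_⟩
      have h1 : a ≠ f₁ := fun h => hx f₁ (by simp) (h ▸ ha)
      have h2 : a ≠ g₁ := fun h => hx g₁ (by simp) (h ▸ ha)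
      have h3 : c a ≠ f₂ := fun h => hx f₂ (by simp) (h ▸ Perm.apply_mem_support.mpr ha)
      have h4 : c a ≠ g₂ := fun h => hx g₂ (by simp) (h ▸ Perm.apply_mem_support.mpr ha)
      have h5 := hc'.2 a ha
      rw [hπ, Perm.mul_apply, Perm.mul_apply, swap_apply_of_ne_of_ne h1 h2] at h5
      have h6 : swap f₂ g₂ (c a) = σ a := by
        rw [h5]; simp
      rw [swap_apply_of_ne_of_ne h3 h4] at h6
      exact h6
  have h1 := Finset.card_le_card h
  have h2 := Finset.card_union_le σ.cycleFactorsFinset
    (({f₁, g₁, f₂, g₂} : Finset α).image (fun x => π.cycleOf x))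
  have h3 : (({f₁, g₁, f₂, g₂} : Finset α).image (fun x => π.cycleOf x)).card ≤ 4 :=
    Finset.card_image_le.trans Finset.card_le_four
  omega

/-- One summation step. -/
theorem sum_slot (S A : Finset α) {y : ℝ} (hy0 : 0 ≤ y) :
    ∑ f : α, y ^ ((insert f A) \ S).card ≤
      y ^ (A \ S).card * ((S.card : ℝ) + A.card + y * Fintype.card α) := by
  classical
  have hsplit : ∀ f : α, y ^ ((insert f A) \ S).card ≤
      (if f ∈ S ∪ A then y ^ (A \ S).card else 0) + y ^ (A \ S).card * y := by
    intro f
    by_cases hf : f ∈ S ∪ A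
    · have : (insert f A) \ S = A \ S := by
        ext x
        simp only [Finset.mem_sdiff, Finset.mem_insert]
        rw [Finset.mem_union] at hf
        constructor
        · rintro ⟨rfl | h, h2⟩
          · exact ⟨by tauto, h2⟩
          · exact ⟨h, h2⟩
        · rintro ⟨h1, h2⟩
          exact ⟨Or.inr h1, h2⟩
      rw [this, if_pos hf]
      have : 0 ≤ y ^ (A \ S).card * y := by positivity
      linarith
    · rw [if_neg hf, zero_add]
      rw [Finset.mem_union, not_or] at hf
      have : (insert f A) \ S = insert f (A \ S) := Finset.insert_sdiff_of_notMem _ hf.1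
      rw [this, Finset.card_insert_of_notMem, pow_succ]
      rw [Finset.mem_sdiff]
      tauto
  calc ∑ f : α, y ^ ((insert f A) \ S).card
      ≤ ∑ f : α, ((if f ∈ S ∪ A then y ^ (A \ S).card else 0) + y ^ (A \ S).card * y) :=
        Finset.sum_le_sum (fun f _ => hsplit f)
    _ = (S ∪ A).card * y ^ (A \ S).card + Fintype.card α * (y ^ (A \ S).card * y) := by
        rw [Finset.sum_add_distrib, Finset.sum_ite_mem, Finset.univ_inter, Finset.sum_const,
          Finset.sum_const, Finset.card_univ]
        simp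
    _ ≤ ((S.card : ℝ) + A.card) * y ^ (A \ S).card + Fintype.card α * (y ^ (A \ S).card * y) := by
        have : ((S ∪ A).card : ℝ) ≤ (S.card : ℝ) + A.card := by
          exact_mod_cast Finset.card_union_le S A
        gcongr
    _ = _ := by ring

theorem sum_slots (S : Finset α) {y : ℝ} (hy0 : 0 ≤ y) (hy6 : y * Fintype.card α ≤ 6) :
    ∑ f₁ : α, ∑ g₁ : α, ∑ f₂ : α, ∑ g₂ : α,
      y ^ (({g₂, f₂, g₁, f₁} : Finset α) \ S).card ≤ ((S.card : ℝ) + 9) ^ 4 := by
  classical
  have step : ∀ A : Finset α, A.card ≤ 3 → ∑ f : α, y ^ ((insert f A) \ S).card ≤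
      y ^ (A \ S).card * ((S.card : ℝ) + 9) := by
    intro A hA
    refine (sum_slot S A hy0).trans ?_
    have hA' : (A.card : ℝ) ≤ 3 := by exact_mod_cast hA
    have : (S.card : ℝ) + A.card + y * Fintype.card α ≤ (S.card : ℝ) + 9 := by linarith
    gcongr
  have hS : 0 ≤ (S.card : ℝ) + 9 := by positivity
  calc ∑ f₁ : α, ∑ g₁ : α, ∑ f₂ : α, ∑ g₂ : α, y ^ (({g₂, f₂, g₁, f₁} : Finset α) \ S).card
      ≤ ∑ f₁ : α, ∑ g₁ : α, ∑ f₂ : α, y ^ (({f₂, g₁, f₁} : Finset α) \ S).card *
          ((S.card : ℝ) + 9) := by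
        refine Finset.sum_le_sum fun f₁ _ => Finset.sum_le_sum fun g₁ _ =>
          Finset.sum_le_sum fun f₂ _ => ?_
        exact step _ Finset.card_le_three
    _ ≤ ∑ f₁ : α, ∑ g₁ : α, y ^ (({g₁, f₁} : Finset α) \ S).card *
          ((S.card : ℝ) + 9) * ((S.card : ℝ) + 9) := by
        refine Finset.sum_le_sum fun f₁ _ => Finset.sum_le_sum fun g₁ _ => ?_
        rw [← Finset.sum_mul]
        gcongr
        exact step _ (Finset.card_le_two.trans (by norm_num))
    _ ≤ ∑ f₁ : α, y ^ (({f₁} : Finset α) \ S).card *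
          ((S.card : ℝ) + 9) * ((S.card : ℝ) + 9) * ((S.card : ℝ) + 9) := by
        refine Finset.sum_le_sum fun f₁ _ => ?_
        rw [← Finset.sum_mul, ← Finset.sum_mul]
        gcongr
        exact step _ (by simp)
    _ ≤ y ^ ((∅ : Finset α) \ S).card * ((S.card : ℝ) + 9) *
          ((S.card : ℝ) + 9) * ((S.card : ℝ) + 9) * ((S.card : ℝ) + 9) := by
        rw [← Finset.sum_mul, ← Finset.sum_mul, ← Finset.sum_mul]
        gcongr
        have := step ∅ (by simp)
        simpa using this
    _ = ((S.card : ℝ) + 9) ^ 4 := by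
        simp only [Finset.empty_sdiff, Finset.card_empty, pow_zero]
        ring

/-- The sum over two transpositions. -/
theorem sum_comm_two [Nonempty α] {M : ℕ} (hM : 3 ≤ M) (hα : Fintype.card α = 2 * M)
    (σ : Perm α) :
    (Real.exp 1 / M) ^ 2 * ∑ f₁ : α, ∑ g₁ : α, ∑ f₂ : α, ∑ g₂ : α,
      ((comm (swap f₂ g₂ * σ * swap f₁ g₁)).card : ℝ) ≤
    mm (2 * M) * (√(Real.exp 1 / M)) ^ σ.support.card *
      (2 * √((σ.support.card : ℝ) + 9)) ^ (σ.cycleFactorsFinset.card + 4) *
        ((σ.support.card : ℝ) + 9) ^ 4 := by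
  have hMr : (0 : ℝ) < M := by
    have : 0 < M := by omega
    exact_mod_cast this
  set q := √(Real.exp 1 / M) with hq
  have hq0 : 0 ≤ q := Real.sqrt_nonneg _
  have he3 : Real.exp 1 < 3 := lt_trans Real.exp_one_lt_d9 (by norm_num)
  have hq2 : q ^ 2 = Real.exp 1 / M := Real.sq_sqrt (by positivity)
  have hq1 : q ≤ 1 := by
    rw [hq, Real.sqrt_le_one]
    rw [div_le_one hMr]
    have : (3 : ℝ) ≤ M := by exact_mod_cast hM
    linarith
  set m := σ.support.card with hm
  set o := σ.cycleFactorsFinset.card with ho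
  have hterm : ∀ f₁ g₁ f₂ g₂ : α, (Real.exp 1 / M) ^ 2 *
      ((comm (swap f₂ g₂ * σ * swap f₁ g₁)).card : ℝ) ≤
      (mm (2 * M) * q ^ m * (2 * √((m : ℝ) + 9)) ^ (o + 4)) *
        (q ^ 2) ^ (({g₂, f₂, g₁, f₁} : Finset α) \ σ.support).card := by
    intro f₁ g₁ f₂ g₂
    set π := swap f₂ g₂ * σ * swap f₁ g₁ with hπ
    set t := (({g₂, f₂, g₁, f₁} : Finset α) \ σ.support).card with ht
    have h1 := card_comm_real (by omega : 0 < M) hα π
    rw [← hq] at h1
    have h2 := supp_two σ f₁ g₁ f₂ g₂
    rw [← hπ, ← ht, ← hm] at h2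
    have h3 := supp_two_upper σ f₁ g₁ f₂ g₂
    rw [← hπ, ← hm] at h3
    have h4 := cyc_two σ f₁ g₁ f₂ g₂
    rw [← hπ, ← ho] at h4
    have e1 : (Real.exp 1 / M) ^ 2 = q ^ 4 := by rw [← hq2]; ring
    have e2 : (q ^ 2) ^ t = q ^ (2 * t) := by rw [pow_mul]
    have hb : 1 ≤ 2 * √((m : ℝ) + 9) := by
      have : 1 ≤ √((m : ℝ) + 9) := by
        rw [Real.one_le_sqrt]
        have : (0 : ℝ) ≤ m := by positivity
        linarith
      linarith
    have h5 : (2 * √((π.support.card : ℝ))) ^ π.cycleFactorsFinset.card ≤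
        (2 * √((m : ℝ) + 9)) ^ (o + 4) := by
      calc (2 * √((π.support.card : ℝ))) ^ π.cycleFactorsFinset.card
          ≤ (2 * √((m : ℝ) + 9)) ^ π.cycleFactorsFinset.card := by
            gcongr
            have : (π.support.card : ℝ) ≤ (m : ℝ) + 4 := by exact_mod_cast h3
            linarith
        _ ≤ (2 * √((m : ℝ) + 9)) ^ (o + 4) := pow_le_pow_right₀ hb h4
    rw [e1, e2]
    calc q ^ 4 * ((comm π).card : ℝ)
        ≤ q ^ 4 * (mm (2 * M) * q ^ π.support.card *
            (2 * √((π.support.card : ℝ))) ^ π.cycleFactorsFinset.card) := by gcongr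
      _ = mm (2 * M) * q ^ (π.support.card + 4) *
            (2 * √((π.support.card : ℝ))) ^ π.cycleFactorsFinset.card := by
          rw [pow_add]; ring
      _ ≤ mm (2 * M) * q ^ (m + 2 * t) * (2 * √((m : ℝ) + 9)) ^ (o + 4) := by
          have : q ^ (π.support.card + 4) ≤ q ^ (m + 2 * t) := pow_le_pow_of_le_one hq0 hq1 h2
          gcongr
      _ = (mm (2 * M) * q ^ m * (2 * √((m : ℝ) + 9)) ^ (o + 4)) * q ^ (2 * t) := by
          rw [pow_add]; ring
  have hslots := sum_slots σ.support (y := q ^ 2) (by positivity) (by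
    rw [hq2, hα]
    push_cast
    have : Real.exp 1 / M * (2 * M) = 2 * Real.exp 1 := by field_simp
    rw [this]
    linarith)
  calc (Real.exp 1 / M) ^ 2 * ∑ f₁ : α, ∑ g₁ : α, ∑ f₂ : α, ∑ g₂ : α,
      ((comm (swap f₂ g₂ * σ * swap f₁ g₁)).card : ℝ)
      = ∑ f₁ : α, ∑ g₁ : α, ∑ f₂ : α, ∑ g₂ : α, (Real.exp 1 / M) ^ 2 *
      ((comm (swap f₂ g₂ * σ * swap f₁ g₁)).card : ℝ) := by
        simp only [Finset.mul_sum]
    _ ≤ ∑ f₁ : α, ∑ g₁ : α, ∑ f₂ : α, ∑ g₂ : α,
        (mm (2 * M) * q ^ m * (2 * √((m : ℝ) + 9)) ^ (o + 4)) *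
        (q ^ 2) ^ (({g₂, f₂, g₁, f₁} : Finset α) \ σ.support).card := by
        refine Finset.sum_le_sum fun f₁ _ => Finset.sum_le_sum fun g₁ _ =>
          Finset.sum_le_sum fun f₂ _ => Finset.sum_le_sum fun g₂ _ => ?_
        exact hterm f₁ g₁ f₂ g₂
    _ = (mm (2 * M) * q ^ m * (2 * √((m : ℝ) + 9)) ^ (o + 4)) *
        ∑ f₁ : α, ∑ g₁ : α, ∑ f₂ : α, ∑ g₂ : α,
        (q ^ 2) ^ (({g₂, f₂, g₁, f₁} : Finset α) \ σ.support).card := by
        simp only [Finset.mul_sum]
    _ ≤ (mm (2 * M) * q ^ m * (2 * √((m : ℝ) + 9)) ^ (o + 4)) *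
        ((m : ℝ) + 9) ^ 4 := by gcongr

end Pool.Agent.helper49.Wh
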